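import Mathlib

set_option autoImplicit false

namespace Pool.Agent.Helper280.GI

open Cardinal

section Rank

variable {H K L : Type*} [NormedAddCommGroup H] [NormedSpace ℂ H]
  [NormedAddCommGroup K] [NormedSpace ℂ K] [NormedAddCommGroup L] [NormedSpace ℂ L]

/-- Bounded operators of finite rank. -/
def FR (T : H →L[ℂ] K) : Prop :=
  FiniteDimensional ℂ (LinearMap.range (T : H →ₗ[ℂ] K))

/-- Linear maps of rank at most `n`. -/
def RKL {V W : Type*} [AddCommGroup V] [Module ℂ V] [AddCommGroup W] [Module ℂ W]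
    (n : ℕ) (f : V →ₗ[ℂ] W) : Prop :=
  LinearMap.rank f ≤ (n : Cardinal)

/-- Bounded operators of rank at most `n`. -/
def RK (n : ℕ) (T : H →L[ℂ] K) : Prop := RKL n (T : H →ₗ[ℂ] K)

section RKL

variable {V W X : Type*} [AddCommGroup V] [Module ℂ V] [AddCommGroup W] [Module ℂ W]
  [AddCommGroup X] [Module ℂ X]

lemma RKL.mono {m n : ℕ} (h : m ≤ n) {f : V →ₗ[ℂ] W} (hf : RKL m f) : RKL n f :=
  le_trans hf (by exact_mod_cast h)

lemma RKL.zero (n : ℕ) : RKL n (0 : V →ₗ[ℂ] W) := by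
  simp [RKL, LinearMap.rank]

lemma rkl_zero_iff {f : V →ₗ[ℂ] W} : RKL 0 f ↔ f = 0 := by
  constructor
  · intro h
    have h1 : Module.rank ℂ (LinearMap.range f) = 0 := le_antisymm (by simpa [RKL, LinearMap.rank] using h) (zero_le)
    have h2 : Subsingleton (LinearMap.range f) := rank_zero_iff.1 h1
    ext v
    have := h2.elim ⟨f v, LinearMap.mem_range_self f v⟩ 0
    simpa using congrArg Subtype.val this
  · rintro rfl
    exact RKL.zero 0

lemma RKL.add {m n : ℕ} {f g : V →ₗ[ℂ] W} (hf : RKL m f) (hg : RKL n g) :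
    RKL (m + n) (f + g) := by
  unfold RKL at *
  refine (LinearMap.rank_add_le f g).trans ?_
  push_cast
  exact add_le_add hf hg

lemma RKL.smul {n : ℕ} (c : ℂ) {f : V →ₗ[ℂ] W} (hf : RKL n f) : RKL n (c • f) := by
  unfold RKL LinearMap.rank at *
  refine le_trans (Submodule.rank_mono ?_) hf
  rintro _ ⟨v, rfl⟩
  exact (LinearMap.range f).smul_mem c (LinearMap.mem_range_self f v)

lemma RKL.neg {n : ℕ} {f : V →ₗ[ℂ] W} (hf : RKL n f) : RKL n (-f) := by
  simpa using hf.smul (-1)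

lemma RKL.sub {m n : ℕ} {f g : V →ₗ[ℂ] W} (hf : RKL m f) (hg : RKL n g) :
    RKL (m + n) (f - g) := by
  rw [sub_eq_add_neg]
  exact hf.add hg.neg

lemma RKL.comp_left {n : ℕ} {f : V →ₗ[ℂ] W} (hf : RKL n f) (g : W →ₗ[ℂ] X) :
    RKL n (g ∘ₗ f) := by
  unfold RKL LinearMap.rank at *
  have h1 : LinearMap.range (g ∘ₗ f) = (LinearMap.range f).map g := LinearMap.range_comp f g
  rw [h1]
  have h2 : Module.Finite ℂ (LinearMap.range f) := by
    rw [← Module.rank_lt_aleph0_iff]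
    exact lt_of_le_of_lt hf (Cardinal.natCast_lt_aleph0)
  have h3 : Module.Finite ℂ ((LinearMap.range f).map g) := Module.Finite.map _ _
  have h4 : Module.finrank ℂ ((LinearMap.range f).map g) ≤ Module.finrank ℂ (LinearMap.range f) :=
    Submodule.finrank_map_le g _
  rw [← Module.finrank_eq_rank] at hf ⊢
  have h5 : Module.finrank ℂ (LinearMap.range f) ≤ n := by exact_mod_cast hf
  exact_mod_cast h4.trans h5

lemma RKL.comp_right {n : ℕ} {g : W →ₗ[ℂ] X} (hg : RKL n g) (f : V →ₗ[ℂ] W) :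
    RKL n (g ∘ₗ f) := by
  unfold RKL LinearMap.rank at *
  refine le_trans (Submodule.rank_mono ?_) hg
  rintro _ ⟨v, rfl⟩
  exact LinearMap.mem_range_self g (f v)

lemma rkl_iff_exists {f : V →ₗ[ℂ] W} :
    (∃ n, RKL n f) ↔ FiniteDimensional ℂ (LinearMap.range f) := by
  constructor
  · rintro ⟨n, hn⟩
    have h2 : Module.Finite ℂ (LinearMap.range f) := by
      rw [← Module.rank_lt_aleph0_iff]
      exact lt_of_le_of_lt hn (Cardinal.natCast_lt_aleph0)
    exact h2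
  · intro h
    refine ⟨Module.finrank ℂ (LinearMap.range f), ?_⟩
    unfold RKL LinearMap.rank
    rw [Module.finrank_eq_rank]

lemma rkl_iff_finrank {n : ℕ} {f : V →ₗ[ℂ] W} :
    RKL n f ↔ FiniteDimensional ℂ (LinearMap.range f) ∧
      Module.finrank ℂ (LinearMap.range f) ≤ n := by
  constructor
  · intro h
    have h1 := rkl_iff_exists.1 ⟨n, h⟩
    refine ⟨h1, ?_⟩
    unfold RKL LinearMap.rank at h
    rw [← Module.finrank_eq_rank] at h
    exact_mod_cast h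
  · rintro ⟨h1, h2⟩
    unfold RKL LinearMap.rank
    rw [← Module.finrank_eq_rank]
    exact_mod_cast h2

end RKL

lemma RK.mono {m n : ℕ} (h : m ≤ n) {S : H →L[ℂ] K} (hS : RK m S) : RK n S := RKL.mono h hS

lemma RK.zero (n : ℕ) : RK n (0 : H →L[ℂ] K) := RKL.zero n

lemma rk_zero_iff {S : H →L[ℂ] K} : RK 0 S ↔ S = 0 := by
  unfold RK
  rw [rkl_zero_iff]
  constructor
  · intro h
    ext v
    exact LinearMap.congr_fun h v
  · rintro rfl
    rfl

lemma RK.add {m n : ℕ} {S T : H →L[ℂ] K} (hS : RK m S) (hT : RK n T) : RK (m + n) (S + T) :=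
  RKL.add hS hT

lemma RK.smul {n : ℕ} (c : ℂ) {S : H →L[ℂ] K} (hS : RK n S) : RK n (c • S) := RKL.smul c hS

lemma RK.neg {n : ℕ} {S : H →L[ℂ] K} (hS : RK n S) : RK n (-S) := RKL.neg hS

lemma RK.sub {m n : ℕ} {S T : H →L[ℂ] K} (hS : RK m S) (hT : RK n T) : RK (m + n) (S - T) :=
  RKL.sub hS hT

lemma RK.comp_left {n : ℕ} {S : H →L[ℂ] K} (hS : RK n S) (T : K →L[ℂ] L) : RK n (T ∘L S) :=
  RKL.comp_left hS (T : K →ₗ[ℂ] L)

lemma RK.comp_right {n : ℕ} {T : K →L[ℂ] L} (hT : RK n T) (S : H →L[ℂ] K) : RK n (T ∘L S) :=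
  RKL.comp_right hT (S : H →ₗ[ℂ] K)

lemma RK.mul_left {n : ℕ} {S : H →L[ℂ] H} (hS : RK n S) (T : H →L[ℂ] H) : RK n (T * S) :=
  hS.comp_left T

lemma RK.mul_right {n : ℕ} {S : H →L[ℂ] H} (hS : RK n S) (T : H →L[ℂ] H) : RK n (S * T) :=
  hS.comp_right T

lemma fr_iff {S : H →L[ℂ] K} : FR S ↔ ∃ n, RK n S := (rkl_iff_exists (f := (S : H →ₗ[ℂ] K))).symm

lemma RK.fr {n : ℕ} {S : H →L[ℂ] K} (h : RK n S) : FR S := fr_iff.2 ⟨n, h⟩

lemma FR.zero : FR (0 : H →L[ℂ] K) := fr_iff.2 ⟨0, RK.zero 0⟩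

lemma FR.add {S T : H →L[ℂ] K} (hS : FR S) (hT : FR T) : FR (S + T) := by
  obtain ⟨m, hm⟩ := fr_iff.1 hS
  obtain ⟨n, hn⟩ := fr_iff.1 hT
  exact (hm.add hn).fr

lemma FR.smul (c : ℂ) {S : H →L[ℂ] K} (hS : FR S) : FR (c • S) := by
  obtain ⟨m, hm⟩ := fr_iff.1 hS
  exact (hm.smul c).fr

lemma FR.neg {S : H →L[ℂ] K} (hS : FR S) : FR (-S) := by
  obtain ⟨m, hm⟩ := fr_iff.1 hS
  exact hm.neg.fr

lemma FR.sub {S T : H →L[ℂ] K} (hS : FR S) (hT : FR T) : FR (S - T) := by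
  obtain ⟨m, hm⟩ := fr_iff.1 hS
  obtain ⟨n, hn⟩ := fr_iff.1 hT
  exact (hm.sub hn).fr

lemma FR.comp_left {S : H →L[ℂ] K} (hS : FR S) (T : K →L[ℂ] L) : FR (T ∘L S) := by
  obtain ⟨m, hm⟩ := fr_iff.1 hS
  exact (hm.comp_left T).fr

lemma FR.comp_right {T : K →L[ℂ] L} (hT : FR T) (S : H →L[ℂ] K) : FR (T ∘L S) := by
  obtain ⟨m, hm⟩ := fr_iff.1 hT
  exact (hm.comp_right S).fr

lemma FR.mul_left {S : H →L[ℂ] H} (hS : FR S) (T : H →L[ℂ] H) : FR (T * S) := hS.comp_left T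

lemma FR.mul_right {S : H →L[ℂ] H} (hS : FR S) (T : H →L[ℂ] H) : FR (S * T) := hS.comp_right T

lemma FR.of_sub {S T : H →L[ℂ] K} (h : FR (S - T)) (hT : FR T) : FR S := by
  have := h.add hT
  simpa using this

lemma FR.sub_comm {S T : H →L[ℂ] K} (h : FR (S - T)) : FR (T - S) := by
  have := h.neg
  simpa using this

lemma FR.trans {S T U : H →L[ℂ] K} (h : FR (S - T)) (h' : FR (T - U)) : FR (S - U) := by
  have := h.add h'
  simpa using this

lemma FR.mul_congr {S S' T T' : H →L[ℂ] H} (h : FR (S - S')) (h' : FR (T - T')) :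
    FR (S * T - S' * T') := by
  have : S * T - S' * T' = (S - S') * T + S' * (T - T') := by noncomm_ring
  rw [this]
  exact (h.mul_right T).add (h'.mul_left S')

end Rank

section Reg

variable {H : Type*} [NormedAddCommGroup H] [NormedSpace ℂ H]

/-- left invertible modulo finite rank operators -/
def LI (T : H →L[ℂ] H) : Prop := ∃ S : H →L[ℂ] H, FR (S * T - 1)

/-- right invertible modulo finite rank operators -/
def RI (T : H →L[ℂ] H) : Prop := ∃ S : H →L[ℂ] H, FR (T * S - 1)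

/-- von Neumann regular modulo finite rank operators -/
def RG (T : H →L[ℂ] H) : Prop := ∃ S : H →L[ℂ] H, FR (T * S * T - T)

end Reg

/-- A lift to `B(H)` of an algebra automorphism of `B(H)/F(H)`. -/
structure NearAut {H : Type*} [NormedAddCommGroup H] [NormedSpace ℂ H]
    (a : (H →L[ℂ] H) → (H →L[ℂ] H)) : Prop where
  add : ∀ x y, FR (a (x + y) - (a x + a y))
  smul : ∀ (c : ℂ) x, FR (a (c • x) - c • a x)
  mul : ∀ x y, FR (a (x * y) - a x * a y)
  one : FR (a 1 - 1)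
  fin : ∀ x, FR x ↔ FR (a x)
  surj : ∀ y, ∃ x, FR (y - a x)

end Pool.Agent.Helper280.GI
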