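import Mathlib
import Pool.Agent.Helper280.GI.Basic

set_option autoImplicit false

namespace Pool.Agent.Helper280.GI



section JA
variable {H : Type*} [NormedAddCommGroup H] [InnerProductSpace ℂ H] [CompleteSpace H]

theorem exists_compact_not_fr [TopologicalSpace.SeparableSpace H]
    (hinf : ¬ FiniteDimensional ℂ H) :
    ∃ (R : H →L[ℂ] H) (Rn : ℕ → (H →L[ℂ] H)), ¬ FR R ∧ (∀ n, FR (Rn n)) ∧
      Filter.Tendsto Rn Filter.atTop (nhds R) := by
  obtain ⟨w, b, hb⟩ := exists_hilbertBasis ℂ H
  have hw : Infinite w := by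
    by_contra hfin
    rw [not_infinite_iff_finite] at hfin
    have := Fintype.ofFinite w
    apply hinf
    exact Module.Finite.of_basis b.toOrthonormalBasis.toBasis
  let em : ℕ ↪ w := Infinite.natEmbedding w
  let e : ℕ → H := fun n => b (em n)
  have he : Orthonormal ℂ e := b.orthonormal.comp em em.injective
  let P : ℕ → (H →L[ℂ] H) := fun n => (innerSL ℂ (e n)).smulRight (e n)
  have hPapp : ∀ n m, P n (e m) = if n = m then e m else 0 := by
    intro n m
    have h1 : P n (e m) = (inner ℂ (e n) (e m)) • e n := by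
      simp [P]
    rw [h1, orthonormal_iff_ite.1 he n m]
    split_ifs with h
    · rw [h, one_smul]
    · rw [zero_smul]
  have hPn : ∀ n, ‖P n‖ ≤ 1 := by
    intro n
    show ‖(innerSL ℂ (e n)).smulRight (e n)‖ ≤ 1
    rw [ContinuousLinearMap.norm_smulRight_apply, innerSL_apply_norm, he.1 n]
    norm_num
  have hPfr : ∀ n, FR (P n) := by
    intro n
    unfold FR
    have hle : LinearMap.range ((P n : H →L[ℂ] H) : H →ₗ[ℂ] H) ≤ Submodule.span ℂ {e n} := by
      rintro _ ⟨x, rfl⟩
      rw [Submodule.mem_span_singleton]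
      exact ⟨inner ℂ (e n) x, by simp [P]⟩
    exact Submodule.finiteDimensional_of_le hle
  let f : ℕ → (H →L[ℂ] H) := fun n => ((1 / 2 : ℂ) ^ n) • P n
  have hsum : Summable f := by
    refine Summable.of_norm_bounded (g := fun n => ((1 / 2 : ℝ)) ^ n)
      (summable_geometric_of_lt_one (by norm_num) (by norm_num)) ?_
    intro n
    show ‖((1 / 2 : ℂ) ^ n) • P n‖ ≤ (1 / 2 : ℝ) ^ n
    rw [norm_smul, norm_pow]
    have : ‖(1 / 2 : ℂ)‖ = 1 / 2 := by norm_num
    rw [this]
    exact mul_le_of_le_one_right (by positivity) (hPn n)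
  refine ⟨∑' n, f n, fun n => ∑ k ∈ Finset.range n, f k, ?_, ?_, hsum.hasSum.tendsto_sum_nat⟩
  · intro hfr
    unfold FR at hfr
    have happ : ∀ m, (∑' n, f n) (e m) = ((1 / 2 : ℂ) ^ m) • e m := by
      intro m
      have h1 : HasSum (fun n => f n (e m)) ((∑' n, f n) (e m)) :=
        hsum.hasSum.mapL (ContinuousLinearMap.apply ℂ H (e m))
      have h2 : HasSum (fun n => f n (e m)) (((1 / 2 : ℂ) ^ m) • e m) := by
        have : ∀ n, n ≠ m → f n (e m) = 0 := by
          intro n hn
          show ((1 / 2 : ℂ) ^ n) • P n (e m) = 0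
          rw [hPapp, if_neg hn, smul_zero]
        have h3 := hasSum_single m this
        have h4 : f m (e m) = ((1 / 2 : ℂ) ^ m) • e m := by
          show ((1 / 2 : ℂ) ^ m) • P m (e m) = _
          rw [hPapp, if_pos rfl]
        rwa [h4] at h3
      exact h1.unique h2
    have hmem : ∀ m, e m ∈ LinearMap.range ((∑' n, f n : H →L[ℂ] H) : H →ₗ[ℂ] H) := by
      intro m
      refine ⟨((2 : ℂ) ^ m) • e m, ?_⟩
      rw [map_smul]
      show ((2 : ℂ) ^ m) • (∑' n, f n) (e m) = e m
      rw [happ, smul_smul, ← mul_pow]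
      norm_num
    have hli : LinearIndependent ℂ
        (fun m => (⟨e m, hmem m⟩ : LinearMap.range ((∑' n, f n : H →L[ℂ] H) : H →ₗ[ℂ] H))) := by
      apply LinearIndependent.of_comp (Submodule.subtype _)
      exact he.linearIndependent
    have := hli.finite
    exact not_finite ℕ
  · intro n
    induction n with
    | zero => simpa using FR.zero
    | succ n ih =>
      show FR (∑ k ∈ Finset.range (n + 1), f k)
      rw [Finset.sum_range_succ]
      exact ih.add ((hPfr n).smul _)


end JA

end Pool.Agent.Helper280.GI
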