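import Mathlib
import Pool.Agent.Helper280.GI.Basic

set_option autoImplicit false

namespace Pool.Agent.Helper280.GI



section JA
variable {H : Type*} [NormedAddCommGroup H] [InnerProductSpace ℂ H] [CompleteSpace H]

/-- a countable family of isometries with pairwise orthogonal ranges -/
theorem exists_isometries (hinf : ¬ FiniteDimensional ℂ H) :
    ∃ V : ℕ → H →ₗᵢ[ℂ] H, ∀ i j, i ≠ j → ∀ x y, inner ℂ (V i x) (V j y) = 0 := by
  classical
  obtain ⟨w, b, hb⟩ := exists_hilbertBasis ℂ H
  have hwinf : Infinite w := by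
    by_contra hfin
    rw [not_infinite_iff_finite] at hfin
    have : Fintype w := Fintype.ofFinite w
    exact hinf (Module.Finite.of_basis b.toOrthonormalBasis.toBasis)
  obtain ⟨e⟩ : Nonempty ((ℕ × w) ≃ w) := by
    rw [← Cardinal.eq, Cardinal.mk_prod]
    simp
  have hv : ∀ i : ℕ, Orthonormal ℂ (fun n : w => b (e (i, n))) := fun i =>
    b.orthonormal.comp (fun n => e (i, n)) (fun n n' h => by
      have := e.injective h
      simpa using this)
  have hbo : ∀ p q : ℕ × w, p ≠ q → inner ℂ (b (e p)) (b (e q)) = 0 := fun p q h =>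
    b.orthonormal.2 (fun h' => h (e.injective h'))
  refine ⟨fun i => (hv i).orthogonalFamily.linearIsometry.comp b.repr.toLinearIsometry, ?_⟩
  intro i j hij x y
  have hx : HasSum (fun n : w => (b.repr x n : ℂ) • b (e (i, n)))
      ((hv i).orthogonalFamily.linearIsometry (b.repr x)) :=
    (hv i).orthogonalFamily.hasSum_linearIsometry (b.repr x)
  have hy : HasSum (fun n : w => (b.repr y n : ℂ) • b (e (j, n)))
      ((hv j).orthogonalFamily.linearIsometry (b.repr y)) :=
    (hv j).orthogonalFamily.hasSum_linearIsometry (b.repr y)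
  have h1 : ∀ n : w, inner ℂ (b (e (i, n)))
      ((hv j).orthogonalFamily.linearIsometry (b.repr y)) = 0 := by
    intro n
    have h2 := hy.mapL (innerSL ℂ (b (e (i, n))))
    have h3 : (fun m : w => innerSL ℂ (b (e (i, n))) ((b.repr y m : ℂ) • b (e (j, m)))) =
        fun _ => 0 := by
      funext m
      rw [innerSL_apply_apply, inner_smul_right, hbo _ _ (by
        intro h; exact hij (congrArg Prod.fst h)), mul_zero]
    rw [h3] at h2
    exact h2.unique hasSum_zero
  show inner ℂ ((hv i).orthogonalFamily.linearIsometry (b.repr x))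
    ((hv j).orthogonalFamily.linearIsometry (b.repr y)) = 0
  rw [← inner_conj_symm]
  have h4 := hx.mapL (innerSL ℂ ((hv j).orthogonalFamily.linearIsometry (b.repr y)))
  have h5 : (fun m : w => innerSL ℂ ((hv j).orthogonalFamily.linearIsometry (b.repr y))
      ((b.repr x m : ℂ) • b (e (i, m)))) = fun _ => 0 := by
    funext m
    rw [innerSL_apply_apply, inner_smul_right, ← inner_conj_symm, h1 m, map_zero, mul_zero]
  rw [h5] at h4
  have h6 := h4.unique hasSum_zero
  rw [innerSL_apply_apply] at h6
  rw [h6, map_zero]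

/-- every finite-codimensional subspace of `B(H)` contains a left invertible operator -/
theorem exists_left_inv_mem [TopologicalSpace.SeparableSpace H] (hinf : ¬ FiniteDimensional ℂ H)
    (J : Submodule ℂ (H →L[ℂ] H)) [FiniteDimensional ℂ ((H →L[ℂ] H) ⧸ J)] :
    ∃ S ∈ J, ∃ S' : H →L[ℂ] H, S' * S = 1 := by
  classical
  obtain ⟨V, hV⟩ := exists_isometries hinf
  obtain ⟨m, hm⟩ : ∃ m, m = Module.finrank ℂ ((H →L[ℂ] H) ⧸ J) := ⟨_, rfl⟩
  have hdep : ¬ LinearIndependent ℂ (fun i : Fin (m + 1) =>
      (Submodule.Quotient.mk ((V i).toContinuousLinearMap) : (H →L[ℂ] H) ⧸ J)) := by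
    intro h
    have := h.fintype_card_le_finrank
    rw [Fintype.card_fin, ← hm] at this
    omega
  rw [Fintype.not_linearIndependent_iff] at hdep
  obtain ⟨g, hg, i0, hi0⟩ := hdep
  refine ⟨∑ i : Fin (m + 1), g i • (V i).toContinuousLinearMap, ?_,
    (g i0)⁻¹ • ContinuousLinearMap.adjoint ((V i0).toContinuousLinearMap), ?_⟩
  · rw [← Submodule.Quotient.mk_eq_zero, ← hg]
    simp only [← Submodule.mkQ_apply, map_sum, map_smul]
  · have key : ∀ i : Fin (m + 1), ContinuousLinearMap.adjoint ((V i0).toContinuousLinearMap) *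
        (V i).toContinuousLinearMap = if i = i0 then 1 else 0 := by
      intro i
      split_ifs with h
      · subst h
        exact (ContinuousLinearMap.norm_map_iff_adjoint_comp_self _).1 (V i).norm_map
      · ext x
        refine ext_inner_left ℂ fun y => ?_
        show inner ℂ y (ContinuousLinearMap.adjoint ((V i0).toContinuousLinearMap)
          ((V i).toContinuousLinearMap x)) = inner ℂ y (0 : H)
        rw [ContinuousLinearMap.adjoint_inner_right, inner_zero_right]
        exact hV i0 i (fun h' => h (Fin.ext h'.symm)) y x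
    rw [smul_mul_assoc, Finset.mul_sum]
    have h2 : ∀ i ∈ Finset.univ, ContinuousLinearMap.adjoint ((V i0).toContinuousLinearMap) *
        (g i • (V i).toContinuousLinearMap) = if i = i0 then g i0 • (1 : H →L[ℂ] H) else 0 := by
      intro i _
      rw [mul_smul_comm, key]
      split_ifs with h
      · rw [h]
      · rw [smul_zero]
    rw [Finset.sum_congr rfl h2]
    simp [smul_smul, inv_mul_cancel₀ hi0]


end JA

end Pool.Agent.Helper280.GI
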