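import Mathlib
import Pool.Agent.Helper280.GI.Basic

set_option autoImplicit false

namespace Pool.Agent.Helper280.GI



section JA
variable {H : Type*} [NormedAddCommGroup H] [InnerProductSpace ℂ H] [CompleteSpace H]

theorem flanders {X V W : Type*} [AddCommGroup X] [Module ℂ X] [AddCommGroup V] [Module ℂ V]
    [AddCommGroup W] [Module ℂ W] (d : X →ₗ[ℂ] (V →ₗ[ℂ] W)) (C : ℕ) (h : ∀ x, RKL C (d x)) :
    ∃ x₁, ∀ x v, d x₁ v = 0 → d x v ∈ LinearMap.range (d x₁) := by
  have hfin : ∀ x, FiniteDimensional ℂ (LinearMap.range (d x)) := fun x => (rkl_iff_finrank.1 (h x)).1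
  have hle : ∀ x, Module.finrank ℂ (LinearMap.range (d x)) ≤ C := fun x =>
    (rkl_iff_finrank.1 (h x)).2
  obtain ⟨x₁, hx₁⟩ : ∃ x₁, ∀ x, Module.finrank ℂ (LinearMap.range (d x)) ≤
      Module.finrank ℂ (LinearMap.range (d x₁)) := by
    have hbdd : BddAbove (Set.range fun x => Module.finrank ℂ (LinearMap.range (d x))) := by
      refine ⟨C, ?_⟩
      rintro _ ⟨x, rfl⟩
      exact hle x
    obtain ⟨x₁, hx₁⟩ := Nat.sSup_mem (Set.range_nonempty fun x =>
      Module.finrank ℂ (LinearMap.range (d x))) hbdd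
    refine ⟨x₁, fun x => ?_⟩
    have h1 : Module.finrank ℂ (LinearMap.range (d x)) ≤ sSup (Set.range fun x =>
      Module.finrank ℂ (LinearMap.range (d x))) := le_csSup hbdd ⟨x, rfl⟩
    have h2 : Module.finrank ℂ (LinearMap.range (d x₁)) = sSup (Set.range fun x =>
      Module.finrank ℂ (LinearMap.range (d x))) := hx₁
    rw [h2]
    exact h1
  refine ⟨x₁, fun x v hv => ?_⟩
  by_contra hw
  set w := d x v with hwdef
  have := hfin x₁
  -- section
  obtain ⟨σ, hσ⟩ := LinearMap.exists_rightInverse_of_surjective (d x₁).rangeRestrict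
    (LinearMap.range_eq_top.2 (d x₁).surjective_rangeRestrict)
  have hσ' : ∀ y : LinearMap.range (d x₁), d x₁ (σ y) = (y : W) := fun y => by
    have := LinearMap.congr_fun hσ y
    exact congrArg Subtype.val this
  -- the embedding
  let ι : (LinearMap.range (d x₁) × ℂ) →ₗ[ℂ] W :=
    ((LinearMap.range (d x₁)).subtype ∘ₗ LinearMap.fst ℂ _ _) +
      (LinearMap.snd ℂ (LinearMap.range (d x₁)) ℂ).smulRight w
  have hι : ∀ y t, ι (y, t) = (y : W) + t • w := fun y t => rfl
  have hιinj : LinearMap.ker ι = ⊥ := by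
    rw [LinearMap.ker_eq_bot']
    rintro ⟨y, t⟩ hyt
    rw [hι] at hyt
    have ht : t = 0 := by
      by_contra ht
      apply hw
      have h1 : w = (-t⁻¹) • (y : W) := by
        have h2 : t • w = -(y : W) := by
          rw [eq_neg_iff_add_eq_zero, add_comm]; exact hyt
        rw [neg_smul, ← smul_neg, ← h2, smul_smul, inv_mul_cancel₀ ht, one_smul]
      rw [h1]
      exact (LinearMap.range (d x₁)).smul_mem _ y.2
    rw [ht, zero_smul, add_zero] at hyt
    have hy : y = 0 := Subtype.ext hyt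
    rw [ht, hy]
    rfl
  obtain ⟨Ψ, hΨ⟩ := LinearMap.exists_leftInverse_of_injective ι hιinj
  have hΨ' : ∀ (y : LinearMap.range (d x₁)) (t : ℂ), Ψ ((y : W) + t • w) = (y, t) := fun y t => by
    have := LinearMap.congr_fun hΨ (y, t)
    rw [← hι]
    exact this
  -- the operator
  let Cc : Module.End ℂ (LinearMap.range (d x₁) × ℂ) :=
    Ψ ∘ₗ (d x) ∘ₗ σ ∘ₗ LinearMap.fst ℂ (LinearMap.range (d x₁)) ℂ
  have hCc : ∀ y t, Cc (y, t) = Ψ (d x (σ y)) := fun y t => rfl
  obtain ⟨μ, hμ⟩ : ∃ μ : ℂ, μ ∉ ({μ : ℂ | Cc.HasEigenvalue μ} ∪ {0}) := by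
    have hf : ({μ : ℂ | Cc.HasEigenvalue μ} ∪ {0}).Finite :=
      (Module.End.finite_hasEigenvalue Cc).union (Set.finite_singleton 0)
    exact hf.exists_notMem
  have hμ0 : μ ≠ 0 := fun h0 => hμ (Or.inr h0)
  have hμe : ¬ Cc.HasEigenvalue μ := fun h0 => hμ (Or.inl h0)
  -- injectivity
  let x₂ := x₁ + (-μ⁻¹) • x
  have hx₂ : ∀ u, d x₂ u = d x₁ u + (-μ⁻¹) • d x u := fun u => by
    show d (x₁ + (-μ⁻¹) • x) u = _
    rw [map_add, map_smul]
    rfl
  have hwr : w ∈ LinearMap.range (d x₂) := by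
    refine ⟨(-μ) • v, ?_⟩
    rw [map_smul, hx₂, hv, zero_add, smul_smul, ← hwdef]
    have : (-μ) * (-μ⁻¹) = 1 := by field_simp
    rw [this, one_smul]
  let J : (LinearMap.range (d x₁) × ℂ) →ₗ[ℂ] W :=
    ((d x₂) ∘ₗ σ ∘ₗ LinearMap.fst ℂ _ _) +
      (LinearMap.snd ℂ (LinearMap.range (d x₁)) ℂ).smulRight w
  have hJ : ∀ y t, J (y, t) = d x₂ (σ y) + t • w := fun y t => rfl
  have hJr : ∀ z, J z ∈ LinearMap.range (d x₂) := by
    rintro ⟨y, t⟩
    rw [hJ]
    exact Submodule.add_mem _ (LinearMap.mem_range_self _ _) (Submodule.smul_mem _ _ hwr)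
  have hJinj : Function.Injective J := by
    rw [← LinearMap.ker_eq_bot, LinearMap.ker_eq_bot']
    rintro ⟨y, t⟩ hyt
    rw [hJ, hx₂, hσ'] at hyt
    have h1 : Ψ (((y : W) + t • w) + (-μ⁻¹) • d x (σ y)) = 0 := by
      have : ((y : W) + t • w) + (-μ⁻¹) • d x (σ y) = (y : W) + (-μ⁻¹) • d x (σ y) + t • w := by
        abel
      rw [this, hyt, map_zero]
    rw [map_add, map_smul, hΨ', ← hCc y t] at h1
    have h2 : Cc (y, t) = μ • (y, t) := by
      have h3 : (μ⁻¹) • Cc (y, t) = (y, t) := by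
        rw [neg_smul, ← sub_eq_add_neg, sub_eq_zero] at h1
        exact h1.symm
      calc Cc (y, t) = μ • (μ⁻¹ • Cc (y, t)) := by rw [smul_smul, mul_inv_cancel₀ hμ0, one_smul]
        _ = μ • (y, t) := by rw [h3]
    by_contra hne
    exact hμe (Module.End.hasEigenvalue_of_hasEigenvector
      ⟨Module.End.mem_eigenspace_iff.2 h2, hne⟩)
  let J' : (LinearMap.range (d x₁) × ℂ) →ₗ[ℂ] LinearMap.range (d x₂) := J.codRestrict _ hJr
  have hJ' : Function.Injective J' := by
    intro a b hab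
    apply hJinj
    exact congrArg Subtype.val hab
  have := hfin x₂
  have h5 := LinearMap.finrank_le_finrank_of_injective hJ'
  rw [Module.finrank_prod, Module.finrank_self] at h5
  have h6 := hx₁ x₂
  omega


end JA

end Pool.Agent.Helper280.GI
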