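import Mathlib
import Pool.Agent.Helper280.GI.Basic

set_option autoImplicit false

namespace Pool.Agent.Helper280.GI



section JA
variable {H : Type*} [NormedAddCommGroup H] [InnerProductSpace ℂ H] [CompleteSpace H]

theorem hb_ext833 {ι : Type*} (b : HilbertBasis ι ℂ H) {x y : H}
    (h : ∀ k, inner ℂ (b k) x = inner ℂ (b k) y) : x = y := by
  apply b.repr.injective
  apply lp.ext
  funext k
  rw [b.repr_apply_apply, b.repr_apply_apply, h]

theorem clm_ext833 {ι : Type*} (b : HilbertBasis ι ℂ H) {S T : H →L[ℂ] H}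
    (h : ∀ k, S (b k) = T (b k)) : S = T := by
  apply ContinuousLinearMap.ext_on (Submodule.dense_iff_topologicalClosure_eq_top.mpr b.dense_span)
  rintro _ ⟨k, rfl⟩
  exact h k

theorem exists_iso833 {ι : Type*} (b : HilbertBasis ι ℂ H) (s : ι → ι) (hs : Function.Injective s) :
    ∃ v : H →L[ℂ] H, ∀ k, v (b k) = b (s k) := by
  classical
  have ho : Orthonormal ℂ (fun k => b (s k)) := b.orthonormal.comp s hs
  refine ⟨(ho.orthogonalFamily.linearIsometry.comp b.repr.toLinearIsometry).toContinuousLinearMap, ?_⟩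
  intro k
  show ho.orthogonalFamily.linearIsometry (b.repr (b k)) = b (s k)
  rw [b.repr_self, OrthogonalFamily.linearIsometry_apply_single]
  simp

theorem leavitt [TopologicalSpace.SeparableSpace H] (hinf : ¬ FiniteDimensional ℂ H) :
    ∃ (v v' : Fin 2 → (H →L[ℂ] H)), (∀ i j, v' i * v j = if i = j then 1 else 0) ∧
      v 0 * v' 0 + v 1 * v' 1 = 1 := by
  classical
  obtain ⟨w, b, -⟩ := exists_hilbertBasis ℂ H
  have hI : Infinite w := by
    by_contra hfin
    rw [not_infinite_iff_finite] at hfin
    apply hinf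
    have h0 : FiniteDimensional ℂ (Submodule.span ℂ (Set.range b)) :=
      FiniteDimensional.span_of_finite ℂ (Set.finite_range b)
    have h1 : Submodule.span ℂ (Set.range b) = ⊤ := by
      rw [← (Submodule.closed_of_finiteDimensional
        (Submodule.span ℂ (Set.range b))).submodule_topologicalClosure_eq]
      exact b.dense_span
    rw [h1] at h0
    exact Module.Finite.equiv (Submodule.topEquiv (R := ℂ) (M := H))
  have hc : Nonempty (w ⊕ w ≃ w) := by
    rw [← Cardinal.eq, Cardinal.mk_sum, Cardinal.lift_id]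
    exact Cardinal.add_eq_self (Cardinal.aleph0_le_mk w)
  obtain ⟨e⟩ := hc
  obtain ⟨v0, hv0⟩ := exists_iso833 b (fun k => e (Sum.inl k)) (e.injective.comp Sum.inl_injective)
  obtain ⟨v1, hv1⟩ := exists_iso833 b (fun k => e (Sum.inr k)) (e.injective.comp Sum.inr_injective)
  have horth := orthonormal_iff_ite.mp b.orthonormal
  have a00 : ∀ k, v0.adjoint (b (e (Sum.inl k))) = b k := by
    intro k
    apply hb_ext833 b
    intro m
    rw [ContinuousLinearMap.adjoint_inner_right, hv0, horth, horth]
    simp
  have a01 : ∀ k, v0.adjoint (b (e (Sum.inr k))) = 0 := by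
    intro k
    apply hb_ext833 b
    intro m
    rw [ContinuousLinearMap.adjoint_inner_right, hv0, horth]
    simp
  have a10 : ∀ k, v1.adjoint (b (e (Sum.inl k))) = 0 := by
    intro k
    apply hb_ext833 b
    intro m
    rw [ContinuousLinearMap.adjoint_inner_right, hv1, horth]
    simp
  have a11 : ∀ k, v1.adjoint (b (e (Sum.inr k))) = b k := by
    intro k
    apply hb_ext833 b
    intro m
    rw [ContinuousLinearMap.adjoint_inner_right, hv1, horth, horth]
    simp
  refine ⟨![v0, v1], ![v0.adjoint, v1.adjoint], ?_, ?_⟩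
  · intro i j
    apply clm_ext833 b
    intro k
    fin_cases i <;> fin_cases j
    · show v0.adjoint (v0 (b k)) = _
      rw [hv0, a00]; simp
    · show v0.adjoint (v1 (b k)) = _
      rw [hv1, a01]; simp
    · show v1.adjoint (v0 (b k)) = _
      rw [hv0, a10]; simp
    · show v1.adjoint (v1 (b k)) = _
      rw [hv1, a11]; simp
  · apply clm_ext833 b
    intro k
    show v0 (v0.adjoint (b k)) + v1 (v1.adjoint (b k)) = b k
    obtain ⟨m, rfl⟩ := e.surjective k
    rcases m with m | m
    · rw [a00, a10, hv0, map_zero, add_zero]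
    · rw [a01, a11, hv1, map_zero, zero_add]


end JA

end Pool.Agent.Helper280.GI
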