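import Mathlib
import Pool.Agent.Helper280.GI.Basic

set_option autoImplicit false

namespace Pool.Agent.Helper280.GI



section JA
variable {H : Type*} [NormedAddCommGroup H] [InnerProductSpace ℂ H] [CompleteSpace H]

theorem no_fin_modules {M : Type*} [AddCommGroup M] [Module ℂ M]
    (r : (H →L[ℂ] H) → (M →ₗ[ℂ] M)) (hr1 : r 1 = LinearMap.id)
    (hrm : ∀ x y, r (x * y) = r x ∘ₗ r y) (hr0 : r 0 = 0)
    (hra : ∀ x y, r (x + y) = r x + r y)
    (v v' : Fin 2 → (H →L[ℂ] H)) (hv : ∀ i j, v' i * v j = if i = j then 1 else 0)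
    (hv1 : v 0 * v' 0 + v 1 * v' 1 = 1)
    (X Y D : Submodule ℂ M) (hX : ∀ x, ∀ m ∈ X, r x m ∈ X) (hY : ∀ x, ∀ m ∈ Y, r x m ∈ Y)
    [FiniteDimensional ℂ D] (hXY : X ≤ Y ⊔ D) : X ≤ Y := by
  classical
  set W : Submodule ℂ (M ⧸ Y) := X.map Y.mkQ with hW
  have hWD : W ≤ D.map Y.mkQ := by
    rintro _ ⟨m, hm, rfl⟩
    obtain ⟨y, hy, d, hd, rfl⟩ := Submodule.mem_sup.1 (hXY hm)
    refine ⟨d, hd, ?_⟩
    have h0 : Y.mkQ y = 0 := (Submodule.Quotient.mk_eq_zero Y).2 hy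
    rw [map_add, h0, zero_add]
  have hfdD : FiniteDimensional ℂ (D.map Y.mkQ) := inferInstance
  have hfdW : FiniteDimensional ℂ W := Submodule.finiteDimensional_of_le hWD
  let g : (H →L[ℂ] H) → (M ⧸ Y) →ₗ[ℂ] (M ⧸ Y) :=
    fun x => Y.mapQ Y (r x) (fun m hm => hY x m hm)
  have hg : ∀ x m, g x (Y.mkQ m) = Y.mkQ (r x m) := fun x m => rfl
  have hgW : ∀ x, ∀ w ∈ W, g x w ∈ W := by
    rintro x _ ⟨m, hm, rfl⟩
    exact ⟨r x m, hX x m hm, (hg x m).symm⟩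
  let f : (H →L[ℂ] H) → W →ₗ[ℂ] W := fun x => (g x).restrict (hgW x)
  have hf : ∀ x w, ((f x w : W) : M ⧸ Y) = g x (w : M ⧸ Y) := fun x w => rfl
  have hfmul : ∀ x y, f (x * y) = f x * f y := by
    intro x y
    refine LinearMap.ext fun w => Subtype.ext ?_
    obtain ⟨w, m, hm, rfl⟩ := w
    show g (x * y) (Y.mkQ m) = g x (g y (Y.mkQ m))
    rw [hg, hg, hg, hrm]
    rfl
  have hf1 : f 1 = 1 := by
    refine LinearMap.ext fun w => Subtype.ext ?_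
    obtain ⟨w, m, hm, rfl⟩ := w
    show g 1 (Y.mkQ m) = Y.mkQ m
    rw [hg, hr1]
    rfl
  have hf0 : f 0 = 0 := by
    refine LinearMap.ext fun w => Subtype.ext ?_
    obtain ⟨w, m, hm, rfl⟩ := w
    show g 0 (Y.mkQ m) = 0
    rw [hg, hr0]
    simp
  have h00 : f (v' 0) * f (v 0) = 1 := by rw [← hfmul, hv, if_pos rfl, hf1]
  have h01 : f (v' 0) * f (v 1) = 0 := by rw [← hfmul, hv, if_neg (by decide), hf0]
  have h11 : f (v' 1) * f (v 1) = 1 := by rw [← hfmul, hv, if_pos rfl, hf1]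
  have h00' : f (v 0) * f (v' 0) = 1 := mul_eq_one_comm.1 h00
  have hv1' : f (v 1) = 0 := by
    calc f (v 1) = (f (v 0) * f (v' 0)) * f (v 1) := by rw [h00', one_mul]
      _ = f (v 0) * (f (v' 0) * f (v 1)) := mul_assoc _ _ _
      _ = 0 := by rw [h01, mul_zero]
  rw [hv1', mul_zero] at h11
  intro m hm
  have hmW : Y.mkQ m ∈ W := ⟨m, hm, rfl⟩
  have h2 : (⟨Y.mkQ m, hmW⟩ : W) = 0 := by
    have := LinearMap.congr_fun h11 (⟨Y.mkQ m, hmW⟩ : W)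
    simpa using this.symm
  have h3 : Y.mkQ m = 0 := congrArg Subtype.val h2
  exact (Submodule.Quotient.mk_eq_zero Y).1 h3


end JA

end Pool.Agent.Helper280.GI
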