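import Mathlib
import Pool.Agent.Helper280.GI.Basic

set_option autoImplicit false

namespace Pool.Agent.Helper280.GI



section JA
variable {H : Type*} [NormedAddCommGroup H] [InnerProductSpace ℂ H] [CompleteSpace H]

/-- The set of operators of rank at most `n` is closed under weak operator limits. -/
theorem RK.of_tendsto {ι : Type*} {l : Filter ι} [l.NeBot] {n : ℕ} {T : ι → H →L[ℂ] H}
    {S : H →L[ℂ] H} (hT : ∀ᶠ i in l, RK n (T i))
    (h : ∀ x y : H, Filter.Tendsto (fun i => inner ℂ y (T i x)) l (nhds (inner ℂ y (S x)))) :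
    RK n S := by
  classical
  by_contra hS
  have h1 : ((n + 1 : ℕ) : Cardinal) ≤ Module.rank ℂ (LinearMap.range (S : H →ₗ[ℂ] H)) := by
    have h2 : (n : Cardinal) < Module.rank ℂ (LinearMap.range (S : H →ₗ[ℂ] H)) := not_le.1 hS
    have h3 := Order.succ_le_of_lt h2
    rw [Cardinal.succ_natCast] at h3
    exact_mod_cast h3
  obtain ⟨f, hf⟩ := exists_linearIndependent_of_le_rank h1
  have hex : ∀ i, ∃ v : H, S v = (f i : H) := fun i => (f i).2
  choose v hv using hex
  have hli : LinearIndependent ℂ (fun i => S (v i)) := by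
    have h4 : LinearIndependent ℂ (fun i => ((f i : LinearMap.range (S : H →ₗ[ℂ] H)) : H)) :=
      hf.map' (Submodule.subtype _) (Submodule.ker_subtype _)
    have h5 : (fun i => S (v i)) = (fun i => ((f i : LinearMap.range (S : H →ₗ[ℂ] H)) : H)) := by
      funext i
      exact hv i
    rw [h5]
    exact h4
  have hdet : (Matrix.of fun i j => inner ℂ (S (v i)) (S (v j))).det ≠ 0 := by
    exact Matrix.det_gram_ne_zero_iff_linearIndependent.2 hli
  have htend : Filter.Tendsto (fun k => (Matrix.of fun i j => inner ℂ (S (v i)) (T k (v j))).det) l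
      (nhds (Matrix.of fun i j => inner ℂ (S (v i)) (S (v j))).det) := by
    have hc : Continuous (fun M : Matrix (Fin (n+1)) (Fin (n+1)) ℂ => M.det) :=
      Continuous.matrix_det continuous_id
    refine (hc.tendsto _).comp ?_
    refine tendsto_pi_nhds.2 fun i => ?_
    refine tendsto_pi_nhds.2 fun j => ?_
    exact h (v j) (S (v i))
  have hev := htend.eventually_ne hdet
  obtain ⟨k, hk1, hk2⟩ := (hev.and hT).exists
  apply hk1
  have hdep : ¬ LinearIndependent ℂ (fun j => T k (v j)) := by
    intro hli2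
    have h7 : LinearIndependent ℂ (fun j => (⟨T k (v j), ⟨v j, rfl⟩⟩ :
        LinearMap.range (T k : H →ₗ[ℂ] H))) := by
      apply LinearIndependent.of_comp (Submodule.subtype _)
      exact hli2
    have h8 : ((n + 1 : ℕ) : Cardinal) ≤ Module.rank ℂ (LinearMap.range (T k : H →ₗ[ℂ] H)) := by
      simpa using h7.cardinal_lift_le_rank
    have h9 : ((n + 1 : ℕ) : Cardinal) ≤ (n : Cardinal) := h8.trans hk2
    have h10 : n + 1 ≤ n := by exact_mod_cast h9
    omega
  rw [Fintype.linearIndependent_iff] at hdep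
  push Not at hdep
  obtain ⟨c, hc0, i0, hi0⟩ := hdep
  apply Matrix.exists_mulVec_eq_zero_iff.1
  refine ⟨c, fun h0 => hi0 (by rw [h0]; rfl), ?_⟩
  funext i
  simp only [Matrix.mulVec, dotProduct, Matrix.of_apply, Pi.zero_apply]
  have h11 : inner ℂ (S (v i)) (∑ j, c j • T k (v j)) = 0 := by rw [hc0, inner_zero_right]
  rw [inner_sum] at h11
  rw [← h11]
  refine Finset.sum_congr rfl fun j _ => ?_
  rw [inner_smul_right, mul_comm]

theorem isClosed_RK (n : ℕ) : IsClosed {T : H →L[ℂ] H | RK n T} := by
  apply isClosed_of_closure_subset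
  intro S hS
  rw [mem_closure_iff_seq_limit] at hS
  obtain ⟨T, hT, hlim⟩ := hS
  refine RK.of_tendsto (l := Filter.atTop) (T := T) (Filter.Eventually.of_forall hT) ?_
  intro x y
  have h1 : Filter.Tendsto (fun i => T i x) Filter.atTop (nhds (S x)) :=
    ((ContinuousLinearMap.apply ℂ H x).continuous.tendsto S).comp hlim
  exact Filter.Tendsto.inner tendsto_const_nhds h1


end JA

end Pool.Agent.Helper280.GI
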