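import Mathlib
import Pool.Agent.Helper280.GI.Basic
import Pool.Agent.Helper280.GI.JLeavitt
import Pool.Agent.Helper280.GI.JFlanders
import Pool.Agent.Helper280.GI.JNofin
import Pool.Agent.Helper280.GI.JFincodim
import Pool.Agent.Helper280.GI.JCompactnotfr
import Pool.Agent.Helper280.GI.JRkclosed

set_option autoImplicit false

namespace Pool.Agent.Helper280.GI

section LinAlg

variable {V W X : Type*} [AddCommGroup V] [Module ℂ V] [AddCommGroup W] [Module ℂ W]
  [AddCommGroup X] [Module ℂ X]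

lemma rkl_of_ker {n : ℕ} {f : V →ₗ[ℂ] W} {g : V →ₗ[ℂ] X} (hf : RKL n f)
    (h : ∀ v, f v = 0 → g v = 0) : RKL n g := by
  obtain ⟨h1, h2⟩ := rkl_iff_finrank.1 hf
  have hk : LinearMap.ker f ≤ LinearMap.ker g := fun v hv => h v hv
  let φ : (V ⧸ LinearMap.ker f) →ₗ[ℂ] X := (LinearMap.ker f).liftQ g hk
  let e := f.quotKerEquivRange
  have h3 : g = (φ ∘ₗ e.symm.toLinearMap) ∘ₗ f.rangeRestrict := by
    ext v
    have : e.symm (f.rangeRestrict v) = Submodule.Quotient.mk v := by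
      rw [LinearEquiv.symm_apply_eq]
      rfl
    simp only [LinearMap.comp_apply, LinearEquiv.coe_coe, this]
    exact ((LinearMap.ker f).liftQ_apply g v).symm
  rw [h3]
  have h4 : RKL n (φ ∘ₗ e.symm.toLinearMap) := by
    unfold RKL LinearMap.rank
    have h5 : Module.rank ℂ (LinearMap.range (φ ∘ₗ e.symm.toLinearMap)) ≤
        (Module.finrank ℂ (LinearMap.range f) : Cardinal) := by
      have h6 : Module.Finite ℂ (LinearMap.range (φ ∘ₗ e.symm.toLinearMap)) :=
        Module.Finite.range _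
      rw [← Module.finrank_eq_rank]
      exact_mod_cast LinearMap.finrank_range_le _
    exact h5.trans (by exact_mod_cast h2)
  exact h4.comp_right _

lemma cofin_ker {n : ℕ} {f : V →ₗ[ℂ] W} (hf : RKL n f) :
    ∃ D : Submodule ℂ V, FiniteDimensional ℂ D ∧ LinearMap.ker f ⊔ D = ⊤ := by
  obtain ⟨h1, _⟩ := rkl_iff_finrank.1 hf
  obtain ⟨D, hD⟩ := Submodule.exists_isCompl (LinearMap.ker f)
  refine ⟨D, ?_, hD.sup_eq_top⟩
  refine Module.Finite.of_injective (f.rangeRestrict ∘ₗ D.subtype) ?_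
  rw [← LinearMap.ker_eq_bot, LinearMap.ker_eq_bot']
  intro x hx
  have h2 : f (x : V) = 0 := by
    have := congrArg Subtype.val hx
    simpa using this
  have h3 : (x : V) ∈ LinearMap.ker f ⊓ D := ⟨h2, x.2⟩
  rw [hD.inf_eq_bot] at h3
  exact Subtype.ext (by simpa using h3)

lemma rkl_of_mod {m : ℕ} (f : V →ₗ[ℂ] W) (H0 : Submodule ℂ W) [FiniteDimensional ℂ H0]
    (h : RKL m (H0.mkQ ∘ₗ f)) : RKL (m + Module.finrank ℂ H0) f := by
  obtain ⟨h1, h2⟩ := rkl_iff_finrank.1 h
  obtain ⟨D, hD1, hD2⟩ := cofin_ker h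
  -- range f ≤ map f D ⊔ H0
  have h3 : LinearMap.range f ≤ D.map f ⊔ H0 := by
    rintro _ ⟨v, rfl⟩
    have hv : v ∈ LinearMap.ker (H0.mkQ ∘ₗ f) ⊔ D := by rw [hD2]; trivial
    obtain ⟨y, hy, z, hz, rfl⟩ := Submodule.mem_sup.1 hv
    rw [map_add]
    have hy' : f y ∈ H0 := by
      have : H0.mkQ (f y) = 0 := hy
      rwa [Submodule.mkQ_apply, Submodule.Quotient.mk_eq_zero] at this
    exact Submodule.add_mem _ (Submodule.mem_sup_right hy')
      (Submodule.mem_sup_left (Submodule.mem_map_of_mem hz))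
  have h4 : FiniteDimensional ℂ (LinearMap.range f) :=
    Submodule.finiteDimensional_of_le h3
  refine rkl_iff_finrank.2 ⟨h4, ?_⟩
  -- rank nullity for mkQ on range f
  let g : LinearMap.range f →ₗ[ℂ] (W ⧸ H0) := H0.mkQ ∘ₗ (LinearMap.range f).subtype
  have h5 := LinearMap.finrank_range_add_finrank_ker g
  have h6 : Module.finrank ℂ (LinearMap.range g) ≤ m := by
    have e1 : LinearMap.range g = LinearMap.range (H0.mkQ ∘ₗ f) := by
      ext y
      constructor
      · rintro ⟨⟨_, ⟨v, rfl⟩⟩, rfl⟩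
        exact ⟨v, rfl⟩
      · rintro ⟨v, rfl⟩
        exact ⟨⟨f v, v, rfl⟩, rfl⟩
    rw [e1]; exact h2
  have h7 : Module.finrank ℂ (LinearMap.ker g) ≤ Module.finrank ℂ H0 := by
    let i : LinearMap.ker g →ₗ[ℂ] H0 :=
      LinearMap.codRestrict H0 ((LinearMap.range f).subtype ∘ₗ (LinearMap.ker g).subtype)
        (by
          rintro ⟨y, hy⟩
          have : H0.mkQ (y : W) = 0 := hy
          rwa [Submodule.mkQ_apply, Submodule.Quotient.mk_eq_zero] at this)
    refine LinearMap.finrank_le_finrank_of_injective (f := i) ?_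
    intro x y hxy
    have := congrArg Subtype.val hxy
    exact Subtype.ext (Subtype.ext (by simpa [i] using this))
  omega

end LinAlg

section

variable {H : Type*} [NormedAddCommGroup H] [InnerProductSpace ℂ H] [CompleteSpace H]

/-- the space of all linear maps from `B(H)` to `H` -/
abbrev MM (H : Type*) [NormedAddCommGroup H] [InnerProductSpace ℂ H] := (H →L[ℂ] H) →ₗ[ℂ] H

/-- rank one operator -/
noncomputable def r1 (ξ η : H) : H →L[ℂ] H := (innerSL ℂ η).smulRight ξ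

lemma r1_apply (ξ η v : H) : r1 ξ η v = (inner ℂ η v) • ξ := by
  simp [r1]

lemma mul_r1 (T : H →L[ℂ] H) (ξ η : H) : T * r1 ξ η = r1 (T ξ) η := by
  ext v
  simp [r1_apply]

lemma fr_eq_sum {f : H →L[ℂ] H} (hf : FR f) :
    ∃ (n : ℕ) (ξ η : Fin n → H), f = ∑ i, r1 (ξ i) (η i) := by
  have : FiniteDimensional ℂ (LinearMap.range (f : H →ₗ[ℂ] H)) := hf
  let R := LinearMap.range (f : H →ₗ[ℂ] H)
  let e := stdOrthonormalBasis ℂ R
  refine ⟨_, fun i => (e i : H), fun i => ContinuousLinearMap.adjoint f (e i : H), ?_⟩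
  ext v
  have hv : f v ∈ R := LinearMap.mem_range_self (f : H →ₗ[ℂ] H) v
  have h2 := e.sum_repr' (⟨f v, hv⟩ : R)
  have h3 := congrArg (Subtype.val) h2
  simp only [Submodule.coe_sum, Submodule.coe_smul, Submodule.coe_inner] at h3
  rw [← h3]
  simp only [ContinuousLinearMap.sum_apply, r1_apply]
  refine Finset.sum_congr rfl fun i _ => ?_
  rw [ContinuousLinearMap.adjoint_inner_left]

theorem exists_intertwiner [TopologicalSpace.SeparableSpace H]
    (hinf : ¬ FiniteDimensional ℂ H) (b : (H →L[ℂ] H) →L[ℂ] (H →L[ℂ] H))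
    (hb1 : FR (b 1 - 1)) (C : ℕ) (hC : ∀ x y, RK C (b x * b y - b (x * y)))
    (hfr : ∀ x, FR (b x) → FR x) :
    ∃ G : H →L[ℂ] H, ¬ FR G ∧ ∀ T, FR (b T * G - G * T) := by
  classical
  obtain ⟨v, v', hv, hv1⟩ := leavitt (H := H) hinf
  let N : Submodule ℂ (MM H) :=
    { carrier := {φ | ∃ n, RKL n φ}
      add_mem' := by
        rintro x y ⟨m, hm⟩ ⟨n, hn⟩
        exact ⟨_, hm.add hn⟩
      zero_mem' := ⟨0, RKL.zero 0⟩
      smul_mem' := by
        rintro c x ⟨n, hn⟩
        exact ⟨n, hn.smul c⟩ }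
  have hN : ∀ φ : (MM H), φ ∈ N ↔ ∃ n, RKL n φ := fun φ => Iff.rfl
  let r : (H →L[ℂ] H) → ((MM H) →ₗ[ℂ] (MM H)) := fun x =>
    { toFun := fun φ => φ ∘ₗ LinearMap.mulRight ℂ x
      map_add' := fun φ ψ => rfl
      map_smul' := fun c φ => rfl }
  have hr : ∀ x φ S, r x φ S = φ (S * x) := fun x φ S => rfl
  let j : H →ₗ[ℂ] MM H :=
    { toFun := fun k =>
        { toFun := fun S => b S k
          map_add' := fun S T => by rw [map_add]; rfl
          map_smul' := fun c S => by rw [map_smul]; rfl }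
      map_add' := fun k l => LinearMap.ext fun S => (b S).map_add k l
      map_smul' := fun c k => LinearMap.ext fun S => (b S).map_smul c k }
  have hj : ∀ k S, j k S = b S k := fun k S => rfl
  have hr1 : r 1 = LinearMap.id := by
    ext φ S; rw [hr, mul_one]; rfl
  have hrm : ∀ x y, r (x * y) = r x ∘ₗ r y := by
    intro x y; ext φ S; rw [LinearMap.comp_apply, hr, hr, hr, mul_assoc]
  have hr0 : r 0 = 0 := by
    ext φ S; rw [hr, mul_zero, map_zero]; rfl
  have hra : ∀ x y, r (x + y) = r x + r y := by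
    intro x y; ext φ S; rw [LinearMap.add_apply, LinearMap.add_apply, hr, hr, hr, mul_add, map_add]
  have hrs : ∀ (c : ℂ) x, r (c • x) = c • r x := by
    intro c x; ext φ S; rw [LinearMap.smul_apply, LinearMap.smul_apply, hr, hr, mul_smul_comm, map_smul]
  have hrN : ∀ x, ∀ φ ∈ N, r x φ ∈ N := by
    rintro x φ ⟨n, hn⟩
    exact ⟨n, hn.comp_right _⟩
  -- defects as linear families
  let Dr : (H →L[ℂ] H) → ((H →L[ℂ] H) →ₗ[ℂ] (H →ₗ[ℂ] H)) := fun x =>
    { toFun := fun S => ((b S * b x - b (S * x) : H →L[ℂ] H) : H →ₗ[ℂ] H)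
      map_add' := fun S T => by ext k; simp [add_mul]; abel
      map_smul' := fun c S => by ext k; simp [smul_sub] }
  let Dl : (H →L[ℂ] H) → ((H →L[ℂ] H) →ₗ[ℂ] (H →ₗ[ℂ] H)) := fun x =>
    { toFun := fun S => ((b x * b S - b (x * S) : H →L[ℂ] H) : H →ₗ[ℂ] H)
      map_add' := fun S T => by ext k; simp [mul_add]; abel
      map_smul' := fun c S => by ext k; simp [smul_sub] }
  have hDr : ∀ x, ∃ R, ∀ S k, Dr x R k = 0 → Dr x S k ∈ LinearMap.range (Dr x R) :=
    fun x => flanders (Dr x) C (fun S => hC S x)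
  have hDl : ∀ x, ∃ R, ∀ S k, Dl x R k = 0 → Dl x S k ∈ LinearMap.range (Dl x R) :=
    fun x => flanders (Dl x) C (fun S => hC x S)
  choose Rr hRr using hDr
  choose Rl hRl using hDl
  -- near linearity of j
  have hjr : ∀ x k, Dr x (Rr x) k = 0 → r x (j k) - j (b x k) ∈ N := by
    intro x k hk
    have hfd : FiniteDimensional ℂ (LinearMap.range (Dr x (Rr x))) :=
      (rkl_iff_finrank.1 (hC (Rr x) x)).1
    rw [hN]
    rw [rkl_iff_exists]
    refine Submodule.finiteDimensional_of_le (S₂ := LinearMap.range (Dr x (Rr x))) ?_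
    rintro _ ⟨S, rfl⟩
    have h1 := hRr x S k hk
    have h2 : (r x (j k) - j (b x k)) S = -(Dr x S k) := by
      rw [LinearMap.sub_apply, hr, hj, hj]
      simp [Dr]
    rw [h2]
    exact Submodule.neg_mem _ h1
  let Y0 : Submodule ℂ (MM H) := LinearMap.range j ⊔ N
  have hY0j : ∀ k, j k ∈ Y0 := fun k => Submodule.mem_sup_left ⟨k, rfl⟩
  have hY0N : ∀ φ ∈ N, φ ∈ Y0 := fun φ h => Submodule.mem_sup_right h
  let d : (H →L[ℂ] H) →ₗ[ℂ] (H →ₗ[ℂ] (MM H ⧸ Y0)) :=
    { toFun := fun x => Y0.mkQ ∘ₗ (r x) ∘ₗ j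
      map_add' := fun x y => by
        ext k
        simp only [LinearMap.comp_apply, LinearMap.add_apply, hra, map_add]
      map_smul' := fun c x => by
        ext k
        simp only [LinearMap.comp_apply, LinearMap.smul_apply, hrs, map_smul, RingHom.id_apply] }
  have hd : ∀ x k, d x k = Y0.mkQ (r x (j k)) := fun x k => rfl
  have hd0 : ∀ x k, d x k = 0 ↔ r x (j k) ∈ Y0 := by
    intro x k; rw [hd, Submodule.mkQ_apply, Submodule.Quotient.mk_eq_zero]
  have hdC : ∀ x, RKL C (d x) := by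
    intro x
    refine rkl_of_ker (f := Dr x (Rr x)) (hC (Rr x) x) (fun k hk => ?_)
    rw [hd0]
    have h1 := hY0N _ (hjr x k hk)
    have h2 := Y0.add_mem h1 (hY0j (b x k))
    simpa using h2
  obtain ⟨S1, hS1⟩ := flanders d C hdC
  let Gen : Set (MM H) := {φ | ∃ x k, d S1 k = 0 ∧ φ = r x (j k)}
  let Y1 : Submodule ℂ (MM H) := Submodule.span ℂ Gen ⊔ N
  have hGenY1 : ∀ x k, d S1 k = 0 → r x (j k) ∈ Y1 := fun x k hk =>
    Submodule.mem_sup_left (Submodule.subset_span ⟨x, k, hk, rfl⟩)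
  have hY1N : ∀ φ ∈ N, φ ∈ Y1 := fun φ h => Submodule.mem_sup_right h
  have hY1inv : ∀ x, ∀ φ ∈ Y1, r x φ ∈ Y1 := by
    intro x
    have h1 : Y1 ≤ Y1.comap (r x) := by
      refine sup_le (Submodule.span_le.2 ?_) ?_
      · rintro φ ⟨y, k, hk, rfl⟩
        change r x (r y (j k)) ∈ Y1
        have : r x (r y (j k)) = r (x * y) (j k) := by rw [hrm]; rfl
        rw [this]
        exact hGenY1 _ _ hk
      · intro φ hφ
        exact hY1N _ (hrN x φ hφ)
    exact fun φ hφ => h1 hφ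
  -- the submodules E_T
  let eT : (H →L[ℂ] H) → ((MM H) →ₗ[ℂ] (MM H)) := fun T =>
    { toFun := fun φ => φ ∘ₗ LinearMap.mulLeft ℂ T - (b T : H →ₗ[ℂ] H) ∘ₗ φ
      map_add' := fun φ ψ => LinearMap.ext fun S => by
        change (φ (T * S) + ψ (T * S)) - b T (φ S + ψ S) =
          (φ (T * S) - b T (φ S)) + (ψ (T * S) - b T (ψ S))
        rw [map_add]; abel
      map_smul' := fun c φ => LinearMap.ext fun S => by
        change (c • φ (T * S)) - b T (c • φ S) = c • (φ (T * S) - b T (φ S))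
        rw [map_smul, smul_sub] }
  have heT : ∀ T φ S, eT T φ S = φ (T * S) - b T (φ S) := fun T φ S => rfl
  have hcomm : ∀ T x φ, eT T (r x φ) = r x (eT T φ) := by
    intro T x φ; ext S
    rw [heT, hr, hr, hr, heT, mul_assoc]
  have hY1E : ∀ T, ∀ φ ∈ Y1, eT T φ ∈ N := by
    intro T
    let E : Submodule ℂ (MM H) := N.comap (eT T)
    have hEinv : ∀ x, ∀ φ ∈ E, r x φ ∈ E := by
      intro x φ hφ
      change eT T (r x φ) ∈ N
      rw [hcomm]
      exact hrN x _ hφ
    have hNE : ∀ φ ∈ N, φ ∈ E := by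
      rintro φ ⟨n, hn⟩
      change eT T φ ∈ N
      exact ⟨n + n, (hn.comp_right _).sub (hn.comp_left _)⟩
    -- j k in E for k in the kernel of Dl
    have hjE : ∀ k, Dl T (Rl T) k = 0 → j k ∈ E := by
      intro k hk
      have hfd : FiniteDimensional ℂ (LinearMap.range (Dl T (Rl T))) :=
        (rkl_iff_finrank.1 (hC T (Rl T))).1
      change eT T (j k) ∈ N
      rw [hN, rkl_iff_exists]
      refine Submodule.finiteDimensional_of_le (S₂ := LinearMap.range (Dl T (Rl T))) ?_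
      rintro _ ⟨S, rfl⟩
      have h1 := hRl T S k hk
      have h2 : (eT T (j k)) S = -(Dl T S k) := by
        rw [heT, hj, hj]
        simp [Dl]
      rw [h2]
      exact Submodule.neg_mem _ h1
    -- complements
    obtain ⟨D1', hD1fd, hD1⟩ := cofin_ker (hdC S1)
    have hpair : RKL (C + C) ((LinearMap.inl ℂ (MM H ⧸ Y0) H) ∘ₗ (d S1) +
        (LinearMap.inr ℂ (MM H ⧸ Y0) H) ∘ₗ (Dl T (Rl T))) :=
      ((hdC S1).comp_left _).add (RKL.comp_left (hC T (Rl T)) _)
    obtain ⟨D0, hD0fd, hD0⟩ := cofin_ker hpair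
    have hkerpair : ∀ k, ((LinearMap.inl ℂ (MM H ⧸ Y0) H) ∘ₗ (d S1) +
        (LinearMap.inr ℂ (MM H ⧸ Y0) H) ∘ₗ (Dl T (Rl T))) k = 0 →
          d S1 k = 0 ∧ Dl T (Rl T) k = 0 := by
      intro k hk
      have h1 : ((d S1 k, Dl T (Rl T) k) : (MM H ⧸ Y0) × H) = 0 := by
        rw [← hk]
        simp
      exact ⟨congrArg Prod.fst h1, congrArg Prod.snd h1⟩
    let D : Submodule ℂ (MM H) := (D1'.map ((r S1) ∘ₗ j)) ⊔ (D0.map j)
    have hDfd : FiniteDimensional ℂ D := by
      have := Module.Finite.map D1' ((r S1) ∘ₗ j)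
      have := Module.Finite.map D0 j
      exact Submodule.finite_sup _ _
    have hY0le : Y0 ≤ (Y1 ⊓ E) ⊔ D := by
      refine sup_le ?_ ?_
      · rintro _ ⟨k, rfl⟩
        have hk : k ∈ LinearMap.ker ((LinearMap.inl ℂ (MM H ⧸ Y0) H) ∘ₗ (d S1) +
          (LinearMap.inr ℂ (MM H ⧸ Y0) H) ∘ₗ (Dl T (Rl T))) ⊔ D0 := by rw [hD0]; trivial
        obtain ⟨y, hy, z, hz, rfl⟩ := Submodule.mem_sup.1 hk
        obtain ⟨hy1, hy2⟩ := hkerpair y hy
        rw [map_add]
        refine Submodule.add_mem _ (Submodule.mem_sup_left ⟨?_, hjE y hy2⟩)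
          (Submodule.mem_sup_right (Submodule.mem_sup_right (Submodule.mem_map_of_mem hz)))
        have := hGenY1 1 y hy1
        rw [hr1] at this
        exact this
      · intro φ hφ
        exact Submodule.mem_sup_left ⟨hY1N φ hφ, hNE φ hφ⟩
    have hY1le : Y1 ≤ (Y1 ⊓ E) ⊔ D := by
      refine sup_le (Submodule.span_le.2 ?_) ?_
      · rintro φ ⟨x, k, hk, rfl⟩
        obtain ⟨l, hl⟩ := hS1 x k hk
        have hl' : l ∈ LinearMap.ker (d S1) ⊔ D1' := by rw [hD1]; trivial
        obtain ⟨y, hy, z, hz, rfl⟩ := Submodule.mem_sup.1 hl'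
        have hy' : d S1 y = 0 := hy
        rw [map_add, hy', zero_add, hd, hd, ← sub_eq_zero, ← map_sub, Submodule.mkQ_apply,
          Submodule.Quotient.mk_eq_zero] at hl
        have h1 : r x (j k) = r S1 (j z) - (r S1 (j z) - r x (j k)) := by abel
        change r x (j k) ∈ (Y1 ⊓ E) ⊔ D
        rw [h1]
        refine Submodule.sub_mem _ ?_ (hY0le hl)
        exact Submodule.mem_sup_right (Submodule.mem_sup_left
          ⟨z, hz, rfl⟩)
      · intro φ hφ
        exact Submodule.mem_sup_left ⟨hY1N φ hφ, hNE φ hφ⟩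
    have hfin := no_fin_modules r hr1 hrm hr0 hra v v' hv hv1 Y1 (Y1 ⊓ E) D hY1inv
      (fun x m hm => ⟨hY1inv x m hm.1, hEinv x m hm.2⟩) hY1le
    exact fun φ hφ => (hfin hφ).2
  -- the kernel of j modulo N is finite-dimensional
  let H0 : Submodule ℂ H := N.comap j
  have hH0 : FiniteDimensional ℂ H0 := by
    obtain ⟨c1, hc1⟩ := fr_iff.1 hb1
    by_contra hcon
    have hc : Cardinal.aleph0 ≤ Module.rank ℂ H0 := by
      by_contra hlt
      exact hcon (Module.rank_lt_aleph0_iff.1 (not_le.1 hlt))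
    have h0 : ((C + c1 + 1 : ℕ) : Cardinal) ≤ Module.rank ℂ H0 :=
      (Cardinal.natCast_lt_aleph0).le.trans hc
    obtain ⟨w, hw⟩ : ∃ w : Fin (C + c1 + 1) → H0, LinearIndependent ℂ w := by
      obtain ⟨s, hs1, hs2⟩ := exists_finset_linearIndependent_of_le_rank h0
      let e := (s.equivFinOfCardEq hs1).symm
      exact ⟨fun i => ((e i : s) : H0), hs2.comp _ e.injective⟩
    let w' : Fin (C + c1 + 1) → H := fun i => (w i : H)
    have hw' : LinearIndependent ℂ w' := hw.map' H0.subtype (Submodule.ker_subtype _)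
    let Ψ : (H →L[ℂ] H) →ₗ[ℂ] (Fin (C + c1 + 1) → H) :=
      ∑ i, (LinearMap.single ℂ (fun _ => H) i) ∘ₗ (j (w' i))
    have hΨ : ∀ S i, Ψ S i = b S (w' i) := by
      intro S i
      simp only [Ψ, LinearMap.sum_apply, LinearMap.comp_apply, Finset.sum_apply, hj]
      rw [Finset.sum_eq_single i]
      · simp
      · intro l _ hl
        simp [hl.symm]
      · simp
    have hΨfr : ∃ n, RKL n Ψ := by
      have : ∀ s : Finset (Fin (C + c1 + 1)), ∃ n, RKL n
          (∑ i ∈ s, (LinearMap.single ℂ (fun _ : Fin (C + c1 + 1) => H) i) ∘ₗ (j (w' i))) := by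
        intro s
        induction s using Finset.induction_on with
        | empty => exact ⟨0, by rw [Finset.sum_empty]; exact RKL.zero 0⟩
        | insert i s his ih =>
          obtain ⟨n, hn⟩ := ih
          obtain ⟨m, hm⟩ := (w i).2
          refine ⟨m + n, ?_⟩
          rw [Finset.sum_insert his]
          exact (hm.comp_left _).add hn
      exact this Finset.univ
    have hfd : FiniteDimensional ℂ (LinearMap.range Ψ) := rkl_iff_exists.1 hΨfr
    have hfd2 : FiniteDimensional ℂ ((H →L[ℂ] H) ⧸ LinearMap.ker Ψ) :=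
      Module.Finite.equiv Ψ.quotKerEquivRange.symm
    obtain ⟨S, hSJ, S', hS'⟩ := exists_left_inv_mem hinf (LinearMap.ker Ψ)
    have hS0 : ∀ i, b S (w' i) = 0 := by
      intro i
      rw [← hΨ, LinearMap.mem_ker.1 hSJ]; rfl
    have h1 : ∀ i, w' i = (-((b S' * b S - b (S' * S)) + (b 1 - 1))) (w' i) := by
      intro i
      rw [hS']
      simp [hS0 i]
    have h2 : RKL (C + c1) (-((b S' * b S - b (S' * S)) + (b 1 - 1)) : H →L[ℂ] H).toLinearMap :=
      RK.neg ((hC S' S).add hc1)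
    obtain ⟨h3, h4⟩ := rkl_iff_finrank.1 h2
    have h5 : Submodule.span ℂ (Set.range w') ≤
        LinearMap.range (-((b S' * b S - b (S' * S)) + (b 1 - 1)) : H →L[ℂ] H).toLinearMap := by
      rw [Submodule.span_le]
      rintro _ ⟨i, rfl⟩
      exact ⟨w' i, (h1 i).symm⟩
    have h6 := Submodule.finrank_mono h5
    rw [finrank_span_eq_card hw', Fintype.card_fin] at h6
    omega
  -- the intertwiners
  let ψ : H → H → (H →L[ℂ] H) := fun k η =>
    (ContinuousLinearMap.apply ℂ H k) ∘L b ∘L (ContinuousLinearMap.smulRightL ℂ H H (innerSL ℂ η))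
  have hψ : ∀ k η ξ, ψ k η ξ = b (r1 ξ η) k := fun k η ξ => rfl
  by_cases hall : ∀ k, d S1 k = 0 → ∀ η, FR (ψ k η)
  · exfalso
    have hrN' : ∀ R, FR R → ∀ k, d S1 k = 0 → r R (j k) ∈ N := by
      intro R hR k hk
      obtain ⟨n, ξ, η, rfl⟩ := fr_eq_sum hR
      have h1 : ∀ s : Finset (Fin n), r (∑ i ∈ s, r1 (ξ i) (η i)) (j k) ∈ N := by
        intro s
        induction s using Finset.induction_on with
        | empty => rw [Finset.sum_empty, hr0]; exact N.zero_mem
        | insert i s his ih =>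
          rw [Finset.sum_insert his, hra]
          refine N.add_mem ?_ ih
          obtain ⟨m, hm⟩ := fr_iff.1 (hall k hk (η i))
          refine ⟨m, ?_⟩
          have h2 : r (r1 (ξ i) (η i)) (j k) = (ψ k (η i) : H →ₗ[ℂ] H) ∘ₗ
              (ContinuousLinearMap.apply ℂ H (ξ i) : (H →L[ℂ] H) →ₗ[ℂ] H) := by
            ext S
            rw [hr, hj, mul_r1]
            rfl
          rw [h2]
          exact RKL.comp_right hm _
      exact h1 Finset.univ
    have hbR : ∀ R, FR R → RK (C + C + Module.finrank ℂ H0) (b R) := by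
      intro R hR
      refine rkl_of_mod _ H0 ?_
      refine rkl_of_ker (f := (LinearMap.inl ℂ (MM H ⧸ Y0) H) ∘ₗ (d S1) +
        (LinearMap.inr ℂ (MM H ⧸ Y0) H) ∘ₗ (Dr R (Rr R)))
        (((hdC S1).comp_left _).add (RKL.comp_left (hC (Rr R) R) _)) (fun k hk => ?_)
      have h1 : ((d S1 k, Dr R (Rr R) k) : (MM H ⧸ Y0) × H) = 0 := by
        rw [← hk]
        simp
      have h2 : d S1 k = 0 := congrArg Prod.fst h1
      have h3 : Dr R (Rr R) k = 0 := congrArg Prod.snd h1
      have h4 := hjr R k h3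
      have h5 := hrN' R hR k h2
      have h6 : j (b R k) ∈ N := by
        have := N.sub_mem h5 h4
        simpa using this
      change H0.mkQ (b R k) = 0
      rw [Submodule.mkQ_apply, Submodule.Quotient.mk_eq_zero]
      exact h6
    obtain ⟨R, Rn, hR, hRn, hlim⟩ := exists_compact_not_fr (H := H) hinf
    have h1 : RK (C + C + Module.finrank ℂ H0) (b R) := by
      have hcl := isClosed_RK (H := H) (C + C + Module.finrank ℂ H0)
      exact hcl.mem_of_tendsto ((b.continuous.tendsto R).comp hlim)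
        (Filter.Eventually.of_forall fun n => hbR _ (hRn n))
    exact hR (hfr R h1.fr)
  · push Not at hall
    obtain ⟨k, hk, η, hG⟩ := hall
    refine ⟨ψ k η, hG, fun T => ?_⟩
    have h1 : j k ∈ Y1 := by
      have := hGenY1 1 k hk
      rw [hr1] at this
      exact this
    obtain ⟨n, hn⟩ := hY1E T _ h1
    have h2 : RKL n (-(eT T (j k)) ∘ₗ
        (ContinuousLinearMap.smulRightL ℂ H H (innerSL ℂ η) : H →ₗ[ℂ] (H →L[ℂ] H))) :=
      RKL.comp_right hn.neg _
    have h3 : ((b T * ψ k η - ψ k η * T : H →L[ℂ] H) : H →ₗ[ℂ] H) = (-(eT T (j k)) ∘ₗ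
        (ContinuousLinearMap.smulRightL ℂ H H (innerSL ℂ η) : H →ₗ[ℂ] (H →L[ℂ] H))) := by
      ext ξ
      have e1 : (-(eT T (j k)) ∘ₗ
        (ContinuousLinearMap.smulRightL ℂ H H (innerSL ℂ η) : H →ₗ[ℂ] (H →L[ℂ] H))) ξ =
          -(eT T (j k) (r1 ξ η)) := rfl
      rw [e1, heT, hj, hj, mul_r1]
      change b T (b (r1 ξ η) k) - b (r1 (T ξ) η) k = _
      abel
    have h4 : RK n (b T * ψ k η - ψ k η * T) := by
      unfold RK
      rw [h3]
      exact h2
    exact h4.fr

end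

end Pool.Agent.Helper280.GI
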