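import Mathlib
import Pool.Agent.Helper280.GI.Basic

set_option autoImplicit false

namespace Pool.Agent.Helper280.GI



theorem br_general {E F : Type*} [NormedAddCommGroup E] [NormedSpace ℂ E] [CompleteSpace E]
    [AddCommGroup F] [Module ℂ F] (R : ℕ → F → Prop) (D : E → E → F)
    (hadd : ∀ m n S T, R m S → R n T → R (m + n) (S + T))
    (hsub : ∀ m n S T, R m S → R n T → R (m + n) (S - T))
    (hsmul : ∀ n (c : ℂ) S, R n S → R n (c • S))
    (hD1 : ∀ x x' y, D (x + x') y = D x y + D x' y)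
    (hD2 : ∀ x y y', D x (y + y') = D x y + D x y')
    (hD3 : ∀ (c : ℂ) x y, D (c • x) (c • y) = (c * c) • D x y)
    (hclosed : ∀ n : ℕ, IsClosed {p : E × E | R n (D p.1 p.2)})
    (h : ∀ x y, ∃ n, R n (D x y)) : ∃ C : ℕ, ∀ x y, R C (D x y) := by
  have hunion : ⋃ n : ℕ, {p : E × E | R n (D p.1 p.2)} = Set.univ := by
    rw [Set.eq_univ_iff_forall]
    rintro ⟨x, y⟩
    obtain ⟨n, hn⟩ := h x y
    exact Set.mem_iUnion.2 ⟨n, hn⟩
  obtain ⟨n, ⟨⟨x0, y0⟩, hp⟩⟩ := nonempty_interior_of_iUnion_of_closed hclosed hunion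
  rw [mem_interior_iff_mem_nhds, Metric.mem_nhds_iff] at hp
  obtain ⟨ε, hε, hball⟩ := hp
  have hsmall : ∀ u v : E, ‖u‖ < ε → ‖v‖ < ε → R n (D (x0 + u) (y0 + v)) := by
    intro u v hu hv
    have : ((x0 + u, y0 + v) : E × E) ∈ Metric.ball (x0, y0) ε := by
      rw [Metric.mem_ball, Prod.dist_eq, max_lt_iff]
      constructor
      · simpa [dist_eq_norm] using hu
      · simpa [dist_eq_norm] using hv
    exact hball this
  have hsmall2 : ∀ u v : E, ‖u‖ < ε → ‖v‖ < ε → R (n + n + n + n) (D u v) := by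
    intro u v hu hv
    have h0 : ‖(0 : E)‖ < ε := by simpa using hε
    have e : D u v = D (x0 + u) (y0 + v) - D (x0 + u) (y0 + 0) - D (x0 + 0) (y0 + v)
        + D (x0 + 0) (y0 + 0) := by
      simp only [add_zero, hD1, hD2]
      abel
    rw [e]
    exact hadd _ _ _ _ (hsub _ _ _ _ (hsub _ _ _ _ (hsmall u v hu hv) (hsmall u 0 hu h0))
      (hsmall 0 v h0 hv)) (hsmall 0 0 h0 h0)
  refine ⟨n + n + n + n, fun x y => ?_⟩
  obtain ⟨c, hc, hcx, hcy⟩ : ∃ c : ℝ, 0 < c ∧ c * ‖x‖ < ε ∧ c * ‖y‖ < ε := by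
    refine ⟨ε / (‖x‖ + ‖y‖ + 1), by positivity, ?_, ?_⟩
    · rw [div_mul_eq_mul_div, div_lt_iff₀ (by positivity)]
      have := norm_nonneg y
      nlinarith [norm_nonneg x]
    · rw [div_mul_eq_mul_div, div_lt_iff₀ (by positivity)]
      have := norm_nonneg x
      nlinarith [norm_nonneg y]
  have hc' : ‖(c : ℂ)‖ = c := by rw [Complex.norm_real, Real.norm_eq_abs, abs_of_pos hc]
  have h3 := hsmall2 ((c : ℂ) • x) ((c : ℂ) • y) (by rw [norm_smul, hc']; exact hcx)
    (by rw [norm_smul, hc']; exact hcy)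
  have hcne : (c : ℂ) ≠ 0 := by exact_mod_cast hc.ne'
  have e : D x y = ((c : ℂ) * c)⁻¹ • D ((c : ℂ) • x) ((c : ℂ) • y) := by
    rw [hD3, smul_smul, inv_mul_cancel₀ (mul_ne_zero hcne hcne), one_smul]
  rw [e]
  exact hsmul _ _ _ h3

section JA
variable {H : Type*} [NormedAddCommGroup H] [InnerProductSpace ℂ H] [CompleteSpace H]

theorem baire_rank (b : (H →L[ℂ] H) →L[ℂ] (H →L[ℂ] H))
    (hcl : ∀ n, IsClosed {T : H →L[ℂ] H | RK n T})
    (h : ∀ x y, FR (b x * b y - b (x * y))) :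
    ∃ C : ℕ, ∀ x y, RK C (b x * b y - b (x * y)) := by
  apply br_general (E := H →L[ℂ] H) (F := H →L[ℂ] H) (fun n T => RK n T)
    (fun x y => b x * b y - b (x * y))
  · intro m n S T hS hT
    exact hS.add hT
  · intro m n S T hS hT
    exact hS.sub hT
  · intro n c S hS
    exact hS.smul c
  · intro x x' y
    simp only [map_add, add_mul]
    abel
  · intro x y y'
    simp only [map_add, mul_add]
    abel
  · intro c x y
    simp only [map_smul, smul_mul_assoc, mul_smul_comm, smul_sub, smul_smul]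
  · intro n
    have h1 : Continuous (fun p : (H →L[ℂ] H) × (H →L[ℂ] H) => b p.1 * b p.2) :=
      (b.continuous.comp continuous_fst).mul (b.continuous.comp continuous_snd)
    have h2 : Continuous (fun p : (H →L[ℂ] H) × (H →L[ℂ] H) => b (p.1 * p.2)) :=
      b.continuous.comp (continuous_fst.mul continuous_snd)
    exact (hcl n).preimage (h1.sub h2)
  · intro x y
    exact fr_iff.1 (h x y)


end JA

end Pool.Agent.Helper280.GI
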