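import Mathlib
import Pool.Agent.Helper280.GI.Basic

set_option autoImplicit false

namespace Pool.Agent.Helper280.GI



section JA
variable {H : Type*} [NormedAddCommGroup H] [InnerProductSpace ℂ H] [CompleteSpace H]

open Filter Topology in
/-- if `G` is bounded below on the orthogonal complement of a finite set then it is left
invertible modulo finite rank -/
theorem bddbelow_aux1 (G : H →L[ℂ] H) (hG : ¬ LI G) (s : Finset H) {δ : ℝ} (hδ : 0 < δ) :
    ∃ y : H, ‖y‖ = 1 ∧ (∀ x ∈ s, inner ℂ x y = 0) ∧ ‖G y‖ ≤ δ := by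
  by_contra hcon
  push Not at hcon
  apply hG
  set F : Submodule ℂ H := Submodule.span ℂ (s : Set H) with hF
  have hFfin : FiniteDimensional ℂ F := FiniteDimensional.span_finset ℂ s
  set M : Submodule ℂ H := Fᗮ with hM
  have hbd : ∀ y ∈ M, δ * ‖y‖ ≤ ‖G y‖ := by
    intro y hy
    rcases eq_or_ne y 0 with rfl | hy0
    · simp
    have hny : 0 < ‖y‖ := norm_pos_iff.2 hy0
    have h1 := hcon (((‖y‖⁻¹ : ℝ) : ℂ) • y) (by
      rw [norm_smul, Complex.norm_real, norm_inv, norm_norm, inv_mul_cancel₀ hny.ne'])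
      (fun x hx => by
        rw [inner_smul_right, (Submodule.mem_orthogonal F y).1 hy x (Submodule.subset_span hx),
          mul_zero])
    rw [map_smul, norm_smul, Complex.norm_real, norm_inv, norm_norm] at h1
    rw [inv_mul_eq_div, lt_div_iff₀ hny] at h1
    exact h1.le
  set Gm : M →L[ℂ] H := G ∘L M.subtypeL with hGm
  have hanti : AntilipschitzWith (⟨δ⁻¹, by positivity⟩ : NNReal) Gm := by
    refine ContinuousLinearMap.antilipschitz_of_bound Gm fun y => ?_
    have h1 := hbd y y.2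
    show ‖y‖ ≤ δ⁻¹ * ‖G (y : H)‖
    rw [inv_mul_eq_div, le_div_iff₀ hδ, mul_comm]
    exact h1
  have hinj : Function.Injective Gm := hanti.injective
  have hcl : IsClosed (Set.range Gm) := hanti.isClosed_range Gm.uniformContinuous
  set R : Submodule ℂ H := LinearMap.range (Gm : M →ₗ[ℂ] H) with hR
  have hRcl : IsClosed (R : Set H) := by
    have : (R : Set H) = Set.range Gm := by
      ext z; simp [hR]
    rw [this]; exact hcl
  have : CompleteSpace R := hRcl.completeSpace_coe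
  let e := Gm.equivRange hinj hcl
  let S : H →L[ℂ] H := M.subtypeL ∘L ((e.symm : _ →L[ℂ] M) ∘L R.orthogonalProjectionOnto)
  refine ⟨S, ?_⟩
  have hS : ∀ y ∈ M, S (G y) = y := by
    intro y hy
    have h1 : G y = ((⟨Gm ⟨y, hy⟩, ⟨⟨y, hy⟩, rfl⟩⟩ : R) : H) := rfl
    show ((e.symm (R.orthogonalProjectionOnto (G y)) : M) : H) = y
    rw [h1, Submodule.orthogonalProjectionOnto_mem_subspace_eq_self]
    have h2 := Gm.equivRange_symm_apply hinj hcl ⟨y, hy⟩
    exact congrArg Subtype.val h2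
  have hfac : S * G - 1 = (S * G - 1) * F.starProjection := by
    ext z
    have h1 : z = F.starProjection z + (z - F.starProjection z) := by abel
    have h2 : z - F.starProjection z ∈ M := by
      exact F.sub_starProjection_mem_orthogonal z
    have h3 : (S * G - 1) (z - F.starProjection z) = 0 := by
      show S (G _) - _ = 0
      rw [hS _ h2]
      exact sub_self _
    rw [map_sub, sub_eq_zero] at h3
    exact h3
  rw [hfac]
  refine FR.mul_left ?_ _
  have : LinearMap.range (F.starProjection : H →ₗ[ℂ] H) ≤ F := by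
    rintro _ ⟨z, rfl⟩
    exact F.starProjection_apply_mem z
  exact Submodule.finiteDimensional_of_le this

omit [CompleteSpace H] in
theorem bddbelow_aux2 (t : ℕ → (H →L[ℂ] H)) (hts : Summable t) (x : H) :
    HasSum (fun n => t n x) ((∑' n, t n) x) :=
  hts.hasSum.mapL (ContinuousLinearMap.apply ℂ H x)

open Filter Topology in
theorem left_inv_of_intertwiner [TopologicalSpace.SeparableSpace H]
    (hinf : ¬ FiniteDimensional ℂ H) (b : (H →L[ℂ] H) →L[ℂ] (H →L[ℂ] H)) (G : H →L[ℂ] H)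
    (hG : ¬ FR G) (h : ∀ T, FR (b T * G - G * T)) : LI G := by
  by_contra hLI
  -- the sequence
  obtain ⟨f, hfP, hfr⟩ := exists_seq_of_forall_finset_exists
    (fun p : H × ℕ => ‖p.1‖ = 1 ∧ ‖G p.1‖ ≤ (1 / 4 : ℝ) ^ p.2)
    (fun p q => inner ℂ p.1 q.1 = 0 ∧ p.2 < q.2) (by
      classical
      intro s _
      obtain ⟨y, hy1, hy2, hy3⟩ := bddbelow_aux1 G hLI (s.image Prod.fst)
        (δ := (1 / 4 : ℝ) ^ (s.sup Prod.snd + 1)) (by positivity)
      refine ⟨(y, s.sup Prod.snd + 1), ⟨hy1, hy3⟩, fun x hx => ⟨?_, ?_⟩⟩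
      · exact hy2 _ (Finset.mem_image_of_mem _ hx)
      · exact Nat.lt_succ_of_le (Finset.le_sup (f := Prod.snd) hx))
  have hmono : StrictMono fun n => (f n).2 := fun m n hmn => (hfr m n hmn).2
  have hge : ∀ n, n ≤ (f n).2 := fun n => hmono.le_apply
  set ξ : ℕ → H := fun n => (f n).1 with hξ
  have hξ1 : ∀ n, ‖ξ n‖ = 1 := fun n => (hfP n).1
  have hξG : ∀ n, ‖G (ξ n)‖ ≤ (1 / 4 : ℝ) ^ n := fun n =>
    (hfP n).2.trans (pow_le_pow_of_le_one (by norm_num) (by norm_num) (hge n))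
  have hξo : ∀ m n, m ≠ n → inner ℂ (ξ m) (ξ n) = 0 := by
    intro m n hmn
    rcases lt_or_gt_of_ne hmn with h1 | h1
    · exact (hfr m n h1).1
    · have := (hfr n m h1).1
      rw [← inner_conj_symm, this, map_zero]
  -- dense sequence
  have : Nonempty H := ⟨0⟩
  set ζ := TopologicalSpace.denseSeq H with hζ
  set u : ℕ → H := fun j => (((1 + ‖ζ j‖)⁻¹ : ℝ) : ℂ) • ζ j with hu
  have hu1 : ∀ j, ‖u j‖ ≤ 1 := by
    intro j
    have h0 : 0 < 1 + ‖ζ j‖ := by positivity
    rw [hu]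
    show ‖(((1 + ‖ζ j‖)⁻¹ : ℝ) : ℂ) • ζ j‖ ≤ 1
    rw [norm_smul, Complex.norm_real, norm_inv, Real.norm_of_nonneg h0.le, inv_mul_eq_div,
      div_le_one h0]
    linarith
  -- the operator T
  set t : ℕ → (H →L[ℂ] H) := fun n =>
    (innerSL ℂ (ξ n)).smulRight ((((1 / 2 : ℝ) ^ n : ℝ) : ℂ) • u (Nat.unpair n).1) with ht
  have htn : ∀ n, ‖t n‖ ≤ (1 / 2 : ℝ) ^ n := by
    intro n
    rw [ht]
    show ‖(innerSL ℂ (ξ n)).smulRight _‖ ≤ _
    rw [ContinuousLinearMap.norm_smulRight_apply, innerSL_apply_norm, hξ1, one_mul, norm_smul,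
      Complex.norm_real, norm_pow]
    have h1 : ‖(1 / 2 : ℝ)‖ = 1 / 2 := by norm_num
    rw [h1]
    have h2 := hu1 (Nat.unpair n).1
    have h3 : (0 : ℝ) < (1 / 2) ^ n := by positivity
    nlinarith
  have hts : Summable t := Summable.of_norm_bounded
    (summable_geometric_of_lt_one (by norm_num) (by norm_num) : Summable fun n => (1 / 2 : ℝ) ^ n) htn
  have htapp : ∀ n x, t n x = inner ℂ (ξ n) x •
      ((((1 / 2 : ℝ) ^ n : ℝ) : ℂ) • u (Nat.unpair n).1) := fun n x => rfl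
  set T : H →L[ℂ] H := ∑' n, t n with hT
  have hTξ : ∀ m, T (ξ m) = (((1 / 2 : ℝ) ^ m : ℝ) : ℂ) • u (Nat.unpair m).1 := by
    intro m
    have h1 : HasSum (fun n => t n (ξ m)) (T (ξ m)) := bddbelow_aux2 t hts (ξ m)
    have h2 : HasSum (fun n => t n (ξ m)) (t m (ξ m)) := by
      apply hasSum_single
      intro n hn
      rw [htapp, hξo n m hn, zero_smul]
    rw [h1.unique h2, htapp, inner_self_eq_norm_sq_to_K, hξ1]
    simp
  -- contradiction
  set V : Submodule ℂ H := LinearMap.range ((b T * G - G * T : H →L[ℂ] H) : H →ₗ[ℂ] H) with hV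
  have hVf : FiniteDimensional ℂ V := h T
  have hVcl : IsClosed (V : Set H) := V.closed_of_finiteDimensional
  have hmem : ∀ j, G (u j) ∈ V := by
    intro j
    set n : ℕ → ℕ := fun i => Nat.pair j i with hn
    have hni : ∀ i, i ≤ n i := fun i => Nat.right_le_pair j i
    have hn1 : ∀ i, (Nat.unpair (n i)).1 = j := fun i => by rw [hn]; simp [Nat.unpair_pair]
    have hx : ∀ i, (-((((2 : ℝ) ^ (n i) : ℝ) : ℂ))) • ((b T * G - G * T) (ξ (n i))) ∈ V :=
      fun i => V.smul_mem _ ⟨ξ (n i), rfl⟩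
    refine hVcl.mem_of_tendsto (b := atTop)
      (f := fun i => (-((((2 : ℝ) ^ (n i) : ℝ) : ℂ))) • ((b T * G - G * T) (ξ (n i)))) ?_
      (Eventually.of_forall hx)
    rw [tendsto_iff_norm_sub_tendsto_zero]
    have hbound : ∀ i, ‖(-((((2 : ℝ) ^ (n i) : ℝ) : ℂ))) • ((b T * G - G * T) (ξ (n i))) - G (u j)‖
        ≤ ‖b T‖ * (1 / 2 : ℝ) ^ i := by
      intro i
      have h1 : (b T * G - G * T) (ξ (n i)) = b T (G (ξ (n i))) -
          (((1 / 2 : ℝ) ^ (n i) : ℝ) : ℂ) • G (u j) := by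
        show b T (G (ξ (n i))) - G (T (ξ (n i))) = _
        rw [hTξ, hn1, map_smul]
      rw [h1, smul_sub, smul_smul]
      have h2 : (-((((2 : ℝ) ^ (n i) : ℝ) : ℂ))) * (((1 / 2 : ℝ) ^ (n i) : ℝ) : ℂ) = -1 := by
        rw [neg_mul, ← Complex.ofReal_mul, ← mul_pow]
        norm_num
      rw [h2, neg_one_smul ℂ (G (u j)), sub_neg_eq_add, add_sub_cancel_right, norm_smul, norm_neg,
        Complex.norm_real, norm_pow]
      have h3 : ‖(2 : ℝ)‖ = 2 := by norm_num
      rw [h3]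
      have h4 := (b T).le_opNorm (G (ξ (n i)))
      have h5 := hξG (n i)
      have h6 : (2 : ℝ) ^ (n i) * (1 / 4 : ℝ) ^ (n i) = (1 / 2 : ℝ) ^ (n i) := by
        rw [← mul_pow]; norm_num
      have h7 : (1 / 2 : ℝ) ^ (n i) ≤ (1 / 2 : ℝ) ^ i :=
        pow_le_pow_of_le_one (by norm_num) (by norm_num) (hni i)
      have h8 : (0 : ℝ) < 2 ^ (n i) := by positivity
      calc (2 : ℝ) ^ (n i) * ‖(b T) (G (ξ (n i)))‖ ≤ 2 ^ (n i) * (‖b T‖ * (1 / 4) ^ (n i)) := by
            refine mul_le_mul_of_nonneg_left (h4.trans ?_) h8.le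
            exact mul_le_mul_of_nonneg_left h5 (norm_nonneg _)
        _ = ‖b T‖ * ((2 : ℝ) ^ (n i) * (1 / 4) ^ (n i)) := by ring
        _ ≤ ‖b T‖ * (1 / 2) ^ i := by
            rw [h6]
            exact mul_le_mul_of_nonneg_left h7 (norm_nonneg _)
    have hlim : Tendsto (fun i : ℕ => ‖b T‖ * (1 / 2 : ℝ) ^ i) atTop (𝓝 0) := by
      have := (tendsto_pow_atTop_nhds_zero_of_lt_one (by norm_num : (0 : ℝ) ≤ 1 / 2)
        (by norm_num)).const_mul ‖b T‖
      simpa using this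
    exact squeeze_zero (fun _ => norm_nonneg _) hbound hlim
  have hmem2 : ∀ j, G (ζ j) ∈ V := by
    intro j
    have h0 : 0 < 1 + ‖ζ j‖ := by positivity
    have h1 := V.smul_mem ((1 + ‖ζ j‖ : ℝ) : ℂ) (hmem j)
    have h2 : ((1 + ‖ζ j‖ : ℝ) : ℂ) • G (u j) = G (ζ j) := by
      rw [hu]
      show ((1 + ‖ζ j‖ : ℝ) : ℂ) • G ((((1 + ‖ζ j‖)⁻¹ : ℝ) : ℂ) • ζ j) = _
      rw [map_smul, smul_smul, ← Complex.ofReal_mul, mul_inv_cancel₀ h0.ne', Complex.ofReal_one,
        one_smul]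
    rwa [h2] at h1
  have hall : ∀ x, G x ∈ V := by
    intro x
    have hd : Dense (Set.range ζ) := TopologicalSpace.denseRange_denseSeq H
    have hc : IsClosed {x | G x ∈ V} := hVcl.preimage G.continuous
    have : closure (Set.range ζ) ⊆ {x | G x ∈ V} := by
      refine closure_minimal ?_ hc
      rintro _ ⟨j, rfl⟩
      exact hmem2 j
    exact this (hd x)
  apply hG
  have hle : LinearMap.range (G : H →ₗ[ℂ] H) ≤ V := by
    rintro _ ⟨z, rfl⟩
    exact hall z
  exact Submodule.finiteDimensional_of_le hle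


end JA

end Pool.Agent.Helper280.GI
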