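import Mathlib
import Pool.Agent.Helper280.GI.Basic

set_option autoImplicit false

namespace Pool.Agent.Helper280.GI



section JA
variable {H : Type*} [NormedAddCommGroup H] [InnerProductSpace ℂ H] [CompleteSpace H]

theorem copies_reindex {ι κ : Type*} (b : HilbertBasis ι ℂ H) (e : κ ≃ ι) :
    ∃ b' : HilbertBasis κ ℂ H, ∀ k, b' k = b (e k) := by
  have hv : Orthonormal ℂ (fun k => b (e k)) := b.orthonormal.comp _ e.injective
  have hr : Set.range (fun k => b (e k)) = Set.range b := e.surjective.range_comp b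
  refine ⟨HilbertBasis.mk hv ?_, fun k => ?_⟩
  · rw [hr, b.dense_span]
  · rw [HilbertBasis.coe_mk]

theorem copies_hb [TopologicalSpace.SeparableSpace H] (hinf : ¬ FiniteDimensional ℂ H) :
    Nonempty (HilbertBasis ℕ ℂ H) := by
  classical
  obtain ⟨w, b, hb⟩ := exists_hilbertBasis ℂ H
  have hne : ∀ i j : w, i ≠ j → 1 < dist (b i) (b j) := by
    intro i j hij
    have h1 := orthonormal_iff_ite.1 b.orthonormal i j
    rw [if_neg hij] at h1
    have h2 := norm_sub_sq (𝕜 := ℂ) (b i) (b j)
    rw [b.orthonormal.1, b.orthonormal.1, h1] at h2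
    simp only [map_zero] at h2
    rw [dist_eq_norm]
    nlinarith [norm_nonneg (b i - b j)]
  have hc : Countable w := by
    refine Pairwise.countable_of_isOpen_disjoint (s := fun i : w => Metric.ball (b i) (1 / 2))
      ?_ (fun i => Metric.isOpen_ball) (fun i => ⟨b i, Metric.mem_ball_self (by norm_num)⟩)
    intro i j hij
    refine Metric.ball_disjoint_ball ?_
    have := hne i j hij
    linarith
  have hi : Infinite w := by
    by_contra hf
    rw [not_infinite_iff_finite] at hf
    have : Fintype w := Fintype.ofFinite w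
    exact hinf (Module.Finite.of_basis (b.toOrthonormalBasis).toBasis)
  obtain ⟨e⟩ := nonempty_equiv_of_countable (α := ℕ) (β := w)
  obtain ⟨b', -⟩ := copies_reindex b e
  exact ⟨b'⟩

abbrev KK (H : Type*) [NormedAddCommGroup H] := lp (fun _ : ℕ => H) 2

theorem copies_diag_aux (T : H →L[ℂ] H) (f : KK H) (n : ℕ) :
    ‖T (f n)‖ ^ (2 : ENNReal).toReal ≤
      ‖T‖ ^ (2 : ENNReal).toReal * ‖f n‖ ^ (2 : ENNReal).toReal := by
  rw [← Real.mul_rpow (norm_nonneg _) (norm_nonneg _)]
  exact Real.rpow_le_rpow (norm_nonneg _) (T.le_opNorm _) (by simp)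

/-- apply `T` in every coordinate -/
noncomputable def diagL (T : H →L[ℂ] H) : KK H →L[ℂ] KK H :=
  LinearMap.mkContinuous
    { toFun := fun f => ⟨fun n => T (f n), by
        apply memℓp_gen
        refine Summable.of_nonneg_of_le (fun n => by positivity) (copies_diag_aux T f) ?_
        exact ((lp.memℓp f).summable (by simp)).mul_left _⟩
      map_add' := fun f g => by
        ext n
        show T ((f + g) n) = T (f n) + T (g n)
        rw [lp.coeFn_add, Pi.add_apply, map_add]
      map_smul' := fun c f => by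
        ext n
        show T ((c • f) n) = c • T (f n)
        rw [lp.coeFn_smul, Pi.smul_apply, map_smul] } ‖T‖ (fun f => by
      refine lp.norm_le_of_tsum_le (by simp) (by positivity) ?_
      rw [Real.mul_rpow (norm_nonneg _) (norm_nonneg _), lp.norm_rpow_eq_tsum (by simp),
        ← tsum_mul_left]
      have hs : Summable fun n => ‖T‖ ^ (2 : ENNReal).toReal * ‖f n‖ ^ (2 : ENNReal).toReal :=
        ((lp.memℓp f).summable (by simp)).mul_left _
      exact Summable.tsum_le_tsum (copies_diag_aux T f)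
        (Summable.of_nonneg_of_le (fun n => by positivity) (copies_diag_aux T f) hs) hs)

theorem diagL_apply (T : H →L[ℂ] H) (f : KK H) (n : ℕ) : (diagL T f) n = T (f n) := rfl

noncomputable def diagA : (H →L[ℂ] H) →ₐ[ℂ] (KK H →L[ℂ] KK H) where
  toFun := diagL
  map_one' := by
    ext f n
    rfl
  map_mul' := fun S T => by
    ext f n
    rfl
  map_zero' := by
    ext f n
    rfl
  map_add' := fun S T => by
    ext f n
    rfl
  commutes' := fun c => by
    ext f n
    rfl

theorem diagA_apply (T : H →L[ℂ] H) (f : KK H) (n : ℕ) : (diagA T f) n = T (f n) := rfl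

theorem KK_ext (b : HilbertBasis ℕ ℂ H) {f g : KK H}
    (h : ∀ n j, inner ℂ (b j) (f n) = inner ℂ (b j) (g n)) : f = g := by
  ext n
  apply b.repr.injective
  ext j
  rw [b.repr_apply_apply, b.repr_apply_apply]
  exact h n j

noncomputable def sg (n : ℕ) (x : H) : KK H := lp.single 2 n x

theorem sg_apply (n m : ℕ) (x : H) : (sg n x) m = if m = n then x else 0 := by
  unfold sg
  rw [lp.single_apply, Pi.single_apply]

theorem sg_inner (n : ℕ) (x : H) (f : KK H) : inner ℂ (sg n x) f = inner ℂ x (f n) :=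
  lp.inner_single_left n x f

theorem copies_basisK (b : HilbertBasis ℕ ℂ H) :
    ∃ B : HilbertBasis (ℕ × ℕ) ℂ (KK H), ∀ p, B p = sg p.1 (b p.2) := by
  have hv : Orthonormal ℂ (fun p : ℕ × ℕ => sg p.1 (b p.2)) := by
    rw [orthonormal_iff_ite]
    rintro ⟨i, j⟩ ⟨k, l⟩
    rw [sg_inner, sg_apply]
    by_cases hik : i = k
    · subst hik
      rw [if_pos rfl, orthonormal_iff_ite.1 b.orthonormal]
      simp
    · rw [if_neg hik, inner_zero_right, if_neg]
      intro h
      exact hik (congrArg Prod.fst h)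
  refine ⟨HilbertBasis.mkOfOrthogonalEqBot hv ?_, fun p => ?_⟩
  · rw [Submodule.eq_bot_iff]
    intro f hf
    apply KK_ext b
    intro n j
    have h1 := (Submodule.mem_orthogonal _ _).1 hf (sg n (b j)) (Submodule.subset_span ⟨(n, j), rfl⟩)
    rw [sg_inner] at h1
    rw [h1]
    simp
  · rw [HilbertBasis.coe_mkOfOrthogonalEqBot]

theorem copies_flip (b : HilbertBasis ℕ ℂ H) :
    ∃ F : KK H ≃ₗᵢ[ℂ] KK H, ∀ f n j, inner ℂ (b j) ((F f) n) = inner ℂ (b n) (f j) := by
  obtain ⟨B, hB⟩ := copies_basisK b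
  obtain ⟨B', hB'⟩ := copies_reindex B (Equiv.prodComm ℕ ℕ)
  refine ⟨B.repr.trans B'.repr.symm, fun f n j => ?_⟩
  have h1 : (B.repr.trans B'.repr.symm) (sg j (b n)) = sg n (b j) := by
    have h2 := hB (j, n)
    have h3 := hB' (j, n)
    rw [← h2]
    rw [LinearIsometryEquiv.trans_apply, B.repr_self, B'.repr_symm_single, h3]
    rw [hB]
    rfl
  have h4 := (B.repr.trans B'.repr.symm).inner_map_map (sg j (b n)) f
  rw [h1, sg_inner, sg_inner] at h4
  exact h4

theorem copies_unitary (b : HilbertBasis ℕ ℂ H) : Nonempty (KK H ≃ₗᵢ[ℂ] H) := by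
  obtain ⟨B, -⟩ := copies_basisK b
  obtain ⟨B', -⟩ := copies_reindex B Nat.pairEquiv.symm
  exact ⟨B'.repr.trans b.repr.symm⟩

theorem sg_norm (x : H) : ‖sg 0 x‖ = ‖x‖ :=
  lp.norm_single (E := fun _ : ℕ => H) (p := 2) (by norm_num) 0 x

theorem exists_Zs : ∃ Zs : H →L[ℂ] KK H, ∀ x, Zs x = sg 0 x := by
  let Z0 : H →ₗ[ℂ] KK H :=
    { toFun := sg 0
      map_add' := fun x y => by
        ext n
        rw [lp.coeFn_add, Pi.add_apply, sg_apply, sg_apply, sg_apply]
        split_ifs
        · rfl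
        · rw [add_zero]
      map_smul' := fun c x => by
        ext n
        rw [lp.coeFn_smul, Pi.smul_apply, sg_apply, sg_apply]
        split_ifs
        · rfl
        · rw [smul_zero] }
  refine ⟨Z0.mkContinuous 1 (fun x => ?_), fun x => rfl⟩
  rw [one_mul]
  exact (sg_norm x).le
noncomputable def rk1 (x y : H) : H →L[ℂ] H := (innerSL ℂ x).smulRight y

theorem rk1_apply (x y z : H) : rk1 x y z = inner ℂ x z • y := rfl

theorem rk1_norm {x y : H} (hx : ‖x‖ = 1) (hy : ‖y‖ = 1) : ‖rk1 x y‖ ≤ 1 := by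
  refine ContinuousLinearMap.opNorm_le_bound _ zero_le_one (fun z => ?_)
  rw [rk1_apply, norm_smul, hy, mul_one, one_mul]
  have := norm_inner_le_norm (𝕜 := ℂ) x z
  rwa [hx, one_mul] at this
theorem copies [TopologicalSpace.SeparableSpace H] (hinf : ¬ FiniteDimensional ℂ H) :
    ∃ (L R : (H →L[ℂ] H) →ₐ[ℂ] (H →L[ℂ] H)) (W W' : ℕ → (H →L[ℂ] H)) (e Z Z' : H →L[ℂ] H),
      (∀ S T, L S * R T = R T * L S) ∧ (∀ n, ‖W n‖ ≤ 1) ∧ (∀ n, ‖W' n‖ ≤ 1) ∧ ‖e‖ ≤ 1 ∧
      (∀ m n, W' m * W n = if m = n then e else 0) ∧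
      (∀ T, Z' * (L e * R T) * Z = T) := by
  classical
  obtain ⟨b⟩ := copies_hb hinf
  obtain ⟨F, hF⟩ := copies_flip b
  obtain ⟨u⟩ := copies_unitary b
  obtain ⟨B, hB⟩ := copies_basisK b
  have hFs : ∀ n x m, (F (sg n x)) m = inner ℂ (b m) x • b n := by
    intro n x m
    apply b.repr.injective
    ext j
    rw [b.repr_apply_apply, b.repr_apply_apply, hF, sg_apply, inner_smul_right,
      orthonormal_iff_ite.1 b.orthonormal]
    by_cases h : j = n
    · rw [if_pos h, if_pos h, mul_one]
    · rw [if_neg h, if_neg h, inner_zero_right, mul_zero]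
  have hFF : ∀ f, F (F f) = f := by
    intro f
    apply KK_ext b
    intro n j
    rw [hF, hF]
  have hFsymm : ∀ f, F.symm f = F f := by
    intro f
    rw [LinearIsometryEquiv.symm_apply_eq, hFF]
  set cF := F.toContinuousLinearEquiv.conjContinuousAlgEquiv with hcF
  set cu := u.toContinuousLinearEquiv.conjContinuousAlgEquiv with hcu
  have hcF' : ∀ (X : KK H →L[ℂ] KK H) f, cF X f = F (X (F f)) := by
    intro X f
    show F (X (F.symm f)) = _
    rw [hFsymm]
  have hcomm : ∀ (S T : H →L[ℂ] H), cF (diagA S) * diagA T = diagA T * cF (diagA S) := by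
    intro S T
    refine ContinuousLinearMap.ext_on (s := Set.range B) ?_ ?_
    · rw [dense_iff_closure_eq, ← Submodule.topologicalClosure_coe, B.dense_span]
      rfl
    · rintro _ ⟨⟨i, j⟩, rfl⟩
      rw [hB]
      change cF (diagA S) (diagA T (sg i (b j))) = diagA T (cF (diagA S) (sg i (b j)))
      rw [hcF', hcF']
      have h1 : diagA T (sg i (b j)) = sg i (T (b j)) := by
        ext n
        rw [diagA_apply, sg_apply, sg_apply]
        split_ifs
        · rfl
        · exact map_zero T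
      have h2 : F (sg i (b j)) = sg j (b i) := by
        ext n
        rw [hFs, sg_apply, orthonormal_iff_ite.1 b.orthonormal]
        split_ifs
        · rw [one_smul]
        · rw [zero_smul]
      have h3 : diagA S (sg j (b i)) = sg j (S (b i)) := by
        ext n
        rw [diagA_apply, sg_apply, sg_apply]
        split_ifs
        · rfl
        · exact map_zero S
      rw [h1, h2, h3]
      apply KK_ext b
      intro k l
      rw [hF, diagA_apply, diagA_apply, hFs, hFs, map_smul, map_smul, inner_smul_right,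
        inner_smul_right, mul_comm]
  set W : ℕ → (H →L[ℂ] H) := fun n => rk1 (b 0) (b n) with hW
  set W' : ℕ → (H →L[ℂ] H) := fun n => rk1 (b n) (b 0) with hW'
  obtain ⟨Zs, hZs'⟩ := exists_Zs (H := H)
  have hbn : ∀ n, ‖b n‖ = 1 := fun n => b.orthonormal.1 n
  refine ⟨(cu.toAlgEquiv.toAlgHom.comp cF.toAlgEquiv.toAlgHom).comp diagA,
    cu.toAlgEquiv.toAlgHom.comp diagA, W, W', W 0,
    (u.toContinuousLinearEquiv : KK H →L[ℂ] H) ∘L Zs,
    (lp.evalCLM ℂ (fun _ : ℕ => H) 2 0) ∘L (u.symm.toContinuousLinearEquiv : H →L[ℂ] KK H),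
    ?_, ?_, ?_, ?_, ?_, ?_⟩
  · intro S T
    change cu (cF (diagA S)) * cu (diagA T) = cu (diagA T) * cu (cF (diagA S))
    rw [← map_mul, ← map_mul, hcomm]
  · exact fun n => rk1_norm (hbn 0) (hbn n)
  · exact fun n => rk1_norm (hbn n) (hbn 0)
  · exact rk1_norm (hbn 0) (hbn 0)
  · intro m n
    ext x
    change rk1 (b m) (b 0) (rk1 (b 0) (b n) x) = _
    rw [rk1_apply, rk1_apply]
    rw [inner_smul_right, orthonormal_iff_ite.1 b.orthonormal]
    by_cases h : m = n
    · rw [if_pos h, if_pos h, mul_one]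
      change _ = rk1 (b 0) (b 0) x
      rw [rk1_apply]
    · rw [if_neg h, if_neg h, mul_zero, zero_smul]
      rfl
  · intro T
    ext x
    change (u.symm (cu (cF (diagA (W 0))) (cu (diagA T) (u (Zs x))))) 0 = T x
    have h1 : cu (diagA T) (u (Zs x)) = u (diagA T (Zs x)) := by
      show u (diagA T (u.symm (u (Zs x)))) = _
      rw [LinearIsometryEquiv.symm_apply_apply]
    have h2 : ∀ (X : KK H →L[ℂ] KK H) f, u.symm (cu X (u f)) = X f := by
      intro X f
      show u.symm (u (X (u.symm (u f)))) = _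
      rw [LinearIsometryEquiv.symm_apply_apply, LinearIsometryEquiv.symm_apply_apply]
    rw [h1, h2, hcF', hZs']
    have h3 : diagA T (sg 0 x) = sg 0 (T x) := by
      ext n
      rw [diagA_apply, sg_apply, sg_apply]
      split_ifs
      · rfl
      · exact map_zero T
    have h4 : diagA (W 0) (F (sg 0 (T x))) = F (sg 0 (T x)) := by
      ext n
      rw [diagA_apply, hFs, map_smul]
      congr 1
      change rk1 (b 0) (b 0) (b 0) = b 0
      rw [rk1_apply, orthonormal_iff_ite.1 b.orthonormal, if_pos rfl, one_smul]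
    rw [h3, h4, hFF, sg_apply, if_pos rfl]

end JA

end Pool.Agent.Helper280.GI
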