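import Mathlib
import Pool.Agent.Helper280.GI.Basic

set_option autoImplicit false

namespace Pool.Agent.Helper280.GI



section FlabbyAux

variable {H : Type*} [NormedAddCommGroup H] [InnerProductSpace ℂ H] [CompleteSpace H]

theorem exists_orthFam (hinf : ¬ FiniteDimensional ℂ H) :
    ∃ V : ℕ → (H →ₗᵢ[ℂ] H), OrthogonalFamily ℂ (fun _ : ℕ => H) V := by
  classical
  obtain ⟨w, b, hb⟩ := exists_hilbertBasis ℂ H
  have hw : Infinite w := by
    by_contra hfin
    rw [not_infinite_iff_finite] at hfin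
    have := Fintype.ofFinite w
    exact hinf (Module.Finite.of_basis b.toOrthonormalBasis.toBasis)
  obtain ⟨e⟩ : Nonempty (ℕ × w ≃ w) := by
    rw [← Cardinal.eq]
    simp [Cardinal.mk_prod, Cardinal.aleph0_mul_eq (Cardinal.aleph0_le_mk w)]
  have horth : ∀ n : ℕ, Orthonormal ℂ (fun j : w => b (e (n, j))) := fun n =>
    b.orthonormal.comp _ (fun j k h => (Prod.mk.inj (e.injective h)).2)
  obtain ⟨V, hV⟩ : ∃ V : ℕ → (H →ₗᵢ[ℂ] H), ∀ n x,
      HasSum (fun k => b.repr x k • b (e (n, k))) (V n x) := by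
    refine ⟨fun n => ((horth n).orthogonalFamily.linearIsometry).comp
      b.repr.toLinearIsometry, fun n x => ?_⟩
    have := (horth n).orthogonalFamily.hasSum_linearIsometry (b.repr x)
    simpa using this
  refine ⟨V, ?_⟩
  have h1 : ∀ (n m : ℕ) (k : w) (y : H), n ≠ m → inner ℂ (b (e (n, k))) (V m y) = 0 := by
    intro n m k y hnm
    have hs := (hV m y).mapL (innerSL ℂ (b (e (n, k))))
    simp only [innerSL_apply_apply, inner_smul_right] at hs
    have hz : ∀ j, inner ℂ (b (e (n, k))) (b (e (m, j))) = 0 := by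
      intro j
      apply b.orthonormal.2
      intro h
      exact hnm (Prod.mk.inj (e.injective h)).1
    simp only [hz, mul_zero] at hs
    exact hs.unique hasSum_zero
  intro m n hmn y x
  have hs := (hV n x).mapL (innerSL ℂ (V m y))
  simp only [innerSL_apply_apply, inner_smul_right] at hs
  have hz : ∀ k, inner ℂ (V m y) (b (e (n, k))) = 0 := by
    intro k
    rw [← inner_conj_symm, h1 n m k y hmn.symm, map_zero]
  simp only [hz, mul_zero] at hs
  exact hs.unique hasSum_zero

omit [CompleteSpace H] in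
theorem exists_diag (S : ℕ → (H →L[ℂ] H)) (hS : ∀ n, ‖S n‖ ≤ 1) :
    ∃ D : lp (fun _ : ℕ => H) 2 →L[ℂ] lp (fun _ : ℕ => H) 2, ‖D‖ ≤ 1 ∧
      ∀ n x, D (lp.single 2 n x) = lp.single 2 n (S n x) := by
  have h2 : (0 : ℝ) < (2 : ENNReal).toReal := by norm_num
  have hle : ∀ (x : lp (fun _ : ℕ => H) 2) (n : ℕ),
      ‖S n (x n)‖ ^ (2 : ENNReal).toReal ≤ ‖x n‖ ^ (2 : ENNReal).toReal := by
    intro x n
    apply Real.rpow_le_rpow (norm_nonneg _) _ h2.le
    calc ‖S n (x n)‖ ≤ ‖S n‖ * ‖x n‖ := (S n).le_opNorm _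
      _ ≤ 1 * ‖x n‖ := by gcongr; exact hS n
      _ = ‖x n‖ := one_mul _
  have hmem : ∀ x : lp (fun _ : ℕ => H) 2, Memℓp (fun n => S n (x n)) 2 := by
    intro x
    apply memℓp_gen
    exact Summable.of_nonneg_of_le (fun n => by positivity) (hle x) ((lp.memℓp x).summable h2)
  refine ⟨LinearMap.mkContinuous
    { toFun := fun x => (⟨fun n => S n (x n), hmem x⟩ : lp (fun _ : ℕ => H) 2)
      map_add' := ?_
      map_smul' := ?_ } 1 ?_, ?_, ?_⟩
  · intro x y
    ext n
    simp
  · intro c x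
    ext n
    simp
  · intro x
    rw [one_mul]
    apply lp.norm_le_of_tsum_le h2 (norm_nonneg _)
    rw [lp.norm_rpow_eq_tsum h2 x]
    exact Summable.tsum_le_tsum (hle x) ((hmem x).summable h2) ((lp.memℓp x).summable h2)
  · exact LinearMap.mkContinuous_norm_le _ zero_le_one _
  · intro n x
    ext m
    rw [LinearMap.mkContinuous_apply]
    show S m ((lp.single 2 n x : lp (fun _ : ℕ => H) 2) m) = _
    rw [lp.single_apply, lp.single_apply]
    by_cases h : m = n
    · subst h; simp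
    · simp [h]

theorem adjoint_comp_isometry {K L : Type*} [NormedAddCommGroup K] [InnerProductSpace ℂ K]
    [CompleteSpace K] [NormedAddCommGroup L] [InnerProductSpace ℂ L] [CompleteSpace L]
    (U : K →ₗᵢ[ℂ] L) (x : K) :
    ContinuousLinearMap.adjoint U.toContinuousLinearMap (U x) = x := by
  apply ext_inner_right ℂ
  intro y
  rw [ContinuousLinearMap.adjoint_inner_left]
  exact U.inner_map_map x y

theorem exists_transport {V W : ℕ → (H →ₗᵢ[ℂ] H)}
    (hV : OrthogonalFamily ℂ (fun _ : ℕ => H) V) (hW : OrthogonalFamily ℂ (fun _ : ℕ => H) W)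
    (S : ℕ → (H →L[ℂ] H)) (hS : ∀ n, ‖S n‖ ≤ 1) :
    ∃ T : H →L[ℂ] H, ‖T‖ ≤ 1 ∧ ∀ n x, T (V n x) = W n (S n x) := by
  obtain ⟨D, hD, hD2⟩ := exists_diag S hS
  refine ⟨hW.linearIsometry.toContinuousLinearMap ∘L D ∘L
    ContinuousLinearMap.adjoint hV.linearIsometry.toContinuousLinearMap, ?_, ?_⟩
  · refine (ContinuousLinearMap.opNorm_comp_le _ _).trans ?_
    have h1 : ‖hW.linearIsometry.toContinuousLinearMap‖ ≤ 1 :=
      LinearIsometry.norm_toContinuousLinearMap_le _
    have h2 : ‖hV.linearIsometry.toContinuousLinearMap‖ ≤ 1 :=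
      LinearIsometry.norm_toContinuousLinearMap_le _
    have h3 : ‖D ∘L ContinuousLinearMap.adjoint hV.linearIsometry.toContinuousLinearMap‖ ≤ 1 := by
      refine (ContinuousLinearMap.opNorm_comp_le _ _).trans ?_
      rw [LinearIsometryEquiv.norm_map]
      exact mul_le_one₀ hD (norm_nonneg _) h2
    exact mul_le_one₀ h1 (norm_nonneg _) h3
  · intro n x
    have e1 : V n x = hV.linearIsometry (lp.single 2 n x) := by
      rw [hV.linearIsometry_apply_single]
    rw [ContinuousLinearMap.comp_apply, ContinuousLinearMap.comp_apply, e1,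
      adjoint_comp_isometry, hD2]
    show hW.linearIsometry (lp.single 2 n (S n x)) = _
    rw [hW.linearIsometry_apply_single]

end FlabbyAux

section JA
variable {H : Type*} [NormedAddCommGroup H] [InnerProductSpace ℂ H] [CompleteSpace H]

theorem flabby [TopologicalSpace.SeparableSpace H] (hinf : ¬ FiniteDimensional ℂ H) :
    ∃ P P' Q Q' : H →L[ℂ] H, ‖P‖ ≤ 1 ∧ ‖P'‖ ≤ 1 ∧ ‖Q‖ ≤ 1 ∧ ‖Q'‖ ≤ 1 ∧
      ∀ S : ℕ → (H →L[ℂ] H), (∀ n, ‖S n‖ ≤ 1) →
        ∃ T : H →L[ℂ] H, ‖T‖ ≤ 1 ∧ ∀ n, Q' * P' ^ n * T * P ^ n * Q = S n := by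
  obtain ⟨V, hV⟩ := exists_orthFam (H := H) hinf
  have hV' : OrthogonalFamily ℂ (fun _ : ℕ => H) (fun n => V (n + 1)) := by
    intro i j hij x y
    exact hV (fun h => hij (Nat.succ_injective h)) x y
  obtain ⟨P, hP, hP2⟩ := exists_transport hV hV' (fun _ => ContinuousLinearMap.id ℂ H)
    (fun _ => ContinuousLinearMap.norm_id_le)
  have hQn : ‖(V 0).toContinuousLinearMap‖ ≤ 1 := LinearIsometry.norm_toContinuousLinearMap_le _
  refine ⟨P, ContinuousLinearMap.adjoint P, (V 0).toContinuousLinearMap,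
    ContinuousLinearMap.adjoint (V 0).toContinuousLinearMap, hP, ?_, hQn, ?_, ?_⟩
  · rw [LinearIsometryEquiv.norm_map]; exact hP
  · rw [LinearIsometryEquiv.norm_map]; exact hQn
  · intro S hS
    obtain ⟨T, hT, hT2⟩ := exists_transport hV hV S hS
    refine ⟨T, hT, fun n => ?_⟩
    have hPn : ∀ (n : ℕ) (x : H), (P ^ n) (V 0 x) = V n x := by
      intro n x
      induction n with
      | zero => rfl
      | succ n ih =>
        rw [pow_succ', ContinuousLinearMap.mul_apply, ih, hP2]
        rfl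
    have hPn' : ∀ (n : ℕ) (x y : H), inner ℂ ((ContinuousLinearMap.adjoint P ^ n) x) y
        = inner ℂ x ((P ^ n) y) := by
      intro n
      induction n with
      | zero => intro x y; rfl
      | succ n ih =>
        intro x y
        rw [pow_succ, ContinuousLinearMap.mul_apply, ih, ContinuousLinearMap.adjoint_inner_left,
          pow_succ', ContinuousLinearMap.mul_apply]
    apply ContinuousLinearMap.ext
    intro x
    apply ext_inner_right ℂ
    intro y
    simp only [ContinuousLinearMap.mul_apply]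
    rw [ContinuousLinearMap.adjoint_inner_left, hPn']
    show inner ℂ (T ((P ^ n) (V 0 x))) ((P ^ n) (V 0 y)) = _
    rw [hPn, hPn, hT2]
    exact (V n).inner_map_map _ _


end JA

end Pool.Agent.Helper280.GI
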