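import Mathlib
import Pool.Agent.Helper280.GI.Basic

set_option autoImplicit false

namespace Pool.Agent.Helper280.GI



section JA
variable {H : Type*} [NormedAddCommGroup H] [InnerProductSpace ℂ H] [CompleteSpace H]

/-- twisted ampliation -/
def Phi (τ τ' : Fin 2 → (H →L[ℂ] H)) (x : H →L[ℂ] H) : H →L[ℂ] H :=
  τ 0 * x * τ' 0 + τ 1 * x * τ' 1

theorem phi_mul {τ τ' : Fin 2 → (H →L[ℂ] H)}
    (h : ∀ i j, FR (τ' i * τ j - if i = j then 1 else 0)) :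
    ∃ c : ℕ, ∀ m n x y, RK m (Phi τ τ' x - x) → RK n (Phi τ τ' y - y) →
      RK (m + n + c) (Phi τ τ' (x * y) - x * y) := by
  obtain ⟨k00, h00⟩ := fr_iff.1 (h 0 0)
  obtain ⟨k01, h01⟩ := fr_iff.1 (h 0 1)
  obtain ⟨k10, h10⟩ := fr_iff.1 (h 1 0)
  obtain ⟨k11, h11⟩ := fr_iff.1 (h 1 1)
  simp only [if_true, Fin.isValue, zero_ne_one, one_ne_zero, if_false, sub_zero] at h00 h01 h10 h11
  refine ⟨k00 + k01 + k10 + k11, ?_⟩
  intro m n x y hx hy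
  have key : Phi τ τ' (x * y) - x * y = ((Phi τ τ' x - x) * Phi τ τ' y + x * (Phi τ τ' y - y)) -
      (τ 0 * x * (τ' 0 * τ 0 - 1) * (y * τ' 0) + τ 0 * x * (τ' 0 * τ 1) * (y * τ' 1) +
        τ 1 * x * (τ' 1 * τ 0) * (y * τ' 0) + τ 1 * x * (τ' 1 * τ 1 - 1) * (y * τ' 1)) := by
    unfold Phi
    noncomm_ring
  rw [key]
  refine RK.sub (RK.add (hx.mul_right _) (hy.mul_left _)) (RK.add (RK.add (RK.add ?_ ?_) ?_) ?_)
  · exact (h00.mul_left _).mul_right _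
  · exact (h01.mul_left _).mul_right _
  · exact (h10.mul_left _).mul_right _
  · exact (h11.mul_left _).mul_right _

theorem phi_fin {τ τ' : Fin 2 → (H →L[ℂ] H)}
    (h : ∀ i j, FR (τ' i * τ j - if i = j then 1 else 0)) :
    ∃ c : ℕ, ∀ n x, FR x → RK n (Phi τ τ' x - x) → RK (n + c) x := by
  obtain ⟨k00, h00⟩ := fr_iff.1 (h 0 0)
  obtain ⟨k01, h01⟩ := fr_iff.1 (h 0 1)
  obtain ⟨k10, h10⟩ := fr_iff.1 (h 1 0)
  obtain ⟨k11, h11⟩ := fr_iff.1 (h 1 1)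
  simp only [if_true, Fin.isValue, zero_ne_one, one_ne_zero, if_false, sub_zero] at h00 h01 h10 h11
  refine ⟨2 * (k00 + k01 + k10 + k11), ?_⟩
  intro n x hx hn
  obtain ⟨K, hK⟩ : ∃ K, K = k00 + k01 + k10 + k11 := ⟨_, rfl⟩
  rw [← hK]
  let U : H × H →ₗ[ℂ] H := LinearMap.coprod (τ 0 : H →ₗ[ℂ] H) (τ 1 : H →ₗ[ℂ] H)
  let U' : H →ₗ[ℂ] H × H := LinearMap.prod (τ' 0 : H →ₗ[ℂ] H) (τ' 1 : H →ₗ[ℂ] H)
  let X : H × H →ₗ[ℂ] H × H := LinearMap.prodMap (x : H →ₗ[ℂ] H) (x : H →ₗ[ℂ] H)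
  let f00 : H →ₗ[ℂ] H := ((τ' 0 * τ 0 - 1 : H →L[ℂ] H) : H →ₗ[ℂ] H)
  let f01 : H →ₗ[ℂ] H := ((τ' 0 * τ 1 : H →L[ℂ] H) : H →ₗ[ℂ] H)
  let f10 : H →ₗ[ℂ] H := ((τ' 1 * τ 0 : H →L[ℂ] H) : H →ₗ[ℂ] H)
  let f11 : H →ₗ[ℂ] H := ((τ' 1 * τ 1 - 1 : H →L[ℂ] H) : H →ₗ[ℂ] H)
  let D : H × H →ₗ[ℂ] H × H :=
    LinearMap.inl ℂ H H ∘ₗ (f00 ∘ₗ LinearMap.fst ℂ H H) +
    LinearMap.inl ℂ H H ∘ₗ (f01 ∘ₗ LinearMap.snd ℂ H H) +
    LinearMap.inr ℂ H H ∘ₗ (f10 ∘ₗ LinearMap.fst ℂ H H) +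
    LinearMap.inr ℂ H H ∘ₗ (f11 ∘ₗ LinearMap.snd ℂ H H)
  have hD : RKL K D := by
    rw [hK]
    refine RKL.add (RKL.add (RKL.add ?_ ?_) ?_) ?_
    · exact RKL.comp_left (RKL.comp_right h00 _) _
    · exact RKL.comp_left (RKL.comp_right h01 _) _
    · exact RKL.comp_left (RKL.comp_right h10 _) _
    · exact RKL.comp_left (RKL.comp_right h11 _) _
  have hUU : U' ∘ₗ U = LinearMap.id + D := by
    apply LinearMap.ext
    rintro ⟨a, b⟩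
    simp only [U, U', D, f00, f01, f10, f11, LinearMap.comp_apply, LinearMap.coprod_apply,
      LinearMap.prod_apply, Pi.prod, LinearMap.add_apply, LinearMap.id_apply,
      LinearMap.inl_apply, LinearMap.inr_apply, LinearMap.fst_apply, LinearMap.snd_apply,
      ContinuousLinearMap.coe_coe, ContinuousLinearMap.sub_apply, ContinuousLinearMap.mul_apply,
      ContinuousLinearMap.one_apply, map_add, Prod.mk_add_mk]
    ext
    · simp; try abel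
    · simp; try abel
  have hPhi : ((Phi τ τ' x : H →L[ℂ] H) : H →ₗ[ℂ] H) = U ∘ₗ X ∘ₗ U' := by
    apply LinearMap.ext
    intro a
    simp [U, U', X, Phi]
  have hX : X = U' ∘ₗ ((Phi τ τ' x : H →L[ℂ] H) : H →ₗ[ℂ] H) ∘ₗ U -
      (D ∘ₗ (X ∘ₗ (U' ∘ₗ U)) + X ∘ₗ D) := by
    rw [hPhi]
    have e1 : U' ∘ₗ (U ∘ₗ X ∘ₗ U') ∘ₗ U = (U' ∘ₗ U) ∘ₗ X ∘ₗ (U' ∘ₗ U) := by
      simp only [LinearMap.comp_assoc]
    rw [e1, hUU]
    simp only [LinearMap.add_comp, LinearMap.comp_add, LinearMap.id_comp, LinearMap.comp_id]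
    abel
  have hr := hx
  unfold FR at hr
  obtain ⟨r, hrr⟩ : ∃ r, r = Module.finrank ℂ (LinearMap.range (x : H →ₗ[ℂ] H)) := ⟨_, rfl⟩
  have hxr : RK r x := by
    unfold RK
    rw [rkl_iff_finrank]
    exact ⟨hr, hrr.ge⟩
  have hP : RK (n + r) (Phi τ τ' x) := by
    have := hn.add hxr
    rwa [sub_add_cancel] at this
  have hXr : RKL ((n + r) + (K + K)) X := by
    rw [hX]
    refine RKL.sub (RKL.comp_left (RKL.comp_right hP _) _) (RKL.add ?_ ?_)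
    · exact RKL.comp_right hD _
    · exact RKL.comp_left hD _
  rw [rkl_iff_finrank] at hXr
  have hfr : Module.finrank ℂ (LinearMap.range X) = r + r := by
    have e1 : LinearMap.range X = (LinearMap.range (x : H →ₗ[ℂ] H)).prod
        (LinearMap.range (x : H →ₗ[ℂ] H)) := LinearMap.range_prodMap _ _
    rw [e1]
    let R : Submodule ℂ H := LinearMap.range (x : H →ₗ[ℂ] H)
    let e : (R.prod R) ≃ₗ[ℂ] R × R :=
      { toFun := fun z => (⟨z.1.1, z.2.1⟩, ⟨z.1.2, z.2.2⟩)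
        map_add' := fun _ _ => rfl
        map_smul' := fun _ _ => rfl
        invFun := fun w => ⟨(w.1.1, w.2.1), ⟨w.1.2, w.2.2⟩⟩
        left_inv := fun _ => rfl
        right_inv := fun _ => rfl }
    have e2 : Module.finrank ℂ (R.prod R) = Module.finrank ℂ (R × R) := e.finrank_eq
    have e3 : FiniteDimensional ℂ R := hr
    have e4 : Module.finrank ℂ R = r := hrr.symm
    change Module.finrank ℂ (R.prod R) = r + r
    rw [e2, Module.finrank_prod, e4]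
  unfold RK
  rw [rkl_iff_finrank]
  refine ⟨hr, ?_⟩
  rw [← hrr]
  have := hXr.2
  omega


end JA

end Pool.Agent.Helper280.GI
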