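import Mathlib
import Pool.Agent.Helper280.GI.Basic

set_option autoImplicit false

namespace Pool.Agent.Helper280.GI



section JA
variable {H : Type*} [NormedAddCommGroup H] [InnerProductSpace ℂ H] [CompleteSpace H]

theorem ultralim (U : Ultrafilter ℕ) (y : ℕ → (H →L[ℂ] H)) (C : ℝ) (hC : ∀ k, ‖y k‖ ≤ C) :
    ∃ S : H →L[ℂ] H, ‖S‖ ≤ C ∧ ∀ ξ η : H,
      Filter.Tendsto (fun k => inner ℂ η (y k ξ)) (U : Filter ℕ) (nhds (inner ℂ η (S ξ))) := by
  have hC0 : 0 ≤ C := (norm_nonneg _).trans (hC 0)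
  have hlim : ∀ ξ η : H, ∃ z : ℂ, ‖z‖ ≤ C * ‖ξ‖ * ‖η‖ ∧
      Filter.Tendsto (fun k => inner ℂ (y k ξ) η) (U : Filter ℕ) (nhds z) := by
    intro ξ η
    have hmem : ∀ k, inner ℂ (y k ξ) η ∈ Metric.closedBall (0 : ℂ) (C * ‖ξ‖ * ‖η‖) := by
      intro k
      rw [mem_closedBall_zero_iff]
      calc ‖inner ℂ (y k ξ) η‖ ≤ ‖y k ξ‖ * ‖η‖ := norm_inner_le_norm _ _
        _ ≤ (‖y k‖ * ‖ξ‖) * ‖η‖ := by gcongr; exact (y k).le_opNorm ξ
        _ ≤ C * ‖ξ‖ * ‖η‖ := by gcongr; exact hC k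
    obtain ⟨z, hz, hle⟩ := (isCompact_closedBall (0 : ℂ) (C * ‖ξ‖ * ‖η‖)).ultrafilter_le_nhds
      (U.map fun k => inner ℂ (y k ξ) η) (by
        rw [Filter.le_principal_iff]
        change {k | inner ℂ (y k ξ) η ∈ Metric.closedBall (0 : ℂ) (C * ‖ξ‖ * ‖η‖)} ∈ (U : Filter ℕ)
        exact Filter.univ_mem' hmem)
    rw [mem_closedBall_zero_iff] at hz
    exact ⟨z, hz, hle⟩
  choose b hb1 hb2 using hlim
  have huniq : ∀ (ξ η : H) (z : ℂ),
      Filter.Tendsto (fun k => inner ℂ (y k ξ) η) (U : Filter ℕ) (nhds z) → b ξ η = z :=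
    fun ξ η z hz => tendsto_nhds_unique (hb2 ξ η) hz
  let B0 : H →ₛₗ[starRingEnd ℂ] H →ₗ[ℂ] ℂ :=
    LinearMap.mk₂'ₛₗ (starRingEnd ℂ) (RingHom.id ℂ) b
      (fun ξ ξ' η => huniq _ _ _ (by
        have h1 := (hb2 ξ η).add (hb2 ξ' η)
        refine h1.congr fun k => ?_
        rw [map_add, inner_add_left]))
      (fun c ξ η => huniq _ _ _ (by
        have h1 := (hb2 ξ η).const_mul (starRingEnd ℂ c)
        refine h1.congr fun k => ?_
        rw [map_smul, inner_smul_left]))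
      (fun ξ η η' => huniq _ _ _ (by
        have h1 := (hb2 ξ η).add (hb2 ξ η')
        refine h1.congr fun k => ?_
        rw [inner_add_right]))
      (fun c ξ η => huniq _ _ _ (by
        have h1 := (hb2 ξ η).const_mul c
        refine h1.congr fun k => ?_
        rw [inner_smul_right]))
  let B : H →L⋆[ℂ] H →L[ℂ] ℂ := B0.mkContinuous₂ C (fun ξ η => hb1 ξ η)
  have hB : ∀ ξ η, inner ℂ (InnerProductSpace.continuousLinearMapOfBilin B ξ) η = b ξ η := by
    intro ξ η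
    rw [InnerProductSpace.continuousLinearMapOfBilin_apply]
    rfl
  refine ⟨InnerProductSpace.continuousLinearMapOfBilin B, ?_, ?_⟩
  · refine ContinuousLinearMap.opNorm_le_bound _ hC0 fun ξ => ?_
    set v := InnerProductSpace.continuousLinearMapOfBilin B ξ with hv
    have h1 : ‖v‖ * ‖v‖ ≤ C * ‖ξ‖ * ‖v‖ := by
      have h2 : ‖inner ℂ v v‖ = ‖v‖ * ‖v‖ := by
        rw [inner_self_eq_norm_sq_to_K, norm_pow, sq]
        simp
      rw [← h2, hv, hB ξ]
      exact hb1 ξ _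
    rcases (norm_nonneg v).eq_or_lt with h | h
    · rw [← h]
      positivity
    · exact le_of_mul_le_mul_right h1 h
  · intro ξ η
    have h1 := hb2 ξ η
    rw [← hB ξ η] at h1
    have h2 := (Complex.continuous_conj.tendsto _).comp h1
    rw [inner_conj_symm] at h2
    refine h2.congr fun k => ?_
    exact inner_conj_symm _ _


end JA

end Pool.Agent.Helper280.GI
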