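import Mathlib
import Pool.Agent.Helper280.GI.Basic

set_option autoImplicit false

namespace Pool.Agent.Helper280.GI



section JA
variable {H : Type*} [NormedAddCommGroup H] [InnerProductSpace ℂ H] [CompleteSpace H]

theorem wot_diff [TopologicalSpace.SeparableSpace H] (w : ℕ → (H →L[ℂ] H)) (C : ℝ)
    (hw : ∀ n, ‖w n‖ ≤ C) :
    ∃ p q : ℕ → ℕ, (∀ k, p k ≠ q k) ∧
      ∀ x y : H, Filter.Tendsto (fun k => inner ℂ y ((w (p k) - w (q k)) x)) Filter.atTop
        (nhds 0) := by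
  classical
  have hC : 0 ≤ C := (norm_nonneg _).trans (hw 0)
  let D : ℕ → H := TopologicalSpace.denseSeq H
  have hD : DenseRange D := TopologicalSpace.denseRange_denseSeq H
  let s : ℕ → (ℕ × ℕ → ℂ) := fun n p => inner ℂ (D p.2) (w n (D p.1))
  let K : Set (ℕ × ℕ → ℂ) :=
    Set.pi Set.univ fun p => Metric.closedBall (0:ℂ) (C * ‖D p.1‖ * ‖D p.2‖)
  have hK : IsCompact K := isCompact_univ_pi fun p => isCompact_closedBall _ _
  have hs : ∀ n, s n ∈ K := by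
    intro n p _
    rw [mem_closedBall_zero_iff]
    calc ‖inner ℂ (D p.2) (w n (D p.1))‖ ≤ ‖D p.2‖ * ‖w n (D p.1)‖ := norm_inner_le_norm _ _
      _ ≤ ‖D p.2‖ * (C * ‖D p.1‖) :=
        mul_le_mul_of_nonneg_left ((w n).le_of_opNorm_le (hw n) _) (norm_nonneg _)
      _ = _ := by ring
  obtain ⟨a, -, φ, hφ, hlim⟩ := hK.tendsto_subseq hs
  refine ⟨φ, fun k => φ (k+1), fun k => (hφ (Nat.lt_succ_self k)).ne, ?_⟩
  have h1 : ∀ i j, Filter.Tendsto (fun k => inner ℂ (D j) ((w (φ k) - w (φ (k+1))) (D i)))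
      Filter.atTop (nhds 0) := by
    intro i j
    have h2 := (tendsto_pi_nhds.mp hlim) (i,j)
    have h3 := h2.comp (Filter.tendsto_add_atTop_nat 1)
    have h4 := h2.sub h3
    rw [sub_self] at h4
    refine h4.congr fun k => ?_
    simp [s, inner_sub_right]
  have hA : ∀ k z, ‖(w (φ k) - w (φ (k+1))) z‖ ≤ 2 * C * ‖z‖ := by
    intro k z
    refine (w (φ k) - w (φ (k+1))).le_of_opNorm_le ?_ z
    refine (norm_sub_le _ _).trans ?_
    linarith [hw (φ k), hw (φ (k+1))]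
  intro x y
  rw [Metric.tendsto_atTop]
  intro ε hε
  obtain ⟨j, hj⟩ := hD.exists_dist_lt y (show 0 < ε / (3 * (2 * C * ‖x‖ + 1)) by positivity)
  obtain ⟨i, hi⟩ := hD.exists_dist_lt x (show 0 < ε / (3 * (2 * C * ‖D j‖ + 1)) by positivity)
  obtain ⟨N, hN⟩ := Metric.tendsto_atTop.mp (h1 i j) (ε / 3) (by positivity)
  refine ⟨N, fun k hk => ?_⟩
  have h3 := hN k hk
  rw [dist_zero_right] at h3 ⊢
  rw [dist_eq_norm, lt_div_iff₀ (by positivity)] at hj hi
  have e : inner ℂ y ((w (φ k) - w (φ (k+1))) x)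
      = inner ℂ (y - D j) ((w (φ k) - w (φ (k+1))) x)
        + inner ℂ (D j) ((w (φ k) - w (φ (k+1))) (x - D i))
        + inner ℂ (D j) ((w (φ k) - w (φ (k+1))) (D i)) := by
    rw [map_sub, inner_sub_left, inner_sub_right]
    ring
  rw [e]
  have b1 : ‖inner ℂ (y - D j) ((w (φ k) - w (φ (k+1))) x)‖ ≤ ‖y - D j‖ * (2 * C * ‖x‖) :=
    (norm_inner_le_norm _ _).trans (mul_le_mul_of_nonneg_left (hA k x) (norm_nonneg _))
  have b2 : ‖inner ℂ (D j) ((w (φ k) - w (φ (k+1))) (x - D i))‖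
      ≤ ‖D j‖ * (2 * C * ‖x - D i‖) :=
    (norm_inner_le_norm _ _).trans (mul_le_mul_of_nonneg_left (hA k _) (norm_nonneg _))
  have b3 := norm_add₃_le (a := inner ℂ (y - D j) ((w (φ k) - w (φ (k+1))) x))
    (b := inner ℂ (D j) ((w (φ k) - w (φ (k+1))) (x - D i)))
    (c := inner ℂ (D j) ((w (φ k) - w (φ (k+1))) (D i)))
  have n1 := norm_nonneg (y - D j)
  have n2 := norm_nonneg (x - D i)
  nlinarith [b1, b2, b3, h3, hj, hi, n1, n2]


end JA

end Pool.Agent.Helper280.GI
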