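import Mathlib
import Pool.Agent.Helper280.GI.Basic

set_option autoImplicit false

namespace Pool.Agent.Helper280.GI

variable {H : Type*} [NormedAddCommGroup H] [InnerProductSpace ℂ H] [CompleteSpace H]

/-- Bergman type property of the unit ball of `B(H)`. -/
theorem lemG {P P' Q Q' : H →L[ℂ] H} (hP : ‖P‖ ≤ 1) (hP' : ‖P'‖ ≤ 1) (hQ : ‖Q‖ ≤ 1)
    (hQ' : ‖Q'‖ ≤ 1)
    (hfl : ∀ S : ℕ → (H →L[ℂ] H), (∀ n, ‖S n‖ ≤ 1) →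
        ∃ T : H →L[ℂ] H, ‖T‖ ≤ 1 ∧ ∀ n, Q' * P' ^ n * T * P ^ n * Q = S n)
    (F : ℕ → (H →L[ℂ] H) → Prop) (mono : ∀ m n S, m ≤ n → F m S → F n S)
    (cover : ∀ S, ‖S‖ ≤ 1 → ∃ n, F n S) (c : ℕ)
    (mul : ∀ m n S T, ‖S‖ ≤ 1 → ‖T‖ ≤ 1 → F m S → F n T → F (m + n + c) (S * T)) :
    ∃ n, ∀ S, ‖S‖ ≤ 1 → F n S := by
  have h1 : ‖(1 : H →L[ℂ] H)‖ ≤ 1 := ContinuousLinearMap.norm_id_le
  obtain ⟨k1, hk1⟩ := cover 1 h1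
  obtain ⟨k2, hk2⟩ := cover P hP
  obtain ⟨k3, hk3⟩ := cover P' hP'
  obtain ⟨k4, hk4⟩ := cover Q hQ
  obtain ⟨k5, hk5⟩ := cover Q' hQ'
  set m0 := k1 + k2 + k3 + k4 + k5 with hm0
  have g1 : F m0 1 := mono _ _ _ (by omega) hk1
  have g2 : F m0 P := mono _ _ _ (by omega) hk2
  have g3 : F m0 P' := mono _ _ _ (by omega) hk3
  have g4 : F m0 Q := mono _ _ _ (by omega) hk4
  have g5 : F m0 Q' := mono _ _ _ (by omega) hk5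
  have hmulb : ∀ S T : H →L[ℂ] H, ‖S‖ ≤ 1 → ‖T‖ ≤ 1 → ‖S * T‖ ≤ 1 := by
    intro S T hS hT
    calc ‖S * T‖ ≤ ‖S‖ * ‖T‖ := norm_mul_le _ _
      _ ≤ 1 * 1 := mul_le_mul hS hT (norm_nonneg _) zero_le_one
      _ = 1 := one_mul 1
  have hpow : ∀ (X : H →L[ℂ] H), ‖X‖ ≤ 1 → F m0 X → ∀ n, ‖X ^ n‖ ≤ 1 ∧ F (m0 + n * (m0 + c)) (X ^ n) := by
    intro X hX hFX n
    induction n with
    | zero => exact ⟨by simpa using h1, by simpa using g1⟩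
    | succ n ih =>
      refine ⟨?_, ?_⟩
      · rw [pow_succ]; exact hmulb _ _ ih.1 hX
      · rw [pow_succ]
        exact mono _ _ _ (by ring_nf; omega) (mul _ _ _ _ ih.1 hX ih.2 hFX)
  by_contra hcon
  push Not at hcon
  choose S hS1 hS2 using fun n => hcon (4 * m0 + 2 * (n * (m0 + c)) + n + 4 * c)
  obtain ⟨T, hT, hTS⟩ := hfl S hS1
  obtain ⟨m, hm⟩ := cover T hT
  apply hS2 m
  rw [← hTS m]
  have e1 := hpow P hP g2 m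
  have e2 := hpow P' hP' g3 m
  have f1 := mul _ _ _ _ hQ' e2.1 g5 e2.2
  have n1 := hmulb _ _ hQ' e2.1
  have f2 := mul _ _ _ _ n1 hT f1 hm
  have n2 := hmulb _ _ n1 hT
  have f3 := mul _ _ _ _ n2 e1.1 f2 e1.2
  have n3 := hmulb _ _ n2 e1.1
  have f4 := mul _ _ _ _ n3 hQ f3 g4
  exact mono _ _ _ (by omega) f4

end Pool.Agent.Helper280.GI
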