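import Mathlib
import Pool.Agent.Helper280.GI.Basic
import Pool.Agent.Helper280.GI.LemG
import Pool.Agent.Helper280.GI.JCopies
import Pool.Agent.Helper280.GI.JLeavitt
import Pool.Agent.Helper280.GI.JFlabby
import Pool.Agent.Helper280.GI.JPhi
import Pool.Agent.Helper280.GI.JWotdiff
import Pool.Agent.Helper280.GI.JUltralim
import Pool.Agent.Helper280.GI.JRkclosed

set_option autoImplicit false

namespace Pool.Agent.Helper280.GI

section Lf

variable {H : Type*} [NormedAddCommGroup H] [NormedSpace ℂ H]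
  {a : (H →L[ℂ] H) → (H →L[ℂ] H)}

/-- `x` is a lift of the value of the automorphism at the class of `y`. -/
def Lf (a : (H →L[ℂ] H) → (H →L[ℂ] H)) (x y : H →L[ℂ] H) : Prop := FR (x - a y)

lemma Lf.self (y : H →L[ℂ] H) : Lf a (a y) y := by
  unfold Lf; rw [sub_self]; exact FR.zero

lemma Lf.fr {x x' y : H →L[ℂ] H} (h : Lf a x y) (h' : Lf a x' y) : FR (x - x') :=
  FR.trans h (FR.sub_comm h')

lemma Lf.congr {x x' y : H →L[ℂ] H} (h : Lf a x y) (h' : FR (x' - x)) : Lf a x' y :=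
  FR.trans h' h

lemma Lf.mul (ha : NearAut a) {x x' y y' : H →L[ℂ] H} (h : Lf a x y) (h' : Lf a x' y') :
    Lf a (x * x') (y * y') :=
  FR.trans (FR.mul_congr h h') (FR.sub_comm (ha.mul y y'))

lemma Lf.add (ha : NearAut a) {x x' y y' : H →L[ℂ] H} (h : Lf a x y) (h' : Lf a x' y') :
    Lf a (x + x') (y + y') := by
  have e : (x + x') - (a y + a y') = (x - a y) + (x' - a y') := by abel
  have h1 : FR ((x + x') - (a y + a y')) := by rw [e]; exact FR.add h h'
  exact FR.trans h1 (FR.sub_comm (ha.add y y'))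

lemma Lf.smul (ha : NearAut a) (c : ℂ) {x y : H →L[ℂ] H} (h : Lf a x y) :
    Lf a (c • x) (c • y) := by
  have h1 : FR (c • x - c • a y) := by rw [← smul_sub]; exact FR.smul c h
  exact FR.trans h1 (FR.sub_comm (ha.smul c y))

lemma Lf.sub (ha : NearAut a) {x x' y y' : H →L[ℂ] H} (h : Lf a x y) (h' : Lf a x' y') :
    Lf a (x - x') (y - y') := by
  have := Lf.add ha h (Lf.smul ha (-1) h')
  simpa [sub_eq_add_neg] using this

lemma Lf.one (ha : NearAut a) : Lf a 1 1 := FR.sub_comm ha.one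

lemma Lf.zero (ha : NearAut a) : Lf a 0 0 := by
  have := (ha.fin 0).1 FR.zero
  unfold Lf
  simpa using this.neg

lemma Lf.fr_of_zero (ha : NearAut a) {x : H →L[ℂ] H} (h : Lf a x 0) : FR x := by
  have := Lf.fr h (Lf.zero ha)
  simpa using this

end Lf

section

variable {H : Type*} [NormedAddCommGroup H] [InnerProductSpace ℂ H] [CompleteSpace H]

lemma phi_sub (τ τ' : Fin 2 → (H →L[ℂ] H)) (x y : H →L[ℂ] H) :
    Phi τ τ' (x - y) - (x - y) = (Phi τ τ' x - x) - (Phi τ τ' y - y) := by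
  unfold Phi; noncomm_ring

lemma phi_smul (τ τ' : Fin 2 → (H →L[ℂ] H)) (c : ℂ) (x : H →L[ℂ] H) :
    Phi τ τ' (c • x) - (c • x) = c • (Phi τ τ' x - x) := by
  unfold Phi
  simp only [mul_smul_comm, smul_mul_assoc, smul_sub, smul_add]

lemma weak_fr {f : H →L[ℂ] H} (hf : FR f) {x : ℕ → H}
    (hx : ∀ y : H, Filter.Tendsto (fun k => inner ℂ y (x k)) Filter.atTop (nhds 0)) :
    Filter.Tendsto (fun k => f (x k)) Filter.atTop (nhds 0) := by
  have : FiniteDimensional ℂ (LinearMap.range (f : H →ₗ[ℂ] H)) := hf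
  let R := LinearMap.range (f : H →ₗ[ℂ] H)
  let e := stdOrthonormalBasis ℂ R
  have h1 : ∀ v : H, f v = ∑ i, (inner ℂ (ContinuousLinearMap.adjoint f (e i : H)) v) • (e i : H) := by
    intro v
    have hv : f v ∈ R := LinearMap.mem_range_self (f : H →ₗ[ℂ] H) v
    have h2 := e.sum_repr' (⟨f v, hv⟩ : R)
    have h3 := congrArg (Subtype.val) h2
    simp only [Submodule.coe_sum, Submodule.coe_smul, Submodule.coe_inner] at h3
    rw [← h3]
    refine Finset.sum_congr rfl fun i _ => ?_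
    rw [ContinuousLinearMap.adjoint_inner_left]
  have h4 : (fun k => f (x k)) = fun k => ∑ i, (inner ℂ (ContinuousLinearMap.adjoint f (e i : H)) (x k)) • (e i : H) := by
    funext k; exact h1 (x k)
  rw [h4]
  have h5 : (0 : H) = ∑ i, (0 : ℂ) • (e i : H) := by simp
  rw [h5]
  refine tendsto_finsetSum _ fun i _ => ?_
  exact (hx _).smul_const _

theorem exists_linear_lift [TopologicalSpace.SeparableSpace H] (hinf : ¬ FiniteDimensional ℂ H)
    {a : (H →L[ℂ] H) → (H →L[ℂ] H)} (ha : NearAut a) :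
    ∃ b : (H →L[ℂ] H) →L[ℂ] (H →L[ℂ] H), ∀ x, FR (b x - a x) := by
  obtain ⟨L, R, W, W', e, Z, Z', hcomm, hW, hW', he, hWW, hZ⟩ := copies (H := H) hinf
  obtain ⟨v, v', hv, hv1⟩ := leavitt (H := H) hinf
  obtain ⟨P, P', Q, Q', hP, hP', hQ, hQ', hfl⟩ := flabby (H := H) hinf
  set τ : Fin 2 → (H →L[ℂ] H) := fun i => a (R (v i)) with hτ
  set τ' : Fin 2 → (H →L[ℂ] H) := fun i => a (R (v' i)) with hτ'
  have hdef : ∀ i j, FR (τ' i * τ j - if i = j then 1 else 0) := by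
    intro i j
    have h1 : Lf a (τ' i * τ j) (R (v' i) * R (v j)) := Lf.mul ha (Lf.self _) (Lf.self _)
    rw [← map_mul, hv i j] at h1
    by_cases hij : i = j
    · rw [if_pos hij] at h1 ⊢
      rw [map_one] at h1
      exact Lf.fr h1 (Lf.one ha)
    · rw [if_neg hij] at h1 ⊢
      rw [map_zero] at h1
      exact Lf.fr h1 (Lf.zero ha)
  obtain ⟨cm, hcm⟩ := phi_mul hdef
  obtain ⟨cf, hcf⟩ := phi_fin hdef
  -- Phi of a lift of `L S` is a lift of `L S`
  have hPhi : ∀ x S, Lf a x (L S) → FR (Phi τ τ' x - x) := by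
    intro x S hx
    have h0 : Lf a (τ 0 * x * τ' 0) (R (v 0) * L S * R (v' 0)) :=
      Lf.mul ha (Lf.mul ha (Lf.self _) hx) (Lf.self _)
    have h1 : Lf a (τ 1 * x * τ' 1) (R (v 1) * L S * R (v' 1)) :=
      Lf.mul ha (Lf.mul ha (Lf.self _) hx) (Lf.self _)
    have h2 := Lf.add ha h0 h1
    have h3 : R (v 0) * L S * R (v' 0) + R (v 1) * L S * R (v' 1) = L S := by
      rw [← hcomm, ← hcomm, mul_assoc, mul_assoc, ← mul_add, ← map_mul, ← map_mul, ← map_add, hv1,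
        map_one, mul_one]
    rw [h3] at h2
    exact Lf.fr h2 hx
  -- normalised lifts
  obtain ⟨n0, hn0⟩ := lemG hP hP' hQ hQ' hfl
    (fun n S => ∃ x, Lf a x (L S) ∧ RK n (Phi τ τ' x - x) ∧ ‖x‖ ≤ 2 ^ n)
    (by
      rintro m n S hmn ⟨x, h1, h2, h3⟩
      exact ⟨x, h1, h2.mono hmn, h3.trans (pow_le_pow_right₀ (by norm_num) hmn)⟩)
    (by
      intro S _
      obtain ⟨m, hm⟩ := fr_iff.1 (hPhi _ S (Lf.self _))
      obtain ⟨n, hn⟩ := pow_unbounded_of_one_lt ‖a (L S)‖ (one_lt_two)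
      refine ⟨m + n, a (L S), Lf.self _, hm.mono (by omega), hn.le.trans ?_⟩
      exact pow_le_pow_right₀ (by norm_num) (by omega))
    cm
    (by
      rintro m n S T _ _ ⟨x, h1, h2, h3⟩ ⟨y, h4, h5, h6⟩
      refine ⟨x * y, ?_, hcm m n x y h2 h5, ?_⟩
      · rw [map_mul]; exact Lf.mul ha h1 h4
      · calc ‖x * y‖ ≤ ‖x‖ * ‖y‖ := norm_mul_le _ _
          _ ≤ 2 ^ m * 2 ^ n := mul_le_mul h3 h6 (norm_nonneg _) (by positivity)
          _ = 2 ^ (m + n) := (pow_add _ _ _).symm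
          _ ≤ 2 ^ (m + n + cm) := pow_le_pow_right₀ (by norm_num) (by omega))
  choose! s hs1 hs2 hs3 using hn0
  have hclose : ∀ m m' x x' S, Lf a x (L S) → Lf a x' (L S) → RK m (Phi τ τ' x - x) →
      RK m' (Phi τ τ' x' - x') → RK (m + m' + cf) (x - x') := by
    intro m m' x x' S h1 h2 h3 h4
    refine hcf (m + m') (x - x') (Lf.fr h1 h2) ?_
    rw [phi_sub]
    exact h3.sub h4
  have hmulb : ∀ S T : H →L[ℂ] H, ‖S‖ ≤ 1 → ‖T‖ ≤ 1 → ‖S * T‖ ≤ 1 := by
    intro S T hS hT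
    calc ‖S * T‖ ≤ ‖S‖ * ‖T‖ := norm_mul_le _ _
      _ ≤ 1 * 1 := mul_le_mul hS hT (norm_nonneg _) zero_le_one
      _ = 1 := one_mul 1
  -- uniform commutator ranks
  have hB : ∀ T t, Lf a t (R T) → ∃ nT : ℕ, ∀ S, ‖S‖ ≤ 1 → RK nT (s S * t - t * s S) := by
    intro T t ht
    obtain ⟨n1, hn1⟩ := lemG hP hP' hQ hQ' hfl
      (fun n S => ∃ x, Lf a x (L S) ∧ RK n0 (Phi τ τ' x - x) ∧ RK n (x * t - t * x))
      (by
        rintro m n S hmn ⟨x, h1, h2, h3⟩
        exact ⟨x, h1, h2, h3.mono hmn⟩)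
      (by
        intro S hS
        have h1 : Lf a (s S * t) (L S * R T) := Lf.mul ha (hs1 S hS) ht
        have h2 : Lf a (t * s S) (R T * L S) := Lf.mul ha ht (hs1 S hS)
        rw [← hcomm] at h2
        obtain ⟨n, hn⟩ := fr_iff.1 (Lf.fr h1 h2)
        exact ⟨n, s S, hs1 S hS, hs2 S hS, hn⟩)
      (2 * (3 * n0 + cm + cf))
      (by
        rintro m n S T' hS hT' ⟨x, h1, h2, h3⟩ ⟨y, h4, h5, h6⟩
        have hST := hmulb S T' hS hT'
        refine ⟨s (S * T'), hs1 _ hST, hs2 _ hST, ?_⟩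
        have hxy : Lf a (x * y) (L (S * T')) := by rw [map_mul]; exact Lf.mul ha h1 h4
        have hd := hclose _ _ _ _ (S * T') (hs1 _ hST) hxy (hs2 _ hST) (hcm n0 n0 x y h2 h5)
        have e1 : s (S * T') * t - t * s (S * T') =
            (x * (y * t - t * y) + (x * t - t * x) * y) +
              ((s (S * T') - x * y) * t - t * (s (S * T') - x * y)) := by noncomm_ring
        rw [e1]
        refine RK.mono ?_ (((h6.mul_left x).add (h3.mul_right y)).add
          ((hd.mul_right t).sub (hd.mul_left t)))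
        omega)
    refine ⟨n1 + 2 * (2 * n0 + cf), fun S hS => ?_⟩
    obtain ⟨x, h1, h2, h3⟩ := hn1 S hS
    have hd := hclose _ _ _ _ S (hs1 S hS) h1 (hs2 S hS) h2
    have e1 : s S * t - t * s S = (x * t - t * x) + ((s S - x) * t - t * (s S - x)) := by
      noncomm_ring
    rw [e1]
    refine RK.mono ?_ (h3.add ((hd.mul_right t).sub (hd.mul_left t)))
    omega
  -- norm bounded lifts of `R T`
  obtain ⟨n2, hn2⟩ := lemG hP hP' hQ hQ' hfl
    (fun n T => ∃ t, Lf a t (R T) ∧ ‖t‖ ≤ 2 ^ n)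
    (by
      rintro m n T hmn ⟨x, h1, h3⟩
      exact ⟨x, h1, h3.trans (pow_le_pow_right₀ (by norm_num) hmn)⟩)
    (by
      intro S _
      obtain ⟨n, hn⟩ := pow_unbounded_of_one_lt ‖a (R S)‖ (one_lt_two)
      exact ⟨n, a (R S), Lf.self _, hn.le⟩)
    0
    (by
      rintro m n S T _ _ ⟨x, h1, h3⟩ ⟨y, h4, h6⟩
      refine ⟨x * y, ?_, ?_⟩
      · rw [map_mul]; exact Lf.mul ha h1 h4
      · calc ‖x * y‖ ≤ ‖x‖ * ‖y‖ := norm_mul_le _ _
          _ ≤ 2 ^ m * 2 ^ n := mul_le_mul h3 h6 (norm_nonneg _) (by positivity)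
          _ = 2 ^ (m + n + 0) := by rw [add_zero, pow_add])
  have htt : ∀ T, ∃ t, Lf a t (R T) ∧ ‖t‖ ≤ 2 ^ n2 * ‖T‖ := by
    intro T
    by_cases hT : T = 0
    · refine ⟨0, ?_, ?_⟩
      · rw [hT, map_zero]; exact Lf.zero ha
      · simp
    · have hT' : 0 < ‖T‖ := norm_pos_iff.2 hT
      obtain ⟨t, h1, h2⟩ := hn2 (((‖T‖⁻¹ : ℝ) : ℂ) • T) (by
        rw [norm_smul]; simp [abs_of_pos hT', hT'.ne'])
      refine ⟨((‖T‖ : ℝ) : ℂ) • t, ?_, ?_⟩
      · have h3 := Lf.smul ha ((‖T‖ : ℝ) : ℂ) h1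
        rw [← map_smul, smul_smul] at h3
        have h4 : ((‖T‖ : ℝ) : ℂ) * ((‖T‖⁻¹ : ℝ) : ℂ) = 1 := by
          rw [← Complex.ofReal_mul, mul_inv_cancel₀ hT'.ne', Complex.ofReal_one]
        rw [h4, one_smul] at h3
        exact h3
      · rw [norm_smul]
        simp only [Complex.norm_real, norm_norm]
        rw [mul_comm]
        exact mul_le_mul_of_nonneg_right h2 (norm_nonneg _)
  choose tt htt1 htt2 using htt
  -- the sequences
  obtain ⟨p, q, hpq, hwot⟩ := wot_diff (fun n => s (W n)) (2 ^ n0) (fun n => hs3 _ (hW n))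
  set x : ℕ → (H →L[ℂ] H) := fun k => s (W (p k)) - s (W (q k)) with hx
  set x' : ℕ → (H →L[ℂ] H) := fun k => (1 / 2 : ℂ) • (s (W' (p k)) - s (W' (q k))) with hx'
  have hxn : ∀ k, ‖x k‖ ≤ 2 * 2 ^ n0 := by
    intro k
    calc ‖x k‖ ≤ ‖s (W (p k))‖ + ‖s (W (q k))‖ := norm_sub_le _ _
      _ ≤ 2 ^ n0 + 2 ^ n0 := add_le_add (hs3 _ (hW _)) (hs3 _ (hW _))
      _ = _ := by ring
  have hxn' : ∀ k, ‖x' k‖ ≤ 2 ^ n0 := by
    intro k
    calc ‖x' k‖ = (1 / 2) * ‖s (W' (p k)) - s (W' (q k))‖ := by rw [hx', norm_smul]; simp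
      _ ≤ (1 / 2) * (‖s (W' (p k))‖ + ‖s (W' (q k))‖) := by
        gcongr
        exact norm_sub_le _ _
      _ ≤ (1 / 2) * (2 ^ n0 + 2 ^ n0) := by
        gcongr
        · exact hs3 _ (hW' _)
        · exact hs3 _ (hW' _)
      _ = _ := by ring
  have hxL : ∀ k, Lf a (x k) (L (W (p k) - W (q k))) := by
    intro k
    rw [map_sub]
    exact Lf.sub ha (hs1 _ (hW _)) (hs1 _ (hW _))
  have hxL' : ∀ k, Lf a (x' k) (L ((1 / 2 : ℂ) • (W' (p k) - W' (q k)))) := by
    intro k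
    rw [map_smul, map_sub]
    exact Lf.smul ha _ (Lf.sub ha (hs1 _ (hW' _)) (hs1 _ (hW' _)))
  have hXX : ∀ k, ((1 / 2 : ℂ) • (W' (p k) - W' (q k))) * (W (p k) - W (q k)) = e := by
    intro k
    have e1 : ((1 / 2 : ℂ) • (W' (p k) - W' (q k))) * (W (p k) - W (q k)) =
        (1 / 2 : ℂ) • (W' (p k) * W (p k) - W' (p k) * W (q k) - W' (q k) * W (p k)
          + W' (q k) * W (q k)) := by
      rw [smul_mul_assoc]; congr 1; noncomm_ring
    rw [e1, hWW, hWW, hWW, hWW, if_pos rfl, if_pos rfl, if_neg (hpq k), if_neg (hpq k).symm,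
      sub_zero, sub_zero, ← two_smul ℂ e, smul_smul]
    norm_num
  have hlift : ∀ k T t, Lf a t (R T) → Lf a (x' k * t * x k) (L e * R T) := by
    intro k T t ht
    have h1 := Lf.mul ha (Lf.mul ha (hxL' k) ht) (hxL k)
    have h2 : L ((1 / 2 : ℂ) • (W' (p k) - W' (q k))) * R T * L (W (p k) - W (q k)) =
        L e * R T := by
      rw [mul_assoc, ← hcomm, ← mul_assoc, ← map_mul, hXX]
    rw [h2] at h1
    exact h1
  have hRKx : ∀ k, RK (n0 + n0) (Phi τ τ' (x k) - x k) := by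
    intro k
    rw [hx]
    simp only
    rw [phi_sub]
    exact (hs2 _ (hW _)).sub (hs2 _ (hW _))
  have hRKx' : ∀ k, RK (n0 + n0) (Phi τ τ' (x' k) - x' k) := by
    intro k
    rw [hx']
    simp only
    rw [phi_smul, phi_sub]
    exact ((hs2 _ (hW' _)).sub (hs2 _ (hW' _))).smul _
  have hprod : ∀ k, RK ((n0 + n0) + (n0 + n0) + cm + n0 + cf) (x' k * x k - s e) := by
    intro k
    have h1 : Lf a (x' k * x k) (L e) := by
      have := Lf.mul ha (hxL' k) (hxL k)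
      rw [← map_mul, hXX] at this
      exact this
    exact hclose _ _ _ _ e h1 (hs1 _ he) (hcm _ _ _ _ (hRKx' k) (hRKx k)) (hs2 _ he)
  have hdiff : ∀ T t, Lf a t (R T) → ∃ C : ℕ, ∀ k, RK C (x' k * t * x k - s e * t) := by
    intro T t ht
    obtain ⟨nT, hnT⟩ := hB T t ht
    refine ⟨(nT + nT) + ((n0 + n0) + (n0 + n0) + cm + n0 + cf), fun k => ?_⟩
    have h1 : RK (nT + nT) (x k * t - t * x k) := by
      have e1 : x k * t - t * x k = (s (W (p k)) * t - t * s (W (p k))) -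
          (s (W (q k)) * t - t * s (W (q k))) := by rw [hx]; noncomm_ring
      rw [e1]
      exact (hnT _ (hW _)).sub (hnT _ (hW _))
    have e2 : x' k * t * x k - s e * t = -(x' k * (x k * t - t * x k)) +
        (x' k * x k - s e) * t := by noncomm_ring
    rw [e2]
    exact (h1.mul_left _).neg.add ((hprod k).mul_right t)
  -- the limit
  set U : Ultrafilter ℕ := Filter.hyperfilter ℕ with hU
  have hUle : (U : Filter ℕ) ≤ Filter.atTop := by
    rw [hU]; exact Nat.hyperfilter_le_atTop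
  have hfr0 : ∀ f : H →L[ℂ] H, FR f → ∀ ξ η : H, Filter.Tendsto (fun k => inner ℂ η ((x' k * f * x k) ξ))
      (U : Filter ℕ) (nhds 0) := by
    intro f hf ξ η
    have h1 : Filter.Tendsto (fun k => f (x k ξ)) Filter.atTop (nhds 0) :=
      weak_fr hf (fun y => hwot ξ y)
    have h2 : Filter.Tendsto (fun k => ‖η‖ * (2 ^ n0 * ‖f (x k ξ)‖)) Filter.atTop (nhds 0) := by
      have := ((h1.norm.const_mul (2 ^ n0)).const_mul ‖η‖)
      simpa using this
    have h3 : Filter.Tendsto (fun k => inner ℂ η ((x' k * f * x k) ξ)) Filter.atTop (nhds 0) := by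
      refine squeeze_zero_norm (fun k => ?_) h2
      calc ‖inner ℂ η ((x' k * f * x k) ξ)‖ ≤ ‖η‖ * ‖(x' k * f * x k) ξ‖ := norm_inner_le_norm _ _
        _ = ‖η‖ * ‖x' k (f (x k ξ))‖ := rfl
        _ ≤ ‖η‖ * (‖x' k‖ * ‖f (x k ξ)‖) := by
          gcongr
          exact (x' k).le_opNorm _
        _ ≤ ‖η‖ * (2 ^ n0 * ‖f (x k ξ)‖) := by
          gcongr
          exact hxn' k
    exact h3.mono_left hUle
  have hY : ∀ T, ∃ S : H →L[ℂ] H, ‖S‖ ≤ (2 ^ n0 * 2 ^ n2 * (2 * 2 ^ n0)) * ‖T‖ ∧ ∀ ξ η : H,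
      Filter.Tendsto (fun k => inner ℂ η ((x' k * tt T * x k) ξ)) (U : Filter ℕ)
        (nhds (inner ℂ η (S ξ))) := by
    intro T
    refine ultralim U (fun k => x' k * tt T * x k) _ (fun k => ?_)
    calc ‖x' k * tt T * x k‖ ≤ ‖x' k * tt T‖ * ‖x k‖ := norm_mul_le _ _
      _ ≤ (‖x' k‖ * ‖tt T‖) * ‖x k‖ := by gcongr; exact norm_mul_le _ _
      _ ≤ (2 ^ n0 * (2 ^ n2 * ‖T‖)) * (2 * 2 ^ n0) := by
        gcongr
        · exact hxn' k
        · exact htt2 T
        · exact hxn k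
      _ = _ := by ring
  choose Y hY1 hY2 using hY
  have hYlim : ∀ T t, Lf a t (R T) → ∀ ξ η : H,
      Filter.Tendsto (fun k => inner ℂ η ((x' k * t * x k) ξ)) (U : Filter ℕ)
        (nhds (inner ℂ η (Y T ξ))) := by
    intro T t ht ξ η
    have h1 := (hY2 T ξ η).add (hfr0 (t - tt T) (Lf.fr ht (htt1 T)) ξ η)
    rw [add_zero] at h1
    refine h1.congr (fun k => ?_)
    rw [← inner_add_right, ← add_apply]
    congr 2
    noncomm_ring
  have hYadd : ∀ S T, Y (S + T) = Y S + Y T := by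
    intro S T
    refine ContinuousLinearMap.ext fun ξ => ?_
    refine ext_inner_left ℂ fun η => ?_
    have h1 := hYlim (S + T) (tt S + tt T) (by rw [map_add]; exact Lf.add ha (htt1 S) (htt1 T)) ξ η
    have h2 := (hY2 S ξ η).add (hY2 T ξ η)
    rw [add_apply, inner_add_right]
    refine tendsto_nhds_unique h1 (h2.congr fun k => ?_)
    rw [← inner_add_right, ← add_apply]
    congr 2
    noncomm_ring
  have hYsmul : ∀ (c : ℂ) T, Y (c • T) = c • Y T := by
    intro c T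
    refine ContinuousLinearMap.ext fun ξ => ?_
    refine ext_inner_left ℂ fun η => ?_
    have h1 := hYlim (c • T) (c • tt T) (by rw [map_smul]; exact Lf.smul ha c (htt1 T)) ξ η
    have h2 := (hY2 T ξ η).const_mul c
    rw [smul_apply, inner_smul_right]
    refine tendsto_nhds_unique h1 (h2.congr fun k => ?_)
    have e1 : x' k * (c • tt T) * x k = c • (x' k * tt T * x k) := by
      rw [mul_smul_comm, smul_mul_assoc]
    rw [e1, smul_apply, inner_smul_right]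
  have hYlift : ∀ T, Lf a (Y T) (L e * R T) := by
    intro T
    obtain ⟨C, hC⟩ := hdiff T (tt T) (htt1 T)
    have h1 : RK C (Y T - s e * tt T) := by
      refine RK.of_tendsto (l := (U : Filter ℕ)) (T := fun k => x' k * tt T * x k - s e * tt T)
        (Filter.Eventually.of_forall hC) (fun ξ η => ?_)
      have h2 := (hY2 T ξ η).sub_const (inner ℂ η ((s e * tt T) ξ))
      rw [ContinuousLinearMap.sub_apply, inner_sub_right]
      refine h2.congr fun k => ?_
      rw [ContinuousLinearMap.sub_apply, inner_sub_right]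
    have h3 : Lf a (s e * tt T) (L e * R T) := Lf.mul ha (hs1 _ he) (htt1 T)
    exact Lf.congr h3 h1.fr
  set M : ℝ := (2 ^ n0 * 2 ^ n2 * (2 * 2 ^ n0)) with hM
  refine ⟨LinearMap.mkContinuous
    { toFun := fun T => a Z' * Y T * a Z
      map_add' := fun S T => by rw [hYadd]; noncomm_ring
      map_smul' := fun c T => by
        rw [hYsmul, mul_smul_comm, smul_mul_assoc]; rfl }
    (‖a Z'‖ * M * ‖a Z‖) (fun T => ?_), fun T => ?_⟩
  · calc ‖a Z' * Y T * a Z‖ ≤ ‖a Z' * Y T‖ * ‖a Z‖ := norm_mul_le _ _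
      _ ≤ (‖a Z'‖ * ‖Y T‖) * ‖a Z‖ := by gcongr; exact norm_mul_le _ _
      _ ≤ (‖a Z'‖ * (M * ‖T‖)) * ‖a Z‖ := by
        gcongr
        exact hY1 T
      _ = _ := by ring
  · have h1 : Lf a (a Z' * Y T * a Z) (Z' * (L e * R T) * Z) :=
      Lf.mul ha (Lf.mul ha (Lf.self _) (hYlift T)) (Lf.self _)
    rw [hZ T] at h1
    exact h1

end

end Pool.Agent.Helper280.GI
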