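import Mathlib
import Pool.Agent.Helper280.GI.Basic
import Pool.Agent.Helper280.GI.Lift
import Pool.Agent.Helper280.GI.JBaire
import Pool.Agent.Helper280.GI.JBddbelow
import Pool.Agent.Helper280.GI.Exact

set_option autoImplicit false

namespace Pool.Agent.Helper280.GI

variable {H : Type*} [NormedAddCommGroup H] [InnerProductSpace ℂ H] [CompleteSpace H]

/-- Every automorphism of `B(H)/F(H)` is inner. -/
theorem nearAut_inner [TopologicalSpace.SeparableSpace H] (hinf : ¬ FiniteDimensional ℂ H)
    {a : (H →L[ℂ] H) → (H →L[ℂ] H)} (ha : NearAut a) :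
    ∃ G G' : H →L[ℂ] H, FR (G' * G - 1) ∧ FR (G * G' - 1) ∧ ∀ T, FR (a T - G * T * G') := by
  obtain ⟨b, hb⟩ := exists_linear_lift hinf ha
  have hmul : ∀ x y, FR (b x * b y - b (x * y)) := fun x y =>
    FR.trans (FR.mul_congr (hb x) (hb y)) (FR.trans (FR.sub_comm (ha.mul x y))
      (FR.sub_comm (hb (x * y))))
  obtain ⟨C, hC⟩ := baire_rank b (fun n => isClosed_RK n) hmul
  have hb1 : FR (b 1 - 1) := FR.trans (hb 1) ha.one
  have hfr : ∀ x, FR (b x) → FR x := by
    intro x hx
    refine (ha.fin x).2 ?_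
    exact FR.of_sub (FR.sub_comm (hb x)) hx
  obtain ⟨G, hG, hGT⟩ := exists_intertwiner hinf b hb1 C hC hfr
  obtain ⟨G', hG'⟩ := left_inv_of_intertwiner hinf b G hG hGT
  have hq : FR (1 - G * G') := by
    obtain ⟨t, ht⟩ := ha.surj (1 - G * G')
    have h1 : FR ((1 - G * G') * G) := by
      have e1 : (1 - G * G') * G = -(G * (G' * G - 1)) := by noncomm_ring
      rw [e1]
      exact (hG'.mul_left G).neg
    have h2 : FR (b t - (1 - G * G')) := FR.trans (hb t) (FR.sub_comm ht)
    have h3 : FR (b t * G) := by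
      have := (h2.mul_right G).add h1
      have e2 : (b t - (1 - G * G')) * G + (1 - G * G') * G = b t * G := by noncomm_ring
      rwa [e2] at this
    have h4 : FR (G * t) := by
      have := h3.sub (hGT t)
      simpa using this
    have h5 : FR t := by
      have h6 := (h4.mul_left G').sub (hG'.mul_right t)
      have e3 : G' * (G * t) - (G' * G - 1) * t = t := by noncomm_ring
      rwa [e3] at h6
    have h6 : FR (a t) := (ha.fin t).1 h5
    exact FR.of_sub ht h6
  have hq' : FR (G * G' - 1) := FR.sub_comm hq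
  refine ⟨G, G', hG', hq', fun T => ?_⟩
  have h1 : FR (b T - G * T * G') := by
    have e1 : b T - G * T * G' = (b T * G - G * T) * G' - b T * (G * G' - 1) := by noncomm_ring
    rw [e1]
    exact ((hGT T).mul_right G').sub (hq'.mul_left (b T))
  exact FR.trans (FR.sub_comm (hb T)) h1

end Pool.Agent.Helper280.GI
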