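import Mathlib
import Pool.Agent.Helper280.GI.Basic

set_option autoImplicit false

namespace Pool.Agent.Helper280.GI

/-- The ideal of finite rank operators. -/
def FRI (H : Type*) [NormedAddCommGroup H] [NormedSpace ℂ H] : Ideal (H →L[ℂ] H) where
  carrier := {T | FR T}
  add_mem' := fun h h' => h.add h'
  zero_mem' := FR.zero
  smul_mem' := fun c _ h => FR.mul_left h c

instance (H : Type*) [NormedAddCommGroup H] [NormedSpace ℂ H] : (FRI H).IsTwoSided :=
  ⟨fun b h => FR.mul_right h b⟩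

/-- The algebra `B(H)/F(H)`. -/
abbrev QH (H : Type*) [NormedAddCommGroup H] [NormedSpace ℂ H] : Type _ := (H →L[ℂ] H) ⧸ FRI H

/-- The quotient map `B(H) → B(H)/F(H)`. -/
def qm (H : Type*) [NormedAddCommGroup H] [NormedSpace ℂ H] : (H →L[ℂ] H) →ₐ[ℂ] QH H :=
  Ideal.Quotient.mkₐ ℂ (FRI H)

lemma qm_surjective (H : Type*) [NormedAddCommGroup H] [NormedSpace ℂ H] :
    Function.Surjective (qm H) := Ideal.Quotient.mk_surjective

lemma qm_eq_zero {H : Type*} [NormedAddCommGroup H] [NormedSpace ℂ H] {T : H →L[ℂ] H} :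
    qm H T = 0 ↔ FR T := Ideal.Quotient.eq_zero_iff_mem

lemma qm_eq {H : Type*} [NormedAddCommGroup H] [NormedSpace ℂ H] {S T : H →L[ℂ] H} :
    qm H S = qm H T ↔ FR (S - T) := by
  rw [← sub_eq_zero, ← map_sub, qm_eq_zero]

end Pool.Agent.Helper280.GI
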