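import Mathlib
import Pool.Agent.Helper280.GI.Basic
import Pool.Agent.Helper280.GI.Quot

set_option autoImplicit false

namespace Pool.Agent.Helper280.GI



section JB



variable {H : Type*} [NormedAddCommGroup H] [InnerProductSpace ℂ H] [CompleteSpace H]

theorem alg1 {A : Type*} [Ring A] (hE : ∀ p : A, p * p = p → p ≠ 0 → ∃ y z, z * y = 1 ∧ y * z = p)
    (d : A) (hd : ¬ ∃ s, d * s * d = d) (hd1 : IsUnit (1 - d)) (x : A) (hx : x ≠ 0) :
    ∃ y, (∃ s, y * s * y = y) ∧ ¬ ∃ s, (y + x) * s * (y + x) = y + x := by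
  by_cases hreg : ∃ s, x * s * x = x
  · obtain ⟨s, hs⟩ := hreg
    have hp : (s * x) * (s * x) = s * x := by
      calc (s * x) * (s * x) = s * (x * s * x) := by noncomm_ring
        _ = s * x := by rw [hs]
    have hp0 : s * x ≠ 0 := by
      intro h
      apply hx
      calc x = x * (s * x) := by rw [← mul_assoc, hs]
        _ = 0 := by rw [h, mul_zero]
    obtain ⟨y0, z0, hzy, hyz⟩ := hE _ hp hp0
    set c : A := y0 * d * z0 with hc
    have hpc : s * x * c = c := by
      calc s * x * c = y0 * (z0 * y0) * d * z0 := by rw [← hyz, hc]; noncomm_ring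
        _ = c := by rw [hzy, hc]; noncomm_ring
    have hzc : z0 * c = d * z0 := by
      calc z0 * c = (z0 * y0) * d * z0 := by rw [hc]; noncomm_ring
        _ = d * z0 := by rw [hzy, one_mul]
    have hcy : c * y0 = y0 * d := by
      calc c * y0 = y0 * d * (z0 * y0) := by rw [hc]; noncomm_ring
        _ = y0 * d := by rw [hzy, mul_one]
    obtain ⟨v, hv1, hv2⟩ : ∃ v, (1 - d) * v = 1 ∧ v * (1 - d) = 1 := by
      obtain ⟨u, hu⟩ := hd1
      exact ⟨(u⁻¹ : Aˣ), by rw [← hu]; simp, by rw [← hu]; simp⟩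
    -- inverse of 1 - c
    set w : A := 1 + y0 * v * (d * z0) with hw
    have hw1 : (1 - c) * w = 1 := by
      have e : (1 - c) * w = 1 - c + (y0 - c * y0) * v * (d * z0) := by
        rw [hw]; noncomm_ring
      rw [e, hcy]
      have e2 : 1 - c + (y0 - y0 * d) * v * (d * z0) = 1 - c + y0 * ((1 - d) * v) * (d * z0) := by
        noncomm_ring
      rw [e2, hv1, hc]; noncomm_ring
    set y : A := -(x * (1 - c)) with hy
    have hyx : y + x = x * c := by rw [hy]; noncomm_ring
    refine ⟨y, ⟨-(w * s), ?_⟩, ?_⟩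
    · calc y * -(w * s) * y = -(x * ((1 - c) * w) * s * (x * (1 - c))) := by
            rw [hy]; noncomm_ring
        _ = -((x * s * x) * (1 - c)) := by rw [hw1]; noncomm_ring
        _ = y := by rw [hs]
    · rintro ⟨t, ht⟩
      rw [hyx] at ht
      have h1 : c * (t * x) * c = c := by
        calc c * (t * x) * c = (s * x * c) * (t * x) * c := by rw [hpc]
          _ = s * (x * c * t * (x * c)) := by noncomm_ring
          _ = s * x * c := by rw [ht]; noncomm_ring
          _ = c := hpc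
      apply hd
      refine ⟨z0 * (t * x) * y0, ?_⟩
      calc d * (z0 * (t * x) * y0) * d = (d * z0) * (t * x) * (y0 * d) := by noncomm_ring
        _ = z0 * (c * (t * x) * c) * y0 := by rw [← hzc, ← hcy]; noncomm_ring
        _ = (z0 * c) * y0 := by rw [h1]
        _ = d * (z0 * y0) := by rw [hzc]; noncomm_ring
        _ = d := by rw [hzy, mul_one]
  · refine ⟨0, ⟨0, by simp⟩, ?_⟩
    rw [zero_add]; exact hreg

theorem alg2 {A : Type*} [Ring A] [Algebra ℂ A]
    (hE : ∀ p : A, p * p = p → p ≠ 0 → ∃ y z, z * y = 1 ∧ y * z = p)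
    (d : A) (hd : ¬ ∃ s, d * s * d = d) (x : A) (hx : ∃ s, x * s * x = x)
    (hl : ¬ ∃ s, s * x = 1) (hr : ¬ ∃ s, x * s = 1) :
    ∃ y : A, ∀ t : ℂ, t ≠ 0 → ¬ ∃ s, (x + t • y) * s * (x + t • y) = x + t • y := by
  obtain ⟨s, hs⟩ := hx
  have hp : (1 - s * x) * (1 - s * x) = 1 - s * x := by
    calc (1 - s * x) * (1 - s * x) = 1 - s * x - s * x + s * (x * s * x) := by noncomm_ring
      _ = 1 - s * x := by rw [hs]; noncomm_ring
  have hp0 : 1 - s * x ≠ 0 := fun h => hl ⟨s, (sub_eq_zero.mp h).symm⟩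
  have hq : (1 - x * s) * (1 - x * s) = 1 - x * s := by
    calc (1 - x * s) * (1 - x * s) = 1 - x * s - x * s + (x * s * x) * s := by noncomm_ring
      _ = 1 - x * s := by rw [hs]; noncomm_ring
  have hq0 : 1 - x * s ≠ 0 := fun h => hr ⟨s, (sub_eq_zero.mp h).symm⟩
  obtain ⟨yp, zp, hzyp, hyzp⟩ := hE _ hp hp0
  obtain ⟨yq, zq, hzyq, hyzq⟩ := hE _ hq hq0
  set p : A := 1 - s * x with hpdef
  set q : A := 1 - x * s with hqdef
  have hqx : q * x = 0 := by
    calc q * x = x - x * s * x := by rw [hqdef]; noncomm_ring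
      _ = 0 := by rw [hs, sub_self]
  have hxp : x * p = 0 := by
    calc x * p = x - x * s * x := by rw [hpdef]; noncomm_ring
      _ = 0 := by rw [hs, sub_self]
  set y : A := yq * d * zp with hy
  have hqy : q * y = y := by
    calc q * y = yq * (zq * yq) * d * zp := by rw [← hyzq, hy]; noncomm_ring
      _ = y := by rw [hzyq, hy]; noncomm_ring
  have hyp : y * p = y := by
    calc y * p = yq * d * (zp * yp) * zp := by rw [← hyzp, hy]; noncomm_ring
      _ = y := by rw [hzyp, hy]; noncomm_ring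
  refine ⟨y, fun t ht => ?_⟩
  rintro ⟨w, hw⟩
  have hqX : q * (x + t • y) = t • y := by
    rw [mul_add, hqx, mul_smul_comm, hqy, zero_add]
  have hXp : (x + t • y) * p = t • y := by
    rw [add_mul, hxp, smul_mul_assoc, hyp, zero_add]
  have h1 : (t • y) * w * (t • y) = t • y := by
    calc (t • y) * w * (t • y) = (q * (x + t • y)) * w * ((x + t • y) * p) := by rw [hqX, hXp]
      _ = q * ((x + t • y) * w * (x + t • y)) * p := by simp only [mul_assoc]
      _ = (q * (x + t • y)) * p := by rw [hw]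
      _ = t • y := by rw [hqX, smul_mul_assoc, hyp]
  have h2 : y * (t • w) * y = y := by
    have h3 : t • (y * (t • w) * y) = t • y := by
      calc t • (y * (t • w) * y) = (t • y) * w * (t • y) := by
            simp only [smul_mul_assoc, mul_smul_comm]
        _ = t • y := h1
    have h4 : t⁻¹ • (t • (y * (t • w) * y)) = t⁻¹ • (t • y) := by rw [h3]
    rwa [smul_smul, smul_smul, inv_mul_cancel₀ ht, one_smul, one_smul] at h4
  have hzy : zq * y = d * zp := by
    calc zq * y = (zq * yq) * d * zp := by rw [hy]; noncomm_ring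
      _ = d * zp := by rw [hzyq, one_mul]
  have hyy : y * yp = yq * d := by
    calc y * yp = yq * d * (zp * yp) := by rw [hy]; noncomm_ring
      _ = yq * d := by rw [hzyp, mul_one]
  apply hd
  refine ⟨zp * (t • w) * yq, ?_⟩
  calc d * (zp * (t • w) * yq) * d = (d * zp) * (t • w) * (yq * d) := by simp only [mul_assoc]
    _ = zq * (y * (t • w) * y) * yp := by rw [← hzy, ← hyy]; simp only [mul_assoc]
    _ = (zq * y) * yp := by rw [h2]
    _ = d * (zp * yp) := by rw [hzy, mul_assoc]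
    _ = d := by rw [hzyp, mul_one]

theorem alg3 {A : Type*} [Ring A] [Algebra ℂ A]
    (hE : ∀ p : A, p * p = p → p ≠ 0 → ∃ y z, z * y = 1 ∧ y * z = p)
    (x : A) (hl : ∃ s, s * x = 1) (hr : ¬ ∃ s, x * s = 1) :
    ∃ y : A, ∀ t : ℂ, ∃ s, s * (y - t • x) = 1 := by
  obtain ⟨s, hs⟩ := hl
  have hq : (1 - x * s) * (1 - x * s) = 1 - x * s := by
    calc (1 - x * s) * (1 - x * s) = 1 - x * s - x * s + x * (s * x) * s := by noncomm_ring
      _ = 1 - x * s := by rw [hs]; noncomm_ring
  have hq0 : 1 - x * s ≠ 0 := fun h => hr ⟨s, (sub_eq_zero.mp h).symm⟩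
  obtain ⟨yq, zq, hzyq, hyzq⟩ := hE _ hq hq0
  refine ⟨yq, fun t => ⟨zq * (1 - x * s), ?_⟩⟩
  have h1 : zq * (1 - x * s) * yq = 1 := by
    rw [← hyzq]
    calc zq * (yq * zq) * yq = (zq * yq) * (zq * yq) := by simp only [mul_assoc]
      _ = 1 := by rw [hzyq, one_mul]
  have h2 : zq * (1 - x * s) * x = 0 := by
    calc zq * (1 - x * s) * x = zq * (x - x * (s * x)) := by noncomm_ring
      _ = 0 := by rw [hs, mul_one, sub_self, mul_zero]
  rw [mul_sub, h1, mul_smul_comm, h2, smul_zero, sub_zero]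

theorem alg4 {A : Type*} [Ring A] [Algebra ℂ A]
    (hE : ∀ p : A, p * p = p → p ≠ 0 → ∃ y z, z * y = 1 ∧ y * z = p)
    (x : A) (hl : ∃ s, x * s = 1) (hr : ¬ ∃ s, s * x = 1) :
    ∃ y : A, ∀ t : ℂ, ∃ s, (y - t • x) * s = 1 := by
  obtain ⟨s, hs⟩ := hl
  have hq : (1 - s * x) * (1 - s * x) = 1 - s * x := by
    calc (1 - s * x) * (1 - s * x) = 1 - s * x - s * x + s * (x * s) * x := by noncomm_ring
      _ = 1 - s * x := by rw [hs]; noncomm_ring
  have hq0 : 1 - s * x ≠ 0 := fun h => hr ⟨s, (sub_eq_zero.mp h).symm⟩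
  obtain ⟨yq, zq, hzyq, hyzq⟩ := hE _ hq hq0
  refine ⟨zq, fun t => ⟨(1 - s * x) * yq, ?_⟩⟩
  have h1 : zq * ((1 - s * x) * yq) = 1 := by
    rw [← hyzq]
    calc zq * ((yq * zq) * yq) = (zq * yq) * (zq * yq) := by simp only [mul_assoc]
      _ = 1 := by rw [hzyq, one_mul]
  have h2 : x * ((1 - s * x) * yq) = 0 := by
    calc x * ((1 - s * x) * yq) = (x - (x * s) * x) * yq := by noncomm_ring
      _ = 0 := by rw [hs, one_mul, sub_self, zero_mul]
  rw [sub_mul, h1, smul_mul_assoc, h2, smul_zero, sub_zero]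

theorem idem_of_regular {A : Type*} [Ring A] (x s u : A) (hx : x * s * x = x)
    (hu : (1 - x) * u * (1 - x) = 1 - x) (hk : IsUnit (1 - (s + u) * (x - x * x))) :
    x * x = x := by
  have h1 : (x - x * x) * (1 - (s + u) * (x - x * x)) = 0 := by
    have e : (x - x * x) * (1 - (s + u) * (x - x * x)) =
        (1 - x) * (x - x * s * x) * (1 - x) + x * ((1 - x) - (1 - x) * u * (1 - x)) * x := by
      noncomm_ring
    rw [e, hx, hu]; simp
  have h2 := (hk.mul_left_eq_zero).mp h1
  exact (sub_eq_zero.mp h2).symm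


end JB

end Pool.Agent.Helper280.GI
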