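import Mathlib
import Pool.Agent.Helper280.GI.Basic
import Pool.Agent.Helper280.GI.Quot

set_option autoImplicit false

namespace Pool.Agent.Helper280.GI



section JB



variable {H : Type*} [NormedAddCommGroup H] [InnerProductSpace ℂ H] [CompleteSpace H]

theorem compact_fredholm {k : H →L[ℂ] H} (hk : IsCompactOperator k) :
    LI (1 + k) ∧ RI (1 + k) := by
  have hc := hk.isCompact_closure_image_closedBall (1 : ℝ)
  obtain ⟨t, hts, htf, hcov⟩ := exists_finite_cover_balls_of_isCompact_closure hc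
    (show (0 : ℝ) < 1 / 2 by norm_num)
  obtain ⟨F, hF⟩ : ∃ F : Submodule ℂ H, F = Submodule.span ℂ t := ⟨_, rfl⟩
  haveI : FiniteDimensional ℂ F := by
    rw [hF]
    exact FiniteDimensional.span_of_finite ℂ htf
  obtain ⟨f, hf⟩ : ∃ f : H →L[ℂ] H, f = F.starProjection ∘L k := ⟨_, rfl⟩
  have hfr : FR f := by
    unfold FR
    have h1 : LinearMap.range (f : H →ₗ[ℂ] H) ≤ F := by
      rintro _ ⟨x, rfl⟩
      rw [hf]
      show F.starProjection (k x) ∈ F
      exact Submodule.starProjection_apply_mem F (k x)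
    exact Submodule.finiteDimensional_of_le h1
  have hn : ‖k - f‖ ≤ 1 / 2 := by
    refine ContinuousLinearMap.opNorm_le_of_unit_norm (by norm_num) ?_
    intro x hx
    have hmem : k x ∈ k '' Metric.closedBall 0 1 :=
      ⟨x, by rw [mem_closedBall_zero_iff, hx], rfl⟩
    have h2 := hcov hmem
    rw [Set.mem_iUnion₂] at h2
    obtain ⟨c, hct, hcb⟩ := h2
    rw [Metric.mem_ball, dist_eq_norm] at hcb
    have h3 : ‖(k - f) x‖ = ‖k x - F.starProjection (k x)‖ := by
      rw [hf]; rfl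
    rw [h3, Submodule.starProjection_minimal]
    refine le_trans ?_ hcb.le
    have hcF : c ∈ F := by
      rw [hF]; exact Submodule.subset_span hct
    change _ ≤ ‖k x - (⟨c, hcF⟩ : F)‖
    exact ciInf_le ⟨0, Set.forall_mem_range.mpr fun _ => norm_nonneg _⟩ _
  have hu : IsUnit (1 - (f - k)) := by
    refine isUnit_one_sub_of_norm_lt_one ?_
    rw [norm_sub_rev]
    linarith
  obtain ⟨u, hu⟩ := hu
  have h4 : (1 : H →L[ℂ] H) + k = u + f := by
    rw [hu]; abel
  constructor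
  · refine ⟨(↑u⁻¹ : H →L[ℂ] H), ?_⟩
    have h5 : (↑u⁻¹ : H →L[ℂ] H) * (1 + k) - 1 = (↑u⁻¹ : H →L[ℂ] H) * f := by
      rw [h4, mul_add, Units.inv_mul]; abel
    rw [h5]
    exact hfr.mul_left _
  · refine ⟨(↑u⁻¹ : H →L[ℂ] H), ?_⟩
    have h5 : (1 + k) * (↑u⁻¹ : H →L[ℂ] H) - 1 = f * (↑u⁻¹ : H →L[ℂ] H) := by
      rw [h4, add_mul, Units.mul_inv]; abel
    rw [h5]
    exact hfr.mul_right _


end JB

end Pool.Agent.Helper280.GI
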