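import Mathlib
import Pool.Agent.Helper280.GI.Basic
import Pool.Agent.Helper280.GI.Quot

set_option autoImplicit false

namespace Pool.Agent.Helper280.GI



section JB



variable {H : Type*} [NormedAddCommGroup H] [InnerProductSpace ℂ H] [CompleteSpace H]

end JB

section Calkin

universe u

variable (H : Type u) [NormedAddCommGroup H] [InnerProductSpace ℂ H] [CompleteSpace H]

/-- The ideal of compact operators. -/
def CKI : Ideal (H →L[ℂ] H) where
  carrier := {T | IsCompactOperator T}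
  add_mem' := fun h h' => h.add h'
  zero_mem' := isCompactOperator_zero
  smul_mem' := fun c _ h => h.clm_comp c

instance : (CKI H).IsTwoSided := ⟨fun b h => h.comp_clm b⟩

instance : IsClosed ((CKI H : Ideal (H →L[ℂ] H)) : Set (H →L[ℂ] H)) :=
  isClosed_setOfPred_isCompactOperator

variable {H}

lemma compact_mul_proj (x : H →L[ℂ] H) (U : Submodule ℂ H) [FiniteDimensional ℂ U] :
    IsCompactOperator (x * U.starProjection) := by
  have hp : ProperSpace U := FiniteDimensional.proper_rclike ℂ U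
  have h1 : IsCompactOperator (U.orthogonalProjectionOnto : H →L[ℂ] U) :=
    isCompactOperator_of_locallyCompactSpace_dom U.orthogonalProjectionOnto
  exact h1.clm_comp (x ∘L U.subtypeL)

lemma compact_approx (S : H →L[ℂ] H) (hS : IsCompactOperator S) {ε : ℝ} (hε : 0 < ε) :
    ∃ (U : Submodule ℂ H) (_ : FiniteDimensional ℂ U), ‖(1 - U.starProjection) * S‖ ≤ ε := by
  have h1 : IsCompact (closure (S '' Metric.closedBall 0 1)) :=
    hS.isCompact_closure_image_closedBall 1
  obtain ⟨t, ht, hcov⟩ := Metric.totallyBounded_iff.1 h1.totallyBounded ε hε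
  have hfd : FiniteDimensional ℂ (Submodule.span ℂ t) := FiniteDimensional.span_of_finite ℂ ht
  refine ⟨Submodule.span ℂ t, hfd, ?_⟩
  have hunit : ∀ x : H, ‖x‖ ≤ 1 →
      ‖((1 - (Submodule.span ℂ t).starProjection) * S) x‖ ≤ ε := by
    intro x hx
    have h2 : S x ∈ closure (S '' Metric.closedBall 0 1) :=
      subset_closure ⟨x, by simpa using hx, rfl⟩
    obtain ⟨y, hy, hxy⟩ := Set.mem_iUnion₂.1 (hcov h2)
    rw [Metric.mem_ball, dist_eq_norm] at hxy
    have h3 : ((1 - (Submodule.span ℂ t).starProjection) * S) x =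
        (Submodule.span ℂ t)ᗮ.starProjection (S x - y) := by
      rw [Submodule.starProjection_orthogonal', map_sub]
      have h4 : (1 - (Submodule.span ℂ t).starProjection) y = 0 := by
        rw [ContinuousLinearMap.sub_apply, ContinuousLinearMap.one_apply,
          Submodule.starProjection_eq_self_iff.2 (Submodule.subset_span hy), sub_self]
      rw [h4, sub_zero]
      rfl
    rw [h3]
    exact ((Submodule.norm_starProjection_apply_le _ _).trans hxy.le)
  refine ContinuousLinearMap.opNorm_le_bound _ hε.le fun x => ?_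
  by_cases hx : x = 0
  · subst hx; simp
  · have hx' : ‖x‖ ≠ 0 := norm_ne_zero_iff.2 hx
    have h5 := hunit (((‖x‖⁻¹ : ℝ) : ℂ) • x) (by
      rw [norm_smul, Complex.norm_real, norm_inv, norm_norm, inv_mul_cancel₀ hx'])
    rw [map_smul, norm_smul, Complex.norm_real, norm_inv, norm_norm] at h5
    rwa [inv_mul_le_iff₀ (norm_pos_iff.2 hx), mul_comm] at h5

lemma one_sub_proj_star (U : Submodule ℂ H) [FiniteDimensional ℂ U] :
    star (1 - U.starProjection) = 1 - U.starProjection := by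
  rw [star_sub, star_one, (isSelfAdjoint_starProjection U).star_eq]

lemma one_sub_proj_norm (U : Submodule ℂ H) [FiniteDimensional ℂ U] :
    ‖1 - U.starProjection‖ ≤ 1 := by
  rw [← Submodule.starProjection_orthogonal']
  exact Submodule.starProjection_norm_le _

lemma compact_star {S : H →L[ℂ] H} (hS : IsCompactOperator S) :
    IsCompactOperator (star S : H →L[ℂ] H) := by
  have h1 : star S ∈ closure {T : H →L[ℂ] H | IsCompactOperator T} := by
    rw [Metric.mem_closure_iff]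
    intro ε hε
    obtain ⟨U, hU, hUS⟩ := compact_approx S hS (half_pos hε)
    refine ⟨star S * U.starProjection, compact_mul_proj _ U, ?_⟩
    rw [dist_eq_norm]
    have h2 : star S - star S * U.starProjection = star ((1 - U.starProjection) * S) := by
      rw [star_mul, one_sub_proj_star, mul_sub, mul_one]
    rw [h2, norm_star]
    linarith
  rwa [IsClosed.closure_eq isClosed_setOfPred_isCompactOperator] at h1

lemma compact_approx' (k : H →L[ℂ] H) (hk : IsCompactOperator k) {ε : ℝ} (hε : 0 < ε) :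
    ∃ (U : Submodule ℂ H) (_ : FiniteDimensional ℂ U), ‖k * (1 - U.starProjection)‖ ≤ ε := by
  obtain ⟨U, hU, h⟩ := compact_approx (star k) (compact_star hk) hε
  refine ⟨U, hU, ?_⟩
  rw [← norm_star, star_mul, one_sub_proj_star]
  exact h

variable (H)

/-- The Calkin algebra. -/
def Calk : Type u := (H →L[ℂ] H) ⧸ CKI H

variable {H}

/-- The quotient map. -/
def cmk (T : H →L[ℂ] H) : Calk H := Ideal.Quotient.mk (CKI H) T

lemma cmk_surjective : Function.Surjective (cmk : (H →L[ℂ] H) → Calk H) :=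
  Ideal.Quotient.mk_surjective

noncomputable instance instCalkNG : NormedAddCommGroup (Calk H) :=
  inferInstanceAs (NormedAddCommGroup ((H →L[ℂ] H) ⧸ CKI H))

lemma cnorm_mk_le (T : H →L[ℂ] H) : ‖cmk T‖ ≤ ‖T‖ :=
  Submodule.Quotient.norm_mk_le (CKI H) T

lemma cnorm_mk_lt (x : Calk H) {ε : ℝ} (hε : 0 < ε) : ∃ T : H →L[ℂ] H, cmk T = x ∧ ‖T‖ < ‖x‖ + ε :=
  Submodule.Quotient.norm_mk_lt (S := CKI H) x hε

noncomputable instance instCalkRing : Ring (Calk H) :=
  inferInstanceAs (Ring ((H →L[ℂ] H) ⧸ CKI H))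

lemma cmk_mul (S T : H →L[ℂ] H) : cmk (S * T) = cmk S * cmk T := rfl

lemma cnorm_mul_le (x y : Calk H) : ‖x * y‖ ≤ ‖x‖ * ‖y‖ := by
  by_contra hcon
  push Not at hcon
  obtain ⟨δ, hδ⟩ : ∃ δ, δ = ‖x * y‖ - ‖x‖ * ‖y‖ := ⟨_, rfl⟩
  have hδ0 : 0 < δ := by rw [hδ]; linarith
  have hx := norm_nonneg x
  have hy := norm_nonneg y
  have hpos : 0 < ‖x‖ + ‖y‖ + 1 := by linarith
  obtain ⟨ε, hε⟩ : ∃ ε, ε = min 1 (δ / (‖x‖ + ‖y‖ + 1)) := ⟨_, rfl⟩
  have hε0 : 0 < ε := by rw [hε]; exact lt_min one_pos (by positivity)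
  have hε1 : ε ≤ 1 := by rw [hε]; exact min_le_left _ _
  have hε2 : ε * (‖x‖ + ‖y‖ + 1) ≤ δ := by
    have : ε ≤ δ / (‖x‖ + ‖y‖ + 1) := by rw [hε]; exact min_le_right _ _
    rwa [le_div_iff₀ hpos] at this
  obtain ⟨a, rfl, ha⟩ := cnorm_mk_lt x hε0
  obtain ⟨b, rfl, hb⟩ := cnorm_mk_lt y hε0
  have h1 : ‖cmk a * cmk b‖ ≤ ‖a‖ * ‖b‖ := by
    rw [← cmk_mul]
    exact (cnorm_mk_le _).trans (norm_mul_le a b)
  have h2 : ‖a‖ * ‖b‖ < (‖cmk a‖ + ε) * (‖cmk b‖ + ε) :=
    mul_lt_mul'' ha hb (norm_nonneg _) (norm_nonneg _)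
  nlinarith

noncomputable instance instCalkNR : NormedRing (Calk H) :=
  { instCalkNG, instCalkRing with norm_mul_le := cnorm_mul_le }

noncomputable instance instCalkAlg : Algebra ℂ (Calk H) :=
  inferInstanceAs (Algebra ℂ ((H →L[ℂ] H) ⧸ CKI H))

lemma cmk_smul (c : ℂ) (T : H →L[ℂ] H) : cmk (c • T) = c • cmk T := rfl

lemma cmk_add (S T : H →L[ℂ] H) : cmk (S + T) = cmk S + cmk T := rfl

noncomputable instance instCalkNA : NormedAlgebra ℂ (Calk H) :=
  { instCalkAlg with
    norm_smul_le := by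
      intro c x
      by_contra hcon
      push Not at hcon
      obtain ⟨δ, hδ⟩ : ∃ δ, δ = ‖c • x‖ - ‖c‖ * ‖x‖ := ⟨_, rfl⟩
      have hδ0 : 0 < δ := by rw [hδ]; linarith
      have hc := norm_nonneg c
      obtain ⟨a, rfl, ha⟩ := cnorm_mk_lt x (show 0 < δ / (‖c‖ + 1) by positivity)
      have h1 : ‖c • cmk a‖ ≤ ‖c‖ * ‖a‖ := by
        rw [← cmk_smul]
        exact (cnorm_mk_le _).trans (norm_smul_le c a)
      have h2 : ‖c‖ * ‖a‖ ≤ ‖c‖ * (‖cmk a‖ + δ / (‖c‖ + 1)) := mul_le_mul_of_nonneg_left ha.le hc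
      have h3 : ‖c‖ * (δ / (‖c‖ + 1)) < δ := by
        rw [mul_div_assoc', div_lt_iff₀ (by positivity)]
        nlinarith
      nlinarith }

instance instCalkComplete : CompleteSpace (Calk H) :=
  inferInstanceAs (CompleteSpace ((H →L[ℂ] H) ⧸ CKI H))

/-- The involution of the Calkin algebra. -/
noncomputable def cstar : Calk H → Calk H :=
  QuotientAddGroup.map (CKI H).toAddSubgroup (CKI H).toAddSubgroup
    ((starAddEquiv : (H →L[ℂ] H) ≃+ (H →L[ℂ] H)) : (H →L[ℂ] H) →+ (H →L[ℂ] H))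
    (fun _ h => compact_star h)

lemma cstar_mk (T : H →L[ℂ] H) : cstar (cmk T) = cmk (star T) := rfl

noncomputable instance instCalkStar : StarRing (Calk H) where
  star := cstar
  star_involutive := by
    intro x
    obtain ⟨a, rfl⟩ := cmk_surjective x
    rw [cstar_mk, cstar_mk, star_star]
  star_mul := by
    intro x y
    obtain ⟨a, rfl⟩ := cmk_surjective x
    obtain ⟨b, rfl⟩ := cmk_surjective y
    show cstar (cmk a * cmk b) = cstar (cmk b) * cstar (cmk a)
    rw [← cmk_mul, cstar_mk, cstar_mk, cstar_mk, ← cmk_mul, star_mul]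
  star_add := by
    intro x y
    obtain ⟨a, rfl⟩ := cmk_surjective x
    obtain ⟨b, rfl⟩ := cmk_surjective y
    show cstar (cmk a + cmk b) = cstar (cmk a) + cstar (cmk b)
    rw [← cmk_add, cstar_mk, cstar_mk, cstar_mk, ← cmk_add, star_add]

lemma cmk_star (T : H →L[ℂ] H) : cmk (star T) = star (cmk T) := rfl

instance instCalkStarModule : StarModule ℂ (Calk H) where
  star_smul := by
    intro c x
    obtain ⟨a, rfl⟩ := cmk_surjective x
    rw [← cmk_smul, ← cmk_star, ← cmk_star, ← cmk_smul, star_smul]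

lemma cmk_eq_zero (T : H →L[ℂ] H) : cmk T = 0 ↔ IsCompactOperator T :=
  Ideal.Quotient.eq_zero_iff_mem (I := CKI H)

lemma cnorm_cstar (x : Calk H) : ‖x‖ * ‖x‖ ≤ ‖star x * x‖ := by
  refine le_of_forall_pos_le_add fun ε hε => ?_
  obtain ⟨a, rfl⟩ := cmk_surjective x
  obtain ⟨b, hb, hbn⟩ := cnorm_mk_lt (star (cmk a) * cmk a) (half_pos hε)
  have hk : IsCompactOperator (star a * a - b : H →L[ℂ] H) := by
    rw [← cmk_eq_zero]
    have h1 : cmk (star a * a - b) = cmk (star a * a) - cmk b := rfl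
    rw [h1, hb, cmk_mul, cmk_star, sub_self]
  obtain ⟨U, hU, hUk⟩ := compact_approx' _ hk (half_pos hε)
  obtain ⟨Q, hQ⟩ : ∃ Q : H →L[ℂ] H, Q = 1 - U.starProjection := ⟨_, rfl⟩
  have hQs : star Q = Q := by rw [hQ]; exact one_sub_proj_star U
  have hQn : ‖Q‖ ≤ 1 := by rw [hQ]; exact one_sub_proj_norm U
  have hax : cmk a = cmk (a * Q) := by
    rw [← sub_eq_zero]
    have h1 : cmk a - cmk (a * Q) = cmk (a - a * Q) := rfl
    rw [h1, cmk_eq_zero]
    have h2 : a - a * Q = a * U.starProjection := by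
      rw [hQ, mul_sub, mul_one]
      abel
    rw [h2]
    exact compact_mul_proj a U
  have h3 : ‖cmk a‖ ≤ ‖a * Q‖ := by
    conv_lhs => rw [hax]
    exact cnorm_mk_le _
  have h4 : ‖a * Q‖ * ‖a * Q‖ = ‖star (a * Q) * (a * Q)‖ := (CStarRing.norm_star_mul_self).symm
  have h5 : star (a * Q) * (a * Q) = Q * (b * Q + (star a * a - b) * Q) := by
    rw [star_mul, hQs]
    noncomm_ring
  rw [← hQ] at hUk
  have h6 : ‖Q * (b * Q + (star a * a - b) * Q)‖ ≤ ‖b‖ + ε / 2 := by
    calc ‖Q * (b * Q + (star a * a - b) * Q)‖ ≤ ‖Q‖ * ‖b * Q + (star a * a - b) * Q‖ :=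
          norm_mul_le _ _
      _ ≤ 1 * ‖b * Q + (star a * a - b) * Q‖ := by gcongr
      _ ≤ ‖b * Q‖ + ‖(star a * a - b) * Q‖ := by rw [one_mul]; exact norm_add_le _ _
      _ ≤ ‖b‖ * ‖Q‖ + ε / 2 := add_le_add (norm_mul_le _ _) hUk
      _ ≤ ‖b‖ * 1 + ε / 2 := by gcongr
      _ = ‖b‖ + ε / 2 := by rw [mul_one]
  have h7 : ‖cmk a‖ * ‖cmk a‖ ≤ ‖a * Q‖ * ‖a * Q‖ :=
    mul_self_le_mul_self (norm_nonneg _) h3
  rw [h4, h5] at h7
  linarith

instance instCalkCStarRing : CStarRing (Calk H) where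
  norm_mul_self_le := cnorm_cstar

noncomputable instance instCalkCStarAlgebra : CStarAlgebra (Calk H) where

/-- The quotient map as an algebra homomorphism. -/
noncomputable def cmkA : (H →L[ℂ] H) →ₐ[ℂ] Calk H where
  toFun := cmk
  map_one' := rfl
  map_mul' := fun _ _ => rfl
  map_zero' := rfl
  map_add' := fun _ _ => rfl
  commutes' := fun _ => rfl

/-- The Calkin algebra as an abstract C*-algebra. (The universe of `C` is that of `H`.) -/
theorem calkin_exists {H : Type u} [NormedAddCommGroup H] [InnerProductSpace ℂ H]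
    [CompleteSpace H] :
    ∃ (C : Type u) (_ : CStarAlgebra C) (π : (H →L[ℂ] H) →ₐ[ℂ] C),
      Function.Surjective π ∧ (∀ T, π T = 0 ↔ IsCompactOperator T) ∧
      (∀ T, π (star T) = star (π T)) :=
  ⟨Calk H, inferInstance, cmkA, cmk_surjective, cmk_eq_zero, cmk_star⟩

end Calkin

end Pool.Agent.Helper280.GI
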