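import Mathlib
import Pool.Agent.Helper280.GI.Basic
import Pool.Agent.Helper280.GI.Quot

set_option autoImplicit false

namespace Pool.Agent.Helper280.GI



section JB



variable {H : Type*} [NormedAddCommGroup H] [InnerProductSpace ℂ H] [CompleteSpace H]

theorem compact_rg (gi : ∀ T : H →L[ℂ] H, RG T → ∃ S : H →L[ℂ] H, T * S * T = T ∧ S * T * S = S)
    {T : H →L[ℂ] H} (hT : IsCompactOperator T) (h : RG T) : FR T := by
  obtain ⟨S, hS, -⟩ := gi T h
  have hEE : ∀ x, (T * S) ((T * S) x) = (T * S) x := by
    intro x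
    have := congrArg (fun R : H →L[ℂ] H => R (S x)) hS
    exact this
  have hEc : IsCompactOperator (T * S) := hT.comp_clm S
  obtain ⟨K, hK, hKn⟩ := hEc
  obtain ⟨ε, hε, hεK⟩ := Metric.mem_nhds_iff.1 hKn
  let M : Submodule ℂ H := LinearMap.range ((T * S : H →L[ℂ] H) : H →ₗ[ℂ] H)
  have hM : ∀ x, x ∈ M ↔ (T * S) x = x := by
    intro x
    constructor
    · rintro ⟨y, rfl⟩
      exact hEE y
    · intro hx
      exact ⟨x, hx⟩
  have hMc : IsClosed (M : Set H) := by
    have : (M : Set H) = {x | (T * S) x = x} := by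
      ext x; exact hM x
    rw [this]
    exact isClosed_eq (T * S).continuous continuous_id
  have hfin : FiniteDimensional ℂ M := by
    refine FiniteDimensional.of_isCompact_closedBall₀ ℂ (r := ε / 2) (by positivity) ?_
    rw [Subtype.isCompact_iff]
    have himg : ((fun x : M => (x : H)) '' Metric.closedBall (0 : M) (ε / 2))
        = Metric.closedBall (0 : H) (ε / 2) ∩ (M : Set H) := by
      ext x
      constructor
      · rintro ⟨y, hy, rfl⟩
        rw [mem_closedBall_zero_iff] at hy
        refine ⟨?_, y.2⟩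
        rw [mem_closedBall_zero_iff]
        exact hy
      · rintro ⟨hx1, hx2⟩
        refine ⟨⟨x, hx2⟩, ?_, rfl⟩
        rw [mem_closedBall_zero_iff] at hx1 ⊢
        exact hx1
    rw [himg]
    refine hK.of_isClosed_subset (Metric.isClosed_closedBall.inter hMc) ?_
    rintro x ⟨hx1, hx2⟩
    have hx3 : x ∈ Metric.ball (0 : H) ε := by
      rw [mem_closedBall_zero_iff] at hx1
      rw [mem_ball_zero_iff]
      linarith
    have := hεK hx3
    rw [Set.mem_preimage, (hM x).1 hx2] at this
    exact this
  have hle : LinearMap.range (T : H →ₗ[ℂ] H) ≤ M := by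
    rintro _ ⟨x, rfl⟩
    rw [hM]
    exact congrArg (fun R : H →L[ℂ] H => R x) hS
  exact Submodule.finiteDimensional_of_le hle


end JB

end Pool.Agent.Helper280.GI
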