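import Mathlib
import Pool.Agent.Helper280.GI.Basic
import Pool.Agent.Helper280.GI.Quot

set_option autoImplicit false

namespace Pool.Agent.Helper280.GI



section JB



variable {H : Type*} [NormedAddCommGroup H] [InnerProductSpace ℂ H] [CompleteSpace H]

theorem fredholm_of {A A' : H →L[ℂ] H} (h : FR (A' * A - 1)) (h' : FR (A * A' - 1)) :
    IsClosed (Set.range A) ∧ FiniteDimensional ℂ (LinearMap.ker (A : H →ₗ[ℂ] H)) ∧
      FiniteDimensional ℂ (H ⧸ LinearMap.range (A : H →ₗ[ℂ] H)) := by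
  set g : H →L[ℂ] H := A * A' - 1 with hg
  have hle : LinearMap.ker (g : H →ₗ[ℂ] H) ≤ LinearMap.range (A : H →ₗ[ℂ] H) := by
    intro w hw
    have h1 : A (A' w) - w = 0 := by
      have : g w = 0 := hw
      simpa [hg] using this
    exact ⟨A' w, sub_eq_zero.1 h1⟩
  have hcl : IsClosed ((LinearMap.ker (g : H →ₗ[ℂ] H) : Submodule ℂ H) : Set H) :=
    g.isClosed_ker
  have hfd : FiniteDimensional ℂ (H ⧸ LinearMap.ker (g : H →ₗ[ℂ] H)) := by
    haveI : FiniteDimensional ℂ (LinearMap.range (g : H →ₗ[ℂ] H)) := h'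
    exact LinearEquiv.finiteDimensional
      (LinearMap.quotKerEquivRange (g : H →ₗ[ℂ] H)).symm
  refine ⟨?_, ?_, ?_⟩
  · have h2 := Submodule.isClosed_mono_of_finiteDimensional_quotient hcl hle
    have h3 : ((LinearMap.range (A : H →ₗ[ℂ] H) : Submodule ℂ H) : Set H) = Set.range A := by
      ext x; simp
    rwa [h3] at h2
  · haveI : FiniteDimensional ℂ (LinearMap.range ((A' * A - 1 : H →L[ℂ] H) : H →ₗ[ℂ] H)) := h
    refine Submodule.finiteDimensional_of_le (S₂ := LinearMap.range ((A' * A - 1 : H →L[ℂ] H) : H →ₗ[ℂ] H)) ?_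
    intro v hv
    have hv' : A v = 0 := hv
    refine ⟨-v, ?_⟩
    simp [hv']
  · exact Submodule.CoFG.of_le hle hfd


end JB

end Pool.Agent.Helper280.GI
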