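import Mathlib
import Pool.Agent.Helper280.GI.Basic
import Pool.Agent.Helper280.GI.Quot

set_option autoImplicit false

namespace Pool.Agent.Helper280.GI



section JB



variable {H : Type*} [NormedAddCommGroup H] [InnerProductSpace ℂ H] [CompleteSpace H]

omit [CompleteSpace H] in
lemma fr_regular_gi {T : H →L[ℂ] H} (hT : FR T) : ∃ S : H →L[ℂ] H, T * S * T = T := by
  have : FiniteDimensional ℂ (LinearMap.range (T : H →ₗ[ℂ] H)) := hT
  obtain ⟨P, hP⟩ := Submodule.ClosedComplemented.of_finiteDimensional
    (LinearMap.range (T : H →ₗ[ℂ] H))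
  obtain ⟨g, hg⟩ := LinearMap.exists_rightInverse_of_surjective
    (LinearMap.rangeRestrict (T : H →ₗ[ℂ] H)) (LinearMap.range_rangeRestrict _)
  refine ⟨(LinearMap.toContinuousLinearMap g) ∘L P, ?_⟩
  ext v
  have h1 := hP ⟨T v, LinearMap.mem_range_self _ v⟩
  have h2 := LinearMap.congr_fun hg ⟨T v, LinearMap.mem_range_self _ v⟩
  have h3 := congrArg Subtype.val h2
  simp only [mul_apply_eq_comp, ContinuousLinearMap.comp_apply]
  rw [h1]
  simpa using h3

/-- Operators with a generalized inverse are the operators regular modulo finite rank. -/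
theorem gi_iff (T : H →L[ℂ] H) : (∃ S : H →L[ℂ] H, T * S * T = T ∧ S * T * S = S) ↔ RG T := by
  constructor
  · rintro ⟨S, h1, -⟩
    refine ⟨S, ?_⟩
    rw [h1, sub_self]
    exact FR.zero
  · rintro ⟨x, hx⟩
    obtain ⟨y, hy⟩ := fr_regular_gi hx
    have key : T * (x - (1 - x * T) * y * (1 - T * x)) * T = T := by
      have e : T * (x - (1 - x * T) * y * (1 - T * x)) * T
          = T * x * T - (T * x * T - T) * y * (T * x * T - T) := by noncomm_ring
      rw [e, hy]
      abel
    generalize (x - (1 - x * T) * y * (1 - T * x)) = z at key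
    refine ⟨z * T * z, ?_, ?_⟩
    · calc T * (z * T * z) * T = (T * z * T) * z * T := by noncomm_ring
        _ = T := by rw [key, key]
    · calc z * T * z * T * (z * T * z) = z * (T * z * T) * z * T * z := by noncomm_ring
        _ = z * T * z * T * z := by rw [key]
        _ = z * (T * z * T) * z := by noncomm_ring
        _ = z * T * z := by rw [key]


end JB

end Pool.Agent.Helper280.GI

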