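import Mathlib
import Pool.Agent.Helper280.GI.Basic
import Pool.Agent.Helper280.GI.Quot

set_option autoImplicit false

namespace Pool.Agent.Helper280.GI



section JB



variable {H : Type*} [NormedAddCommGroup H] [InnerProductSpace ℂ H] [CompleteSpace H]

theorem herstein {R S : Type*} [Ring R] [Ring S] [Algebra ℂ R] [Algebra ℂ S]
    (hprime : ∀ a b : S, (∀ s, a * s * b = 0) → a = 0 ∨ b = 0)
    (θ : R →ₗ[ℂ] S) (hsurj : Function.Surjective θ) (hJ : ∀ x, θ (x * x) = θ x * θ x) :
    (∀ x y, θ (x * y) = θ x * θ y) ∨ (∀ x y, θ (x * y) = θ y * θ x) := by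
  classical
  have h2 : ∀ u v : S, (2 : ℂ) • u = (2 : ℂ) • v → u = v := by
    intro u v h
    have := congrArg (fun w => (2 : ℂ)⁻¹ • w) h
    simpa [smul_smul] using this
  have h2' : ∀ u v : S, u + u = v + v → u = v := by
    intro u v h
    apply h2
    rw [two_smul, two_smul]; exact h
  -- (1)
  have hJ1 : ∀ x y, θ (x * y + y * x) = θ x * θ y + θ y * θ x := by
    intro x y
    have h := hJ (x + y)
    have e1 : (x + y) * (x + y) = x * x + y * y + (x * y + y * x) := by noncomm_ring
    rw [e1, map_add, map_add, hJ, hJ, map_add θ x y] at h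
    have e2 : (θ x + θ y) * (θ x + θ y) = θ x * θ x + θ y * θ y + (θ x * θ y + θ y * θ x) := by
      noncomm_ring
    rw [e2] at h
    exact add_left_cancel h
  -- (2)
  have hJ2 : ∀ x y, θ (x * y * x) = θ x * θ y * θ x := by
    intro x y
    apply h2'
    have h := hJ1 x (x * y + y * x)
    have e1 : x * (x * y + y * x) + (x * y + y * x) * x =
        (x * x * y + y * (x * x)) + (x * y * x + x * y * x) := by noncomm_ring
    rw [e1, map_add, hJ1 (x * x) y, hJ, hJ1 x y, map_add] at h
    have e2 : θ x * (θ x * θ y + θ y * θ x) + (θ x * θ y + θ y * θ x) * θ x =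
        (θ x * θ x * θ y + θ y * (θ x * θ x)) + (θ x * θ y * θ x + θ x * θ y * θ x) := by
      noncomm_ring
    rw [e2] at h
    exact add_left_cancel h
  -- (3)
  have hJ3 : ∀ x y z, θ (x * y * z + z * y * x) = θ x * θ y * θ z + θ z * θ y * θ x := by
    intro x y z
    have h := hJ2 (x + z) y
    have e1 : (x + z) * y * (x + z) = x * y * x + z * y * z + (x * y * z + z * y * x) := by
      noncomm_ring
    rw [e1, map_add, map_add, hJ2, hJ2, map_add θ x z] at h
    have e2 : (θ x + θ z) * θ y * (θ x + θ z) = θ x * θ y * θ x + θ z * θ y * θ z +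
        (θ x * θ y * θ z + θ z * θ y * θ x) := by noncomm_ring
    rw [e2] at h
    exact add_left_cancel h
  -- prime lemma
  have hP : ∀ a b : S, (∀ s, a * s * b + b * s * a = 0) → a = 0 ∨ b = 0 := by
    intro a b hab
    have hab' : ∀ s, a * s * b = -(b * s * a) := fun s => eq_neg_of_add_eq_zero_left (hab s)
    have hba' : ∀ s, b * s * a = -(a * s * b) := fun s => eq_neg_of_add_eq_zero_right (hab s)
    have hW : ∀ x y, (a * x * b) * y * (a * x * b) = 0 := by
      intro x y
      have e1 : (a * x * b) * y * (a * x * b) = b * x * b * y * a * x * a := by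
        calc (a * x * b) * y * (a * x * b) = -(b * x * a) * y * (a * x * b) := by rw [hab' x]
          _ = -(b * x * (a * (y * a * x) * b)) := by noncomm_ring
          _ = -(b * x * -(b * (y * a * x) * a)) := by rw [hab' (y * a * x)]
          _ = b * x * b * y * a * x * a := by noncomm_ring
      have e2 : b * x * b * y * a * x * a = -((a * x * b) * y * (a * x * b)) := by
        calc b * x * b * y * a * x * a = b * x * (b * y * a) * x * a := by noncomm_ring
          _ = b * x * -(a * y * b) * x * a := by rw [hba' y]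
          _ = -((b * x * a) * y * (b * x * a)) := by noncomm_ring
          _ = -((-(a * x * b)) * y * (-(a * x * b))) := by rw [hba' x]
          _ = -((a * x * b) * y * (a * x * b)) := by noncomm_ring
      have e3 : (a * x * b) * y * (a * x * b) = -((a * x * b) * y * (a * x * b)) := e1.trans e2
      apply h2'
      rw [add_zero]
      nth_rewrite 1 [e3]
      exact neg_add_cancel _
    have hx : ∀ x, a * x * b = 0 := by
      intro x
      rcases hprime _ _ (hW x) with h | h <;> exact h
    exact hprime a b hx
  -- pointwise alternative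
  have hAB : ∀ x y, θ (x * y) = θ x * θ y ∨ θ (x * y) = θ y * θ x := by
    intro x y
    have hyx : θ (y * x) = θ x * θ y + θ y * θ x - θ (x * y) := by
      have := hJ1 x y
      rw [map_add] at this
      rw [← this]; abel
    have key : ∀ s, (θ (x * y) - θ x * θ y) * s * (θ (x * y) - θ y * θ x) +
        (θ (x * y) - θ y * θ x) * s * (θ (x * y) - θ x * θ y) = 0 := by
      intro s
      obtain ⟨r, rfl⟩ := hsurj s
      have t1 := hJ3 (x * y) r (y * x)
      have e1 : x * y * r * (y * x) + y * x * r * (x * y) =
          x * (y * r * y) * x + y * (x * r * x) * y := by noncomm_ring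
      rw [e1, map_add, hJ2, hJ2, hJ2, hJ2, hyx] at t1
      have e2 : (θ (x * y) - θ x * θ y) * θ r * (θ (x * y) - θ y * θ x) +
        (θ (x * y) - θ y * θ x) * θ r * (θ (x * y) - θ x * θ y) =
        (θ x * (θ y * θ r * θ y) * θ x + θ y * (θ x * θ r * θ x) * θ y) -
        (θ (x * y) * θ r * (θ x * θ y + θ y * θ x - θ (x * y)) +
          (θ x * θ y + θ y * θ x - θ (x * y)) * θ r * θ (x * y)) := by noncomm_ring
      rw [e2, t1, sub_self]
    rcases hP _ _ key with h | h
    · exact Or.inl (sub_eq_zero.1 h)
    · exact Or.inr (sub_eq_zero.1 h)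
  -- union of two subgroups
  have hU : ∀ P Q : R → Prop, (∀ u v, P (u + v) → P v → P u) → (∀ u v, Q (u + v) → Q u → Q v) →
      (∀ u, P u ∨ Q u) → (∀ u, P u) ∨ (∀ u, Q u) := by
    intro P Q hP1 hQ1 hPQ
    by_contra hc
    push Not at hc
    obtain ⟨⟨u, hu⟩, ⟨v, hv⟩⟩ := hc
    have huQ : Q u := (hPQ u).resolve_left hu
    have hvP : P v := (hPQ v).resolve_right hv
    rcases hPQ (u + v) with h | h
    · exact hu (hP1 u v h hvP)
    · exact hv (hQ1 u v h huQ)
  have hx : ∀ x, (∀ y, θ (x * y) = θ x * θ y) ∨ (∀ y, θ (x * y) = θ y * θ x) := by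
    intro x
    refine hU _ _ ?_ ?_ (hAB x)
    · intro u v h hv
      rw [mul_add, map_add, map_add, mul_add, hv] at h
      exact add_right_cancel h
    · intro u v h hu
      rw [mul_add, map_add, map_add, add_mul, hu] at h
      exact add_left_cancel h
  refine hU _ _ ?_ ?_ hx
  · intro u v h hv y
    have := h y
    rw [add_mul, map_add, map_add, add_mul, hv y] at this
    exact add_right_cancel this
  · intro u v h hu y
    have := h y
    rw [add_mul, map_add, map_add, mul_add, hu y] at this
    exact add_left_cancel this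


end JB

end Pool.Agent.Helper280.GI
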