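import Mathlib
import Pool.Agent.Helper280.GI.Basic
import Pool.Agent.Helper280.GI.Quot

set_option autoImplicit false

namespace Pool.Agent.Helper280.GI



section JB



variable {H : Type*} [NormedAddCommGroup H] [InnerProductSpace ℂ H] [CompleteSpace H]

/-- orthonormal families in separable spaces are countable -/
theorem idem_equiv_countable {E : Type*} [NormedAddCommGroup E] [InnerProductSpace ℂ E]
    [TopologicalSpace.SeparableSpace E] {ι : Type*} {v : ι → E} (hv : Orthonormal ℂ v) :
    Countable ι := by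
  have h1 : (Set.univ : Set ι).PairwiseDisjoint (fun i => Metric.ball (v i) (1 / 2)) := by
    intro i _ j _ hij
    apply Metric.ball_disjoint_ball
    rw [dist_eq_norm]
    have h2 : ‖v i - v j‖ ^ 2 = 2 := by
      rw [@norm_sub_sq ℂ, hv.1 i, hv.1 j, hv.2 hij]
      norm_num
    nlinarith [norm_nonneg (v i - v j)]
  have h2 := h1.countable_of_isOpen (fun i _ => Metric.isOpen_ball)
    (fun i _ => ⟨v i, Metric.mem_ball_self (by norm_num)⟩)
  exact Set.countable_univ_iff.1 h2

/-- infinite dimensional separable Hilbert spaces have a Hilbert basis indexed by `ℕ` -/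
theorem idem_equiv_basis {E : Type*} [NormedAddCommGroup E] [InnerProductSpace ℂ E]
    [CompleteSpace E] [TopologicalSpace.SeparableSpace E] (hE : ¬ FiniteDimensional ℂ E) :
    Nonempty (HilbertBasis ℕ ℂ E) := by
  obtain ⟨w, b, hb⟩ := exists_hilbertBasis ℂ E
  have hc : Countable w := idem_equiv_countable b.orthonormal
  have hi : Infinite w := by
    rw [← not_finite_iff_infinite]
    intro hf
    have := Fintype.ofFinite w
    exact hE (Module.Finite.of_basis b.toOrthonormalBasis.toBasis)
  obtain ⟨e⟩ : Nonempty (w ≃ ℕ) := nonempty_equiv_of_countable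
  have hr : Set.range (fun k : ℕ => b (e.symm k)) = Set.range b := by
    exact e.symm.surjective.range_comp b
  exact ⟨HilbertBasis.mk (v := fun k : ℕ => b (e.symm k))
    (b.orthonormal.comp e.symm e.symm.injective) (by rw [hr]; exact b.dense_span.ge)⟩

theorem idem_equiv [TopologicalSpace.SeparableSpace H]
    (gi : ∀ T : H →L[ℂ] H, RG T → ∃ S : H →L[ℂ] H, T * S * T = T ∧ S * T * S = S)
    (p : QH H) (hp : p * p = p) (h0 : p ≠ 0) : ∃ y z : QH H, z * y = 1 ∧ y * z = p := by
  obtain ⟨T, rfl⟩ := qm_surjective H p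
  have hT : FR (T * T - T) := by
    rw [← qm_eq, map_mul]; exact hp
  have hT0 : ¬ FR T := fun h => h0 (qm_eq_zero.2 h)
  obtain ⟨S, hTST, hSTS⟩ := gi T ⟨1, by simpa using hT⟩
  set P0 : H →L[ℂ] H := T * S with hP0
  have hPP : P0 * P0 = P0 := by
    rw [hP0, ← mul_assoc, hTST]
  set M : Submodule ℂ H := LinearMap.ker ((1 - P0 : H →L[ℂ] H) : H →ₗ[ℂ] H) with hM
  have hMmem : ∀ x, x ∈ M ↔ P0 x = x := by
    intro x
    rw [hM, LinearMap.mem_ker]
    show (1 - P0 : H →L[ℂ] H) x = 0 ↔ _
    simp only [sub_apply, one_apply_eq_self, sub_eq_zero]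
    exact eq_comm
  have hMcl : IsClosed (M : Set H) := (1 - P0 : H →L[ℂ] H).isClosed_ker
  have hPM : ∀ x, P0 x ∈ M := by
    intro x
    rw [hMmem]
    have : (P0 * P0) x = P0 x := by rw [hPP]
    exact this
  have hTM : ∀ x, T x ∈ M := by
    intro x
    rw [hMmem]
    have : (T * S * T) x = T x := by rw [hTST]
    exact this
  have : CompleteSpace M := hMcl.completeSpace_coe
  have : SecondCountableTopology H := UniformSpace.secondCountable_of_separable H
  have : TopologicalSpace.SeparableSpace M := inferInstance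
  have hMinf : ¬ FiniteDimensional ℂ M := by
    intro hf
    apply hT0
    have hle : LinearMap.range (T : H →ₗ[ℂ] H) ≤ M := by
      rintro _ ⟨x, rfl⟩
      exact hTM x
    exact Submodule.finiteDimensional_of_le hle
  have hHinf : ¬ FiniteDimensional ℂ H := by
    intro hf
    exact hMinf inferInstance
  obtain ⟨bH⟩ := idem_equiv_basis hHinf
  obtain ⟨bM⟩ := idem_equiv_basis hMinf
  set V : H ≃ₗᵢ[ℂ] M := bH.repr.trans bM.repr.symm with hV
  set y0 : H →L[ℂ] H := M.subtypeL ∘L (V.toContinuousLinearEquiv : H →L[ℂ] M) with hy0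
  set z0 : H →L[ℂ] H :=
    (V.symm.toContinuousLinearEquiv : M →L[ℂ] H) ∘L (P0.codRestrict M hPM) with hz0
  have hzy : z0 * y0 = 1 := by
    ext x
    show V.symm (P0.codRestrict M hPM (V x : H)) = x
    have h1 : P0.codRestrict M hPM (V x : H) = V x := by
      apply Subtype.ext
      show P0 (V x : H) = V x
      exact (hMmem _).1 (V x).2
    rw [h1, LinearIsometryEquiv.symm_apply_apply]
  have hyz : y0 * z0 = P0 := by
    ext x
    show ((V (V.symm (P0.codRestrict M hPM x)) : M) : H) = P0 x
    rw [LinearIsometryEquiv.apply_symm_apply]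
    rfl
  have hPy : P0 * y0 = y0 := by
    ext x
    show P0 (V x : H) = V x
    exact (hMmem _).1 (V x).2
  have hpP : qm H T * qm H P0 = qm H P0 := by
    rw [hP0, map_mul, ← mul_assoc, hp]
  have hPp : qm H P0 * qm H T = qm H T := by
    rw [← map_mul, hP0, hTST]
  refine ⟨qm H y0, qm H z0 * qm H T, ?_, ?_⟩
  · calc qm H z0 * qm H T * qm H y0 = qm H z0 * qm H T * qm H (P0 * y0) := by rw [hPy]
      _ = qm H z0 * (qm H T * qm H P0) * qm H y0 := by rw [map_mul (qm H) P0 y0]; simp only [mul_assoc]
      _ = qm H z0 * qm H (P0 * y0) := by rw [hpP, map_mul (qm H) P0 y0, mul_assoc]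
      _ = 1 := by rw [hPy, ← map_mul, hzy, map_one]
  · calc qm H y0 * (qm H z0 * qm H T) = qm H (y0 * z0) * qm H T := by
          rw [map_mul, mul_assoc]
      _ = qm H T := by rw [hyz, hPp]

end JB

end Pool.Agent.Helper280.GI
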