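import Mathlib
import Pool.Agent.Helper280.GI.Basic
import Pool.Agent.Helper280.GI.Quot

set_option autoImplicit false

namespace Pool.Agent.Helper280.GI



section JB



variable {H : Type*} [NormedAddCommGroup H] [InnerProductSpace ℂ H] [CompleteSpace H]

section IJ

variable {R S : Type*} [Ring R] [Algebra ℂ R] [Ring S] [Algebra ℂ S]

/-- two-sided multiplication -/
noncomputable def mm (p q : R) : R →ₗ[ℂ] R := (LinearMap.mulLeft ℂ p).comp (LinearMap.mulRight ℂ q)

lemma mm_apply (p q a : R) : mm p q a = p * (a * q) := rfl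

/-- the Jordan defect -/
noncomputable def BB (θ : R →ₗ[ℂ] S) : R →ₗ[ℂ] R →ₗ[ℂ] S :=
  LinearMap.mk₂ ℂ (fun x y => θ (x * y + y * x) - (θ x * θ y + θ y * θ x))
    (by intro x y z; simp only [add_mul, mul_add, map_add]; abel)
    (by intro c x y; simp only [smul_mul_assoc, mul_smul_comm, map_add, map_smul, smul_sub, smul_add])
    (by intro x y z; simp only [add_mul, mul_add, map_add]; abel)
    (by intro c x y; simp only [smul_mul_assoc, mul_smul_comm, map_add, map_smul, smul_sub, smul_add])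

lemma BB_apply (θ : R →ₗ[ℂ] S) (x y : R) :
    BB θ x y = θ (x * y + y * x) - (θ x * θ y + θ y * θ x) := rfl

lemma BB_symm (θ : R →ₗ[ℂ] S) (x y : R) : BB θ x y = BB θ y x := by
  rw [BB_apply, BB_apply, add_comm (x * y), add_comm (θ x * θ y)]

lemma BB_zero_iff (θ : R →ₗ[ℂ] S) (x y : R) :
    BB θ x y = 0 ↔ θ (x * y + y * x) = θ x * θ y + θ y * θ x := by
  rw [BB_apply, sub_eq_zero]

lemma BB_idem (θ : R →ₗ[ℂ] S) (hid : ∀ e, e * e = e → θ e * θ e = θ e) {e : R} (he : e * e = e) :
    BB θ e e = 0 := by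
  rw [BB_zero_iff, he, hid e he, map_add]

lemma BB_polar (θ : R →ₗ[ℂ] S) (hid : ∀ e, e * e = e → θ e * θ e = θ e) {x y : R}
    (hx : x * x = x) (h1 : (x + y) * (x + y) = x + y) (h2 : (x - y) * (x - y) = x - y) :
    BB θ x y = 0 ∧ BB θ y y = 0 := by
  have e0 := BB_idem θ hid hx
  have e1 := BB_idem θ hid h1
  have e2 := BB_idem θ hid h2
  simp only [map_add, map_sub, LinearMap.add_apply, LinearMap.sub_apply] at e1 e2
  rw [BB_symm θ y x, e0] at e1 e2
  constructor
  · have h3 : (4 : ℂ) • BB θ x y = 0 := by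
      have h4 : (4 : ℂ) • BB θ x y = (0 + BB θ x y + (BB θ x y + BB θ y y)) -
        (0 - BB θ x y - (BB θ x y - BB θ y y)) := by module
      rw [h4, e1, e2, sub_zero]
    exact (smul_eq_zero.1 h3).resolve_left (by norm_num)
  · have h3 : (2 : ℂ) • BB θ y y = 0 := by
      have h4 : (2 : ℂ) • BB θ y y = (0 + BB θ x y + (BB θ x y + BB θ y y)) +
        (0 - BB θ x y - (BB θ x y - BB θ y y)) := by module
      rw [h4, e1, e2, add_zero]
    exact (smul_eq_zero.1 h3).resolve_left (by norm_num)

lemma BB_orth (θ : R →ₗ[ℂ] S) (hid : ∀ e, e * e = e → θ e * θ e = θ e) {x y : R}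
    (hx : x * x = x) (hy : y * y = y) (hxy : x * y = 0) (hyx : y * x = 0) :
    BB θ x y = 0 := by
  have e0 := BB_idem θ hid hx
  have e0' := BB_idem θ hid hy
  have h1 : (x + y) * (x + y) = x + y := by
    rw [mul_add, add_mul, add_mul, hx, hy, hxy, hyx]; simp
  have e1 := BB_idem θ hid h1
  simp only [map_add, LinearMap.add_apply] at e1
  rw [BB_symm θ y x, e0, e0', zero_add, add_zero] at e1
  have h3 : (2 : ℂ) • BB θ x y = 0 := by rw [two_smul]; exact e1
  exact (smul_eq_zero.1 h3).resolve_left (by norm_num)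

/-- Leavitt pair -/
structure LV (u v u' v' : R) : Prop where
  uu : u' * u = 1
  vv : v' * v = 1
  uv : u' * v = 0
  vu : v' * u = 0
  s : u * u' + v * v' = 1

lemma LV.swap {u v u' v' : R} (h : LV u v u' v') : LV v u v' u' :=
  ⟨h.vv, h.uu, h.vu, h.uv, by rw [add_comm]; exact h.s⟩

section

variable {u v u' v' : R} (h : LV u v u' v')

include h

lemma LV.uu2 (x : R) : u' * (u * x) = x := by rw [← mul_assoc, h.uu, one_mul]
lemma LV.vv2 (x : R) : v' * (v * x) = x := by rw [← mul_assoc, h.vv, one_mul]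
lemma LV.uv2 (x : R) : u' * (v * x) = 0 := by rw [← mul_assoc, h.uv, zero_mul]
lemma LV.vu2 (x : R) : v' * (u * x) = 0 := by rw [← mul_assoc, h.vu, zero_mul]

variable (θ : R →ₗ[ℂ] S) (hid : ∀ e, e * e = e → θ e * θ e = θ e)
  (hspan : Submodule.span ℂ {e : R | e * e = e} = ⊤)

include hid

lemma l_e_12 (b : R) : BB θ (mm u u' 1) (mm u v' b) = 0 ∧ BB θ (mm u v' b) (mm u v' b) = 0 := by
  apply BB_polar θ hid
  · simp only [mm_apply, mul_assoc, one_mul, h.uu2]
  · simp only [mm_apply, mul_add, add_mul, mul_assoc, one_mul, h.uu2, h.vu2, mul_zero, add_zero]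
  · simp only [mm_apply, mul_sub, sub_mul, mul_assoc, one_mul, h.uu2, h.vu2, mul_zero, sub_zero]

lemma l_e_21 (b : R) : BB θ (mm u u' 1) (mm v u' b) = 0 ∧ BB θ (mm v u' b) (mm v u' b) = 0 := by
  apply BB_polar θ hid
  · simp only [mm_apply, mul_assoc, one_mul, h.uu2]
  · simp only [mm_apply, mul_add, add_mul, mul_assoc, one_mul, h.uu2, h.uv2, mul_zero, add_zero,
      zero_add]
  · simp only [mm_apply, mul_sub, sub_mul, mul_assoc, one_mul, h.uu2, h.uv2, mul_zero, sub_zero]

lemma l_12_12 (a b : R) : BB θ (mm u v' a) (mm u v' b) = 0 := by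
  have h1 := (l_e_12 h θ hid (a + b)).2
  have h2 := (l_e_12 h θ hid a).2
  have h3 := (l_e_12 h θ hid b).2
  simp only [map_add, LinearMap.add_apply] at h1
  rw [h2, h3, BB_symm θ (mm u v' b) (mm u v' a), zero_add, add_zero] at h1
  have h4 : (2 : ℂ) • BB θ (mm u v' a) (mm u v' b) = 0 := by rw [two_smul]; exact h1
  exact (smul_eq_zero.1 h4).resolve_left (by norm_num)

lemma l_21_21 (a b : R) : BB θ (mm v u' a) (mm v u' b) = 0 := by
  have h1 := (l_e_21 h θ hid (a + b)).2
  have h2 := (l_e_21 h θ hid a).2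
  have h3 := (l_e_21 h θ hid b).2
  simp only [map_add, LinearMap.add_apply] at h1
  rw [h2, h3, BB_symm θ (mm v u' b) (mm v u' a), zero_add, add_zero] at h1
  have h4 : (2 : ℂ) • BB θ (mm v u' a) (mm v u' b) = 0 := by rw [two_smul]; exact h1
  exact (smul_eq_zero.1 h4).resolve_left (by norm_num)

omit h hid in
lemma span_zero {f : R →ₗ[ℂ] S} (hspan : Submodule.span ℂ {e : R | e * e = e} = ⊤)
    (hf : ∀ e, e * e = e → f e = 0) (x : R) : f x = 0 := by
  have : x ∈ Submodule.span ℂ {e : R | e * e = e} := by rw [hspan]; trivial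
  induction this using Submodule.span_induction with
  | mem y hy => exact hf y hy
  | zero => exact map_zero f
  | add a b _ _ ha hb => rw [map_add, ha, hb, add_zero]
  | smul c a _ ha => rw [map_smul, ha, smul_zero]

include hspan

lemma l_11_22 (a b : R) : BB θ (mm u u' a) (mm v v' b) = 0 := by
  have h1 : ∀ e, e * e = e → ∀ f, f * f = f → BB θ (mm u u' e) (mm v v' f) = 0 := by
    intro e he f hf
    apply BB_orth θ hid
    · simp only [mm_apply, mul_assoc, h.uu2]
      rw [← mul_assoc e e, he]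
    · simp only [mm_apply, mul_assoc, h.vv2]
      rw [← mul_assoc f f, hf]
    · simp only [mm_apply, mul_assoc, h.uv2, mul_zero]
    · simp only [mm_apply, mul_assoc, h.vu2, mul_zero]
  have h2 : ∀ e, e * e = e → BB θ (mm u u' e) (mm v v' b) = 0 := by
    intro e he
    exact span_zero (f := (BB θ (mm u u' e)).comp (mm v v')) hspan (fun f hf => h1 e he f hf) b
  exact span_zero (f := ((BB θ).flip (mm v v' b)).comp (mm u u')) hspan (fun e he => h2 e he) a

lemma l_e_11 (a : R) : BB θ (mm u u' 1) (mm u u' a) = 0 := by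
  refine span_zero (f := (BB θ (mm u u' 1)).comp (mm u u')) hspan (fun e he => ?_) a
  show BB θ (mm u u' 1) (mm u u' e) = 0
  have hi : mm u u' e * mm u u' e = mm u u' e := by
    simp only [mm_apply, mul_assoc, h.uu2]
    rw [← mul_assoc e e, he]
  have h1 : BB θ (mm u u' e) (mm u u' 1 - mm u u' e) = 0 := by
    have hx : mm u u' 1 * mm u u' e = mm u u' e := by
      simp only [mm_apply, mul_assoc, one_mul, h.uu2]
    have hy : mm u u' e * mm u u' 1 = mm u u' e := by
      simp only [mm_apply, mul_assoc, one_mul, h.uu2]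
    have hz : mm u u' 1 * mm u u' 1 = mm u u' 1 := by
      simp only [mm_apply, mul_assoc, one_mul, h.uu2]
    apply BB_orth θ hid hi
    · rw [mul_sub, sub_mul, sub_mul, hx, hy, hz, hi]; simp
    · rw [mul_sub, hy, hi, sub_self]
    · rw [sub_mul, hx, hi, sub_self]
  rw [map_sub, BB_idem θ hid hi, sub_zero] at h1
  rw [BB_symm]; exact h1

lemma l_12_21 (b c : R) : BB θ (mm u v' b) (mm v u' c) = 0 := by
  -- the idempotents E(s,t)
  have hE : ∀ s t : ℂ, BB θ (mm u u' 1 + s • mm u v' b + t • mm v u' c +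
      (s * t) • (mm v v' (c * b) - mm u u' (b * c)) - (s * t ^ 2) • mm v u' (c * (b * c)))
      (mm u u' 1 + s • mm u v' b + t • mm v u' c +
      (s * t) • (mm v v' (c * b) - mm u u' (b * c)) - (s * t ^ 2) • mm v u' (c * (b * c))) = 0 := by
    intro s t
    apply BB_idem θ hid
    -- E = (1 + t c21) (e11 + s b12) (1 - t c21)
    have e1 : (mm u u' 1 + s • mm u v' b + t • mm v u' c +
      (s * t) • (mm v v' (c * b) - mm u u' (b * c)) - (s * t ^ 2) • mm v u' (c * (b * c))) =
      (1 + t • mm v u' c) * ((mm u u' 1 + s • mm u v' b) * (1 - t • mm v u' c)) := by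
      simp only [mm_apply, mul_add, add_mul, mul_sub, sub_mul, smul_mul_assoc, mul_smul_comm,
        mul_assoc, one_mul, mul_one, h.uu2, h.uv2, h.vv2, h.vu2, mul_zero, smul_zero, smul_smul,
        smul_add, smul_sub, sub_zero]
      module
    have e2 : (1 - t • mm v u' c) * (1 + t • mm v u' c) = 1 := by
      simp only [mm_apply, mul_add, add_mul, mul_sub, sub_mul, smul_mul_assoc, mul_smul_comm,
        mul_assoc, one_mul, mul_one, h.uu2, h.uv2, h.vv2, h.vu2, mul_zero, smul_zero, sub_zero]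
      abel
    have e3 : (mm u u' 1 + s • mm u v' b) * (mm u u' 1 + s • mm u v' b) =
        (mm u u' 1 + s • mm u v' b) := by
      simp only [mm_apply, mul_add, add_mul, smul_mul_assoc, mul_smul_comm,
        mul_assoc, one_mul, mul_one, h.uu2, h.uv2, h.vv2, h.vu2, mul_zero, smul_zero, add_zero]
    rw [e1]
    set P := 1 + t • mm v u' c
    set N := 1 - t • mm v u' c
    set F := mm u u' 1 + s • mm u v' b
    calc P * (F * N) * (P * (F * N)) = P * (F * (N * P) * (F * N)) := by noncomm_ring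
      _ = P * (F * (F * N)) := by rw [e2, mul_one]
      _ = P * (F * N) := by rw [← mul_assoc F F N, e3]
  have k03 : BB θ (mm u u' 1) (mm v v' (c * b) - mm u u' (b * c)) = 0 := by
    rw [map_sub, l_11_22 h θ hid hspan, l_e_11 h θ hid hspan, sub_zero]
  have k24 : BB θ (mm v u' c) (mm v u' (c * (b * c))) = 0 := l_21_21 h θ hid _ _
  have f1 := hE 1 1
  have f2 := hE (-1) 1
  have f3 := hE 1 (-1)
  have f4 := hE (-1) (-1)
  set A0 := mm u u' 1
  set A1 := mm u v' b
  set A2 := mm v u' c
  set A3 := mm v v' (c * b) - mm u u' (b * c)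
  set A4 := mm v u' (c * (b * c))
  have s03 : BB θ A3 A0 = 0 := by rw [BB_symm]; exact k03
  have s42 : BB θ A4 A2 = 0 := by rw [BB_symm]; exact k24
  have s21 : BB θ A2 A1 = BB θ A1 A2 := BB_symm _ _ _
  simp only [map_add, map_sub, map_smul, LinearMap.add_apply, LinearMap.sub_apply,
    LinearMap.smul_apply, k03, k24, s03, s42, s21] at f1 f2 f3 f4
  have h4 : (8 : ℂ) • BB θ A1 A2 = 0 := by
    linear_combination (norm := module) f1 - f2 - f3 + f4
  exact (smul_eq_zero.1 h4).resolve_left (by norm_num)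

lemma l_11_12 (a b : R) : BB θ (mm u u' a) (mm u v' b) = 0 := by
  refine span_zero (f := ((BB θ).flip (mm u v' b)).comp (mm u u')) hspan (fun e he => ?_) a
  show BB θ (mm u u' e) (mm u v' b) = 0
  have he2 : ∀ x, e * (e * x) = e * x := fun x => by rw [← mul_assoc, he]
  have hi : mm u u' e * mm u u' e = mm u u' e := by
    simp only [mm_apply, mul_assoc, h.uu2]
    rw [← mul_assoc e e, he]
  have h1 := (BB_polar θ hid (x := mm u u' e) (y := mm u v' (e * b)) hi
    (by simp only [mm_apply, mul_add, add_mul, mul_assoc, h.uu2, h.vu2, mul_zero, add_zero, he2])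
    (by simp only [mm_apply, mul_sub, sub_mul, mul_assoc, h.uu2, h.vu2, mul_zero, sub_zero, he2])).1
  -- g = (1-e)_11, z = ((1-e)b)_12
  have hg : mm u u' (1 - e) * mm u u' (1 - e) = mm u u' (1 - e) := by
    simp only [mm_apply, mul_assoc, h.uu2]
    rw [← mul_assoc (1 - e) (1 - e)]
    congr 2
    rw [mul_sub, sub_mul, sub_mul, he]; simp
  have hgz : (mm u u' (1 - e) + mm u v' ((1 - e) * b)) * (mm u u' (1 - e) + mm u v' ((1 - e) * b)) =
      mm u u' (1 - e) + mm u v' ((1 - e) * b) := by
    have hee : ∀ x, (1 - e) * ((1 - e) * x) = (1 - e) * x := fun x => by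
      rw [← mul_assoc]
      congr 1
      rw [mul_sub, sub_mul, sub_mul, he]; simp
    simp only [mm_apply, mul_add, add_mul, mul_assoc, h.uu2, h.vu2, mul_zero, add_zero, hee]
  have h2 : BB θ (mm u u' e) (mm u u' (1 - e)) = 0 := by
    apply BB_orth θ hid hi hg
    · simp only [mm_apply, mul_assoc, h.uu2, mul_sub, sub_mul, one_mul, he2, sub_self, mul_zero]
    · simp only [mm_apply, mul_assoc, h.uu2, mul_sub, sub_mul, one_mul, he2, sub_self, mul_zero]
  have h3 : BB θ (mm u u' e) (mm u u' (1 - e) + mm u v' ((1 - e) * b)) = 0 := by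
    apply BB_orth θ hid hi hgz
    · simp only [mm_apply, mul_assoc, h.uu2, mul_sub, sub_mul, mul_add, one_mul, he2, sub_self,
        mul_zero, add_zero]
    · simp only [mm_apply, mul_assoc, h.uu2, h.vu2, mul_sub, sub_mul, add_mul, one_mul, he2, sub_self,
        mul_zero, add_zero]
  rw [map_add, h2, zero_add] at h3
  have h5 : mm u v' b = mm u v' (e * b) + mm u v' ((1 - e) * b) := by
    rw [← map_add]; congr 1; rw [sub_mul, one_mul]; abel
  rw [h5, map_add, h1, h3, add_zero]

lemma l_11_21 (a b : R) : BB θ (mm u u' a) (mm v u' b) = 0 := by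
  refine span_zero (f := ((BB θ).flip (mm v u' b)).comp (mm u u')) hspan (fun e he => ?_) a
  show BB θ (mm u u' e) (mm v u' b) = 0
  have he2 : ∀ x, e * (e * x) = e * x := fun x => by rw [← mul_assoc, he]
  have hi : mm u u' e * mm u u' e = mm u u' e := by
    simp only [mm_apply, mul_assoc, h.uu2]
    rw [← mul_assoc e e, he]
  have h1 := (BB_polar θ hid (x := mm u u' e) (y := mm v u' (b * e)) hi
    (by simp only [mm_apply, mul_add, add_mul, mul_assoc, h.uu2, h.uv2, mul_zero, add_zero, he2])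
    (by simp only [mm_apply, mul_sub, sub_mul, mul_assoc, h.uu2, h.uv2, mul_zero, sub_zero, he2])).1
  have hee : ∀ x, (1 - e) * ((1 - e) * x) = (1 - e) * x := fun x => by
      rw [← mul_assoc]
      congr 1
      rw [mul_sub, sub_mul, sub_mul, he]; simp
  have hg : mm u u' (1 - e) * mm u u' (1 - e) = mm u u' (1 - e) := by
    simp only [mm_apply, mul_assoc, h.uu2, hee]
  have hgz : (mm u u' (1 - e) + mm v u' (b * (1 - e))) * (mm u u' (1 - e) + mm v u' (b * (1 - e))) =
      mm u u' (1 - e) + mm v u' (b * (1 - e)) := by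
    simp only [mm_apply, mul_add, add_mul, mul_assoc, h.uu2, h.uv2, mul_zero, add_zero, hee]
  have h2 : BB θ (mm u u' e) (mm u u' (1 - e)) = 0 := by
    apply BB_orth θ hid hi hg
    · simp only [mm_apply, mul_assoc, h.uu2, mul_sub, sub_mul, one_mul, he2, sub_self, mul_zero]
    · simp only [mm_apply, mul_assoc, h.uu2, mul_sub, sub_mul, one_mul, he2, sub_self, mul_zero]
  have h3 : BB θ (mm u u' e) (mm u u' (1 - e) + mm v u' (b * (1 - e))) = 0 := by
    apply BB_orth θ hid hi hgz
    · simp only [mm_apply, mul_assoc, h.uu2, h.uv2, mul_sub, sub_mul, mul_add, one_mul, he2, sub_self,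
        mul_zero, add_zero]
    · simp only [mm_apply, mul_assoc, h.uu2, mul_sub, sub_mul, add_mul, one_mul, he2, sub_self,
        mul_zero, add_zero]
  rw [map_add, h2, zero_add] at h3
  have h5 : mm v u' b = mm v u' (b * e) + mm v u' (b * (1 - e)) := by
    rw [← map_add]; congr 1; rw [mul_sub, mul_one]; abel
  rw [h5, map_add, h1, h3, add_zero]

lemma l_11_11 (hθ1 : θ 1 = 1) (a a' : R) : BB θ (mm u u' a) (mm u u' a') = 0 := by
  set p := θ (mm u u' 1) with hp
  have hpp : p * p = p := hid _ (by simp only [mm_apply, mul_assoc, one_mul, h.uu2])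
  have cz : ∀ {x y : R}, BB θ x y = 0 → θ x * θ y + θ y * θ x = θ (x * y + y * x) :=
    fun hxy => ((BB_zero_iff θ _ _).1 hxy).symm
  -- corner facts
  have c11 : ∀ b, p * θ (mm u u' b) = θ (mm u u' b) ∧ θ (mm u u' b) * p = θ (mm u u' b) := by
    intro b
    have h1 := cz (l_e_11 h θ hid hspan b)
    have h2 : mm u u' 1 * mm u u' b + mm u u' b * mm u u' 1 = mm u u' b + mm u u' b := by
      simp only [mm_apply, mul_assoc, one_mul, h.uu2]
    rw [h2, map_add, ← hp] at h1
    set X := θ (mm u u' b)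
    have h3 : p * X * p = p * X := by
      have h4 : p * (p * X + X * p) = p * (X + X) := by rw [h1]
      rw [mul_add, mul_add, ← mul_assoc, ← mul_assoc, hpp] at h4
      exact add_left_cancel h4
    have h5 : p * X * p = X * p := by
      have h4 : (p * X + X * p) * p = (X + X) * p := by rw [h1]
      rw [add_mul, add_mul, mul_assoc X p p, hpp] at h4
      exact add_right_cancel h4
    have h6 : (2 : ℂ) • (p * X) = (2 : ℂ) • X := by
      rw [two_smul, two_smul, ← h1]
      rw [← h5, h3]
    have h7 : p * X = X := by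
      have := smul_right_injective S (two_ne_zero : (2 : ℂ) ≠ 0)
      exact this h6
    exact ⟨h7, by rw [← h5, h3, h7]⟩
  have c22 : ∀ b, p * θ (mm v v' b) * p = 0 := by
    intro b
    have h1 := cz (l_11_22 h θ hid hspan 1 b)
    have h2 : mm u u' 1 * mm v v' b + mm v v' b * mm u u' 1 = 0 := by
      simp only [mm_apply, mul_assoc, one_mul, h.uv2, h.vu2, mul_zero, add_zero]
    rw [h2, map_zero, ← hp] at h1
    set X := θ (mm v v' b)
    have h3 : p * (p * X + X * p) * p = 0 := by rw [h1]; simp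
    have h4 : p * (p * X + X * p) * p = p * X * p + p * X * p := by
      rw [mul_add, add_mul, ← mul_assoc p p X, hpp, ← mul_assoc p X p, mul_assoc (p * X) p p, hpp]
    rw [h4, ← two_smul ℂ] at h3
    exact (smul_eq_zero.1 h3).resolve_left (by norm_num)
  have c12 : ∀ b, p * θ (mm u v' b) * p = 0 := by
    intro b
    have h1 := cz (l_e_12 h θ hid b).1
    have h2 : mm u u' 1 * mm u v' b + mm u v' b * mm u u' 1 = mm u v' b := by
      simp only [mm_apply, mul_assoc, one_mul, h.uu2, h.vu2, mul_zero, add_zero]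
    rw [h2, ← hp] at h1
    set X := θ (mm u v' b)
    have h3 : p * (p * X + X * p) = p * X := by rw [h1]
    rw [mul_add, ← mul_assoc, ← mul_assoc, hpp] at h3
    simpa using h3
  have c21 : ∀ b, p * θ (mm v u' b) * p = 0 := by
    intro b
    have h1 := cz (l_e_21 h θ hid b).1
    have h2 : mm u u' 1 * mm v u' b + mm v u' b * mm u u' 1 = mm v u' b := by
      simp only [mm_apply, mul_assoc, one_mul, h.uu2, h.uv2, mul_zero, zero_add]
    rw [h2, ← hp] at h1
    set X := θ (mm v u' b)
    have h3 : p * (p * X + X * p) = p * X := by rw [h1]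
    rw [mul_add, ← mul_assoc, ← mul_assoc, hpp] at h3
    simpa using h3
  set X := θ (mm u u' a) with hX
  set Y := θ (mm u v' a') with hY
  set Z := θ (mm v u' 1) with hZ
  set A' := θ (mm u u' a') with hA'
  have r1 : Y * Z + Z * Y = A' + θ (mm v v' a') := by
    have h1 := cz (l_12_21 h θ hid hspan a' 1)
    rw [← hY, ← hZ] at h1
    rw [h1, hA', ← map_add]
    congr 1
    simp only [mm_apply, mul_assoc, one_mul, mul_one, h.uu2, h.vv2]
  have r2 : X * θ (mm v v' a') + θ (mm v v' a') * X = 0 := by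
    have h1 := cz (l_11_22 h θ hid hspan a a')
    rw [← hX] at h1
    rw [h1]
    simp only [mm_apply, mul_assoc, h.uv2, h.vu2, mul_zero, add_zero, map_zero]
  have r3 : X * Y + Y * X = θ (mm u v' (a * a')) := by
    have h1 := cz (l_11_12 h θ hid hspan a a')
    rw [← hX, ← hY] at h1
    rw [h1]
    congr 1
    simp only [mm_apply, mul_assoc, h.uu2, h.vu2, mul_zero, add_zero]
  have r4 : θ (mm u v' (a * a')) * Z + Z * θ (mm u v' (a * a')) =
      θ (mm u u' (a * a')) + θ (mm v v' (a * a')) := by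
    have h1 := cz (l_12_21 h θ hid hspan (a * a') 1)
    rw [← hZ] at h1
    rw [h1, ← map_add]
    congr 1
    simp only [mm_apply, mul_assoc, one_mul, mul_one, h.uu2, h.vv2]
  have r5 : X * Z + Z * X = θ (mm v u' a) := by
    have h1 := cz (l_11_21 h θ hid hspan a 1)
    rw [← hX, ← hZ] at h1
    rw [h1]
    congr 1
    simp only [mm_apply, mul_assoc, one_mul, h.uu2, h.uv2, mul_zero, zero_add]
  have r6 : θ (mm v u' a) * Y + Y * θ (mm v u' a) =
      θ (mm v v' (a * a')) + θ (mm u u' (a' * a)) := by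
    have h1 := cz (l_12_21 h θ hid hspan a' a)
    rw [← hY] at h1
    rw [add_comm, h1, ← map_add]
    congr 1
    simp only [mm_apply, mul_assoc, h.uu2, h.vv2]
    rw [add_comm]
  -- the Jordan identity
  have key : X * A' + A' * X = θ (mm u u' (a * a')) + θ (mm u u' (a' * a)) +
      (θ (mm v v' (a * a')) + θ (mm v v' (a * a'))) - (2 : ℂ) • (Y * X * Z + Z * X * Y) := by
    have e1 : X * (Y * Z + Z * Y) + (Y * Z + Z * Y) * X =
        ((X * Y + Y * X) * Z + Z * (X * Y + Y * X)) + ((X * Z + Z * X) * Y + Y * (X * Z + Z * X)) -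
          (2 : ℂ) • (Y * X * Z + Z * X * Y) := by
      rw [two_smul]
      noncomm_ring
    rw [r1, r3, r5, r4, r6] at e1
    have e2 : X * (A' + θ (mm v v' a')) + (A' + θ (mm v v' a')) * X =
        X * A' + A' * X + (X * θ (mm v v' a') + θ (mm v v' a') * X) := by noncomm_ring
    rw [e2, r2, add_zero] at e1
    rw [e1]; abel
  have hXp : p * X = X ∧ X * p = X := c11 a
  have hAp : p * A' = A' ∧ A' * p = A' := c11 a'
  have z1 : p * (Y * X * Z + Z * X * Y) * p = 0 := by
    have e1 : p * (Y * X * Z + Z * X * Y) * p =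
        (p * Y * p) * X * (p * Z * p) + (p * Z * p) * X * (p * Y * p) := by
      have : X = p * X * p := by rw [hXp.1, hXp.2]
      conv_lhs => rw [this]
      have e3 : p * (Y * (p * X * p) * Z + Z * (p * X * p) * Y) * p =
        (p * Y * p) * X * (p * Z * p) + (p * Z * p) * X * (p * Y * p) := by
        noncomm_ring
      exact e3
    rw [e1, c12, zero_mul, zero_mul, mul_zero, add_zero]
  have key2 : p * (X * A' + A' * X) * p = θ (mm u u' (a * a')) + θ (mm u u' (a' * a)) := by
    rw [key]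
    have e1 : p * (θ (mm u u' (a * a')) + θ (mm u u' (a' * a)) +
      (θ (mm v v' (a * a')) + θ (mm v v' (a * a'))) - (2 : ℂ) • (Y * X * Z + Z * X * Y)) * p =
      p * θ (mm u u' (a * a')) * p + p * θ (mm u u' (a' * a)) * p +
      (p * θ (mm v v' (a * a')) * p + p * θ (mm v v' (a * a')) * p) -
        (2 : ℂ) • (p * (Y * X * Z + Z * X * Y) * p) := by
      simp only [mul_add, add_mul, mul_sub, sub_mul, mul_smul_comm, smul_mul_assoc]
    rw [e1, z1, c22, smul_zero, (c11 (a * a')).1, (c11 (a * a')).2, (c11 (a' * a)).1,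
      (c11 (a' * a)).2]
    simp
  have key3 : p * (X * A' + A' * X) * p = X * A' + A' * X := by
    rw [mul_add, add_mul, ← mul_assoc, hXp.1, ← mul_assoc, hAp.1, mul_assoc, hAp.2, mul_assoc, hXp.2]
  rw [BB_zero_iff, ← hX, ← hA', ← key3, key2, ← map_add]
  congr 1
  simp only [mm_apply, mul_assoc, h.uu2]

end

end IJ

/-- A linear map preserving idempotents on an algebra with Leavitt pair spanned by idempotents
is a Jordan homomorphism. -/
theorem idem_to_jordan {R S : Type*} [Ring R] [Algebra ℂ R] [Ring S] [Algebra ℂ S]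
    (u v u' v' : R) (huu : u' * u = 1) (hvv : v' * v = 1) (huv : u' * v = 0) (hvu : v' * u = 0)
    (h1 : u * u' + v * v' = 1) (hspan : Submodule.span ℂ {e : R | e * e = e} = ⊤)
    (θ : R →ₗ[ℂ] S) (hθ1 : θ 1 = 1) (hid : ∀ e, e * e = e → θ e * θ e = θ e) (x : R) :
    θ (x * x) = θ x * θ x := by
  have h : LV u v u' v' := ⟨huu, hvv, huv, hvu, h1⟩
  have h' := h.swap
  have hdec : x = mm u u' (u' * (x * u)) + mm u v' (u' * (x * v)) + mm v u' (v' * (x * u)) +
      mm v v' (v' * (x * v)) := by
    have e1 : (u * u' + v * v') * x * (u * u' + v * v') = x := by rw [h1, one_mul, mul_one]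
    conv_lhs => rw [← e1]
    simp only [mm_apply]
    noncomm_ring
  have hB : BB θ x x = 0 := by
    rw [hdec]
    simp only [map_add, LinearMap.add_apply]
    have s1 := fun a b => (BB_symm θ (mm u v' a) (mm u u' b)).trans (l_11_12 h θ hid hspan b a)
    have s2 := fun a b => (BB_symm θ (mm v u' a) (mm u u' b)).trans (l_11_21 h θ hid hspan b a)
    have s3 := fun a b => (BB_symm θ (mm v v' a) (mm u u' b)).trans (l_11_22 h θ hid hspan b a)
    have s4 := fun a b => (BB_symm θ (mm v u' a) (mm u v' b)).trans (l_12_21 h θ hid hspan b a)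
    have s5 := fun a b => (BB_symm θ (mm u v' a) (mm v v' b)).trans (l_11_21 h' θ hid hspan b a)
    have s6 := fun a b => (BB_symm θ (mm v u' a) (mm v v' b)).trans (l_11_12 h' θ hid hspan b a)
    simp only [l_11_11 h θ hid hspan hθ1, l_11_12 h θ hid hspan, l_11_21 h θ hid hspan,
      l_11_22 h θ hid hspan, l_12_12 h θ hid, l_21_21 h θ hid, l_12_21 h θ hid hspan,
      l_11_11 h' θ hid hspan hθ1, l_11_12 h' θ hid hspan, l_11_21 h' θ hid hspan,
      s1, s2, s3, s4, s5, s6, add_zero]
  rw [BB_zero_iff, map_add, ← two_smul ℂ, ← two_smul ℂ] at hB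
  exact smul_right_injective S (two_ne_zero : (2 : ℂ) ≠ 0) hB


end JB

end Pool.Agent.Helper280.GI
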