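import Mathlib
import Pool.Agent.Helper280.GI.Basic
import Pool.Agent.Helper280.GI.Quot

set_option autoImplicit false

namespace Pool.Agent.Helper280.GI



section JB



variable {H : Type*} [NormedAddCommGroup H] [InnerProductSpace ℂ H] [CompleteSpace H]

omit [CompleteSpace H] in
lemma orth_countable [TopologicalSpace.SeparableSpace H] {ι : Type*} {v : ι → H}
    (hv : Orthonormal ℂ v) : Countable ι := by
  have h1 : ∀ i j, i ≠ j → 1 ≤ dist (v i) (v j) := by
    intro i j hij
    have h2 : ‖v i - v j‖ ^ 2 = 2 := by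
      rw [norm_sub_sq (𝕜 := ℂ), hv.1 i, hv.1 j, hv.2 hij]
      norm_num
    rw [dist_eq_norm]
    have h3 := norm_nonneg (v i - v j)
    nlinarith
  refine Pairwise.countable_of_isOpen_disjoint (s := fun i => Metric.ball (v i) (1 / 2)) ?_
    (fun i => Metric.isOpen_ball) (fun i => ⟨v i, Metric.mem_ball_self (by norm_num)⟩)
  intro i j hij
  refine Metric.ball_disjoint_ball ?_
  have := h1 i j hij
  linarith

lemma fr_of_finite_basis {T : H →L[ℂ] H}
    (h : FiniteDimensional ℂ (LinearMap.ker (T : H →ₗ[ℂ] H))ᗮ) : FR T := by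
  unfold FR
  have hcl : IsClosed ((LinearMap.ker (T : H →ₗ[ℂ] H)) : Set H) := T.isClosed_ker
  haveI : CompleteSpace (LinearMap.ker (T : H →ₗ[ℂ] H)) := hcl.completeSpace_coe
  have hle : LinearMap.range (T : H →ₗ[ℂ] H) ≤
      LinearMap.range ((T : H →ₗ[ℂ] H) ∘ₗ ((LinearMap.ker (T : H →ₗ[ℂ] H))ᗮ).subtype) := by
    rintro _ ⟨v, rfl⟩
    obtain ⟨y, hy, z, hz, rfl⟩ := (LinearMap.ker (T : H →ₗ[ℂ] H)).exists_add_mem_mem_orthogonal v
    refine ⟨⟨z, hz⟩, ?_⟩
    have hy' : (T : H →ₗ[ℂ] H) y = 0 := hy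
    rw [map_add, hy', zero_add]
    rfl
  exact Submodule.finiteDimensional_of_le hle

theorem qh_prime [TopologicalSpace.SeparableSpace H] (x y : QH H)
    (h : ∀ s, x * s * y = 0) : x = 0 ∨ y = 0 := by
  obtain ⟨T1, rfl⟩ := qm_surjective H x
  obtain ⟨T2, rfl⟩ := qm_surjective H y
  by_contra hcon
  rw [not_or, qm_eq_zero, qm_eq_zero] at hcon
  obtain ⟨hT1, hT2⟩ := hcon
  haveI : SecondCountableTopology H := UniformSpace.secondCountable_of_separable H
  let M : Submodule ℂ H := (LinearMap.range (T2 : H →ₗ[ℂ] H)).topologicalClosure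
  let N : Submodule ℂ H := (LinearMap.ker (T1 : H →ₗ[ℂ] H))ᗮ
  have hMc : IsClosed (M : Set H) := Submodule.isClosed_topologicalClosure _
  have hNc : IsClosed (N : Set H) := Submodule.isClosed_orthogonal _
  haveI : CompleteSpace M := hMc.completeSpace_coe
  haveI : CompleteSpace N := hNc.completeSpace_coe
  haveI : TopologicalSpace.SeparableSpace M := inferInstance
  obtain ⟨wM, bM, -⟩ := exists_hilbertBasis ℂ M
  obtain ⟨wN, bN, -⟩ := exists_hilbertBasis ℂ N
  haveI hcM : Countable wM := orth_countable bM.orthonormal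
  have hiN : Infinite wN := by
    by_contra hfin
    rw [not_infinite_iff_finite] at hfin
    haveI := Fintype.ofFinite wN
    have hfd : FiniteDimensional ℂ N := Module.Finite.of_basis bN.toOrthonormalBasis.toBasis
    exact hT1 (fr_of_finite_basis hfd)
  obtain ⟨fM, hfM⟩ := exists_injective_nat wM
  let emb : wM → wN := fun i => Infinite.natEmbedding wN (fM i)
  have hemb : Function.Injective emb := (Infinite.natEmbedding wN).injective.comp hfM
  have hon : Orthonormal ℂ (fun i => bN (emb i)) := bN.orthonormal.comp emb hemb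
  let W : M →ₗᵢ[ℂ] N := hon.orthogonalFamily.linearIsometry.comp bM.repr.toLinearIsometry
  let S : H →L[ℂ] H := N.subtypeL ∘L W.toContinuousLinearMap ∘L M.orthogonalProjectionOnto
  have h1 := h (qm H S)
  rw [← map_mul, ← map_mul, qm_eq_zero] at h1
  apply hT2
  have hker : LinearMap.ker ((T1 * S * T2 : H →L[ℂ] H) : H →ₗ[ℂ] H) =
      LinearMap.ker (T2 : H →ₗ[ℂ] H) := by
    ext v
    rw [LinearMap.mem_ker, LinearMap.mem_ker]
    show T1 (S (T2 v)) = 0 ↔ T2 v = 0
    constructor
    · intro hv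
      have hm : T2 v ∈ M := Submodule.le_topologicalClosure _ ⟨v, rfl⟩
      have hS : S (T2 v) = (W ⟨T2 v, hm⟩ : H) := by
        show ((W (M.orthogonalProjectionOnto (T2 v)) : N) : H) = _
        have : M.orthogonalProjectionOnto (T2 v) = ⟨T2 v, hm⟩ :=
          M.orthogonalProjectionOnto_mem_subspace_eq_self ⟨T2 v, hm⟩
        rw [this]
      rw [hS] at hv
      have hN : (W ⟨T2 v, hm⟩ : H) ∈ N := (W ⟨T2 v, hm⟩).2
      have h0 : (W ⟨T2 v, hm⟩ : H) = 0 := by
        have h2 : (W ⟨T2 v, hm⟩ : H) ∈ LinearMap.ker (T1 : H →ₗ[ℂ] H) := hv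
        have h3 := (Submodule.mem_orthogonal _ _).1 hN _ h2
        exact inner_self_eq_zero.1 h3
      have h4 : W ⟨T2 v, hm⟩ = 0 := Subtype.ext h0
      have h5 : (⟨T2 v, hm⟩ : M) = 0 := by
        rw [← norm_eq_zero, ← W.norm_map, h4, norm_zero]
      exact congrArg Subtype.val h5
    · intro hv
      rw [hv, map_zero, map_zero]
  unfold FR at h1 ⊢
  have e1 := (LinearMap.quotKerEquivRange ((T1 * S * T2 : H →L[ℂ] H) : H →ₗ[ℂ] H))
  have e2 := (LinearMap.quotKerEquivRange (T2 : H →ₗ[ℂ] H))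
  have e3 := Submodule.quotEquivOfEq _ _ hker
  haveI := h1
  exact LinearEquiv.finiteDimensional ((e1.symm.trans e3).trans e2)


end JB

end Pool.Agent.Helper280.GI
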