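import Mathlib
import Pool.Agent.Helper280.GI.Basic
import Pool.Agent.Helper280.GI.Quot

set_option autoImplicit false

namespace Pool.Agent.Helper280.GI



section JB



variable {H : Type*} [NormedAddCommGroup H] [InnerProductSpace ℂ H] [CompleteSpace H]

theorem li_small_unit (Z : H →L[ℂ] H) :
    ∃ δ : ℝ, 0 < δ ∧ ∀ t : ℂ, ‖t‖ < δ → ∃ u : (H →L[ℂ] H)ˣ, (u : H →L[ℂ] H) = 1 + t • Z := by
  refine ⟨1 / (‖Z‖ + 1), by positivity, fun t ht => ?_⟩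
  have h1 : ‖-(t • Z)‖ < 1 := by
    rw [norm_neg, norm_smul]
    have hZ : 0 ≤ ‖Z‖ := norm_nonneg Z
    rw [lt_div_iff₀ (by positivity)] at ht
    have ht0 : 0 ≤ ‖t‖ := norm_nonneg t
    nlinarith
  refine ⟨Units.oneSub (-(t • Z)) h1, ?_⟩
  rw [Units.val_oneSub, sub_neg_eq_add]

theorem li_small {T : H →L[ℂ] H} (h : LI T) (Y : H →L[ℂ] H) :
    ∃ δ : ℝ, 0 < δ ∧ ∀ t : ℂ, ‖t‖ < δ → LI (T + t • Y) := by
  obtain ⟨S, hS⟩ := h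
  obtain ⟨δ, hδ, H1⟩ := li_small_unit (S * Y)
  refine ⟨δ, hδ, fun t ht => ?_⟩
  obtain ⟨u, hu⟩ := H1 t ht
  refine ⟨(↑u⁻¹ : H →L[ℂ] H) * S, ?_⟩
  have h1 : (↑u⁻¹ : H →L[ℂ] H) * S * (T + t • Y) - 1 = (↑u⁻¹ : H →L[ℂ] H) * (S * T - 1) := by
    have h2 : (↑u⁻¹ : H →L[ℂ] H) * (1 + t • (S * Y)) = 1 := by
      rw [← hu]
      exact u.inv_mul
    have h3 : S * (T + t • Y) = (S * T - 1) + (1 + t • (S * Y)) := by
      rw [mul_add, mul_smul_comm]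
      abel
    rw [mul_assoc, h3, mul_add, h2]
    abel
  rw [h1]
  exact hS.mul_left _

theorem ri_small {T : H →L[ℂ] H} (h : RI T) (Y : H →L[ℂ] H) :
    ∃ δ : ℝ, 0 < δ ∧ ∀ t : ℂ, ‖t‖ < δ → RI (T + t • Y) := by
  obtain ⟨S, hS⟩ := h
  obtain ⟨δ, hδ, H1⟩ := li_small_unit (Y * S)
  refine ⟨δ, hδ, fun t ht => ?_⟩
  obtain ⟨u, hu⟩ := H1 t ht
  refine ⟨S * (↑u⁻¹ : H →L[ℂ] H), ?_⟩
  have h1 : (T + t • Y) * (S * (↑u⁻¹ : H →L[ℂ] H)) - 1 = (T * S - 1) * (↑u⁻¹ : H →L[ℂ] H) := by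
    have h2 : (1 + t • (Y * S)) * (↑u⁻¹ : H →L[ℂ] H) = 1 := by
      rw [← hu]
      exact u.mul_inv
    have h3 : (T + t • Y) * S = (T * S - 1) + (1 + t • (Y * S)) := by
      rw [add_mul, smul_mul_assoc]
      abel
    rw [← mul_assoc, h3, add_mul, h2]
    abel
  rw [h1]
  exact hS.mul_right _


end JB

end Pool.Agent.Helper280.GI
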