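import Mathlib
import Pool.Agent.Helper280.GI.Basic
import Pool.Agent.Helper280.GI.Quot

set_option autoImplicit false

namespace Pool.Agent.Helper280.GI



section JB



variable {H : Type*} [NormedAddCommGroup H] [InnerProductSpace ℂ H] [CompleteSpace H]

/-- existence of a Leavitt pair of isometries -/
lemma exists_leavitt (hinf : ¬ FiniteDimensional ℂ H) : ∃ u v : H →L[ℂ] H,
    star u * u = 1 ∧ star v * v = 1 ∧ star u * v = 0 ∧ star v * u = 0 ∧
      u * star u + v * star v = 1 := by
  classical
  obtain ⟨w, b, hb⟩ := exists_hilbertBasis ℂ H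
  have hdense : Dense (Submodule.span ℂ (Set.range b) : Set H) := by
    rw [Submodule.dense_iff_topologicalClosure_eq_top]
    exact b.dense_span
  have hw : Infinite w := by
    by_contra hfin
    rw [not_infinite_iff_finite] at hfin
    apply hinf
    have hf : (Set.range b).Finite := Set.finite_range b
    have h1 : FiniteDimensional ℂ (Submodule.span ℂ (Set.range b)) :=
      FiniteDimensional.span_of_finite ℂ hf
    have h2 : (Submodule.span ℂ (Set.range b)) = ⊤ := by
      have h3 := b.dense_span
      rwa [(Submodule.closed_of_finiteDimensional _).submodule_topologicalClosure_eq] at h3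
    rw [h2] at h1
    exact (LinearEquiv.finiteDimensional (Submodule.topEquiv (R := ℂ) (M := H)))
  obtain ⟨σ⟩ : Nonempty (w ⊕ w ≃ w) := by
    rw [← Cardinal.eq]
    simp only [Cardinal.mk_sum, Cardinal.lift_id]
    exact Cardinal.add_eq_self (Cardinal.aleph0_le_mk w)
  have hiso : ∀ f : w → w, Function.Injective f → ∃ u : H →L[ℂ] H, star u * u = 1 ∧
      ∀ i, u (b i) = b (f i) := by
    intro f hf
    let u0 : H →ₗᵢ[ℂ] H :=
      ((b.orthonormal.comp f hf).orthogonalFamily.linearIsometry).comp b.repr.toLinearIsometry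
    refine ⟨u0.toContinuousLinearMap, ?_, ?_⟩
    · have := (ContinuousLinearMap.norm_map_iff_adjoint_comp_self u0.toContinuousLinearMap).1
        (fun x => u0.norm_map x)
      exact this
    · intro i
      show (b.orthonormal.comp f hf).orthogonalFamily.linearIsometry (b.repr (b i)) = b (f i)
      rw [b.repr_self, OrthogonalFamily.linearIsometry_apply_single]
      simp
  obtain ⟨u, hu1, hu2⟩ := hiso (fun i => σ (Sum.inl i)) (σ.injective.comp Sum.inl_injective)
  obtain ⟨v, hv1, hv2⟩ := hiso (fun i => σ (Sum.inr i)) (σ.injective.comp Sum.inr_injective)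
  have hzero : ∀ y : H, (∀ j, inner ℂ (b j) y = (0 : ℂ)) → y = 0 := by
    intro y hy
    apply b.repr.injective
    rw [map_zero]
    ext j
    rw [b.repr_apply_apply, hy j]
    rfl
  have hcross : ∀ (f g : w → w) (p q : H →L[ℂ] H), (∀ i, p (b i) = b (f i)) →
      (∀ i, q (b i) = b (g i)) → (∀ i j, f i ≠ g j) → star p * q = 0 := by
    intro f g p q hp hq hfg
    refine ContinuousLinearMap.ext_on hdense ?_
    rintro _ ⟨i, rfl⟩
    show star p (q (b i)) = 0
    rw [hq]
    apply hzero
    intro j
    rw [ContinuousLinearMap.star_eq_adjoint, ContinuousLinearMap.adjoint_inner_right, hp]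
    exact b.orthonormal.2 (hfg j i)
  have huv : star u * v = 0 := hcross _ _ u v hu2 hv2 (fun i j h => by
    exact absurd (σ.injective h) (by simp))
  have hvu : star v * u = 0 := hcross _ _ v u hv2 hu2 (fun i j h => by
    exact absurd (σ.injective h) (by simp))
  refine ⟨u, v, hu1, hv1, huv, hvu, ?_⟩
  refine ContinuousLinearMap.ext_on hdense ?_
  rintro _ ⟨k, rfl⟩
  obtain ⟨s, rfl⟩ := σ.surjective k
  show u (star u (b (σ s))) + v (star v (b (σ s))) = b (σ s)
  have e1 : ∀ x, star u (u x) = x := fun x => DFunLike.congr_fun hu1 x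
  have e2 : ∀ x, star v (v x) = x := fun x => DFunLike.congr_fun hv1 x
  have e3 : ∀ x, star u (v x) = 0 := fun x => DFunLike.congr_fun huv x
  have e4 : ∀ x, star v (u x) = 0 := fun x => DFunLike.congr_fun hvu x
  rcases s with i | i
  · rw [← hu2 i, e1, e4, map_zero, add_zero]
  · rw [← hv2 i, e2, e3, map_zero, zero_add]

/-- the infinite swindle -/
lemma exists_swindle (u v : H →L[ℂ] H) (hu : star u * u = 1) (hv : star v * v = 1)
    (huv : star u * v = 0) (hvu : star v * u = 0) (h1 : u * star u + v * star v = 1)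
    (a : H →L[ℂ] H) : ∃ D : H →L[ℂ] H, D = u * a * star u + v * D * star v := by
  have hvn : ∀ n : ℕ, (star v) ^ n * v ^ n = 1 := by
    intro n
    induction n with
    | zero => simp
    | succ n ih =>
      rw [pow_succ, pow_succ', mul_assoc, ← mul_assoc (star v) v, hv, one_mul, ih]
  have hlt : ∀ n k : ℕ, (star v) ^ (n + (k + 1)) * v ^ n * u = 0 := by
    intro n k
    rw [add_comm n, pow_add, mul_assoc ((star v) ^ (k + 1)), hvn, mul_one, pow_succ, mul_assoc,
      hvu, mul_zero]
  have hgt : ∀ n k : ℕ, star u * ((star v) ^ n * v ^ (n + (k + 1))) = 0 := by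
    intro n k
    rw [pow_add, ← mul_assoc ((star v) ^ n), hvn, one_mul, pow_succ', ← mul_assoc, huv, zero_mul]
  have hstar : ∀ n : ℕ, star (v ^ n * u) = star u * (star v) ^ n := by
    intro n; rw [star_mul, star_pow]
  have hself : ∀ n : ℕ, star (v ^ n * u) * (v ^ n * u) = 1 := by
    intro n
    rw [hstar, mul_assoc, ← mul_assoc ((star v) ^ n), hvn, one_mul, hu]
  have hcross : ∀ m n : ℕ, m ≠ n → star (v ^ m * u) * (v ^ n * u) = 0 := by
    intro m n hmn
    rw [hstar]
    rcases lt_or_gt_of_ne hmn with h | h
    · obtain ⟨k, rfl⟩ := Nat.exists_eq_add_of_lt h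
      have := hgt m k
      rw [mul_assoc, ← mul_assoc ((star v) ^ m), ← mul_assoc (star u), show m + k + 1 = m + (k + 1) by ring,
        this, zero_mul]
    · obtain ⟨k, rfl⟩ := Nat.exists_eq_add_of_lt h
      have := hlt n k
      rw [mul_assoc, ← mul_assoc ((star v) ^ _), show n + k + 1 = n + (k + 1) by ring, this,
        mul_zero]
  have hnorm : ∀ (n : ℕ) (x : H), ‖(v ^ n * u) x‖ = ‖x‖ := fun n =>
    (ContinuousLinearMap.norm_map_iff_adjoint_comp_self (v ^ n * u)).2 (hself n)
  let W : ℕ → (H →ₗᵢ[ℂ] H) := fun n => ⟨((v ^ n * u : H →L[ℂ] H) : H →ₗ[ℂ] H), hnorm n⟩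
  have hW : ∀ n x, W n x = (v ^ n * u) x := fun n x => rfl
  have hOF : OrthogonalFamily ℂ (fun _ : ℕ => H) W := by
    intro m n hmn x y
    show inner ℂ ((v ^ m * u) x) ((v ^ n * u) y) = (0 : ℂ)
    rw [← ContinuousLinearMap.adjoint_inner_right, ← ContinuousLinearMap.star_eq_adjoint]
    have := DFunLike.congr_fun (hcross m n hmn) y
    have e : (star (v ^ m * u)) ((v ^ n * u) y) = 0 := this
    rw [e, inner_zero_right]
  have hpyth : ∀ y : H, ‖y‖ ^ 2 = ‖star u y‖ ^ 2 + ‖star v y‖ ^ 2 := by
    intro y
    have hA : ∀ p : H →L[ℂ] H, ‖star p y‖ ^ 2 = RCLike.re (inner ℂ ((p * star p) y) y : ℂ) := by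
      intro p
      rw [ContinuousLinearMap.apply_norm_sq_eq_inner_adjoint_left (star p) y,
        ← ContinuousLinearMap.star_eq_adjoint, star_star]
      rfl
    rw [hA u, hA v, ← map_add, ← inner_add_left, ← add_apply, h1]
    exact (inner_self_eq_norm_sq (𝕜 := ℂ) y).symm
  have hsum : ∀ x : H, Summable (fun n : ℕ => ‖star u (((star v) ^ n) x)‖ ^ 2) := by
    intro x
    refine summable_of_sum_range_le (c := ‖x‖ ^ 2) (fun n => by positivity) (fun n => ?_)
    have h3 : ∀ n : ℕ, ∑ i ∈ Finset.range n, ‖star u (((star v) ^ i) x)‖ ^ 2 +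
        ‖((star v) ^ n) x‖ ^ 2 = ‖x‖ ^ 2 := by
      intro n
      induction n with
      | zero => simp
      | succ n ih =>
        have e9 : ((star v) ^ (n + 1)) x = star v (((star v) ^ n) x) := by
          rw [pow_succ']; rfl
        rw [Finset.sum_range_succ, ← ih, hpyth (((star v) ^ n) x), e9]
        ring
    have := h3 n
    have h4 : 0 ≤ ‖((star v) ^ n) x‖ ^ 2 := by positivity
    linarith
  let g : ℕ → (H →L[ℂ] H) := fun N => ∑ n ∈ Finset.range N, v ^ n * (u * a * star u) * (star v) ^ n
  have hconv : ∀ x : H, ∃ y, Filter.Tendsto (fun N => g N x) Filter.atTop (nhds y) := by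
    intro x
    have h5 : Summable (fun n : ℕ => W n (a (star u (((star v) ^ n) x)))) := by
      rw [hOF.summable_iff_norm_sq_summable]
      refine Summable.of_nonneg_of_le (fun n => by positivity) (fun n => ?_)
        ((hsum x).mul_left (‖a‖ ^ 2))
      rw [← mul_pow]
      gcongr
      exact a.le_opNorm _
    refine ⟨∑' n : ℕ, W n (a (star u (((star v) ^ n) x))), ?_⟩
    have h6 := h5.hasSum.tendsto_sum_nat
    refine h6.congr (fun N => ?_)
    simp only [g, sum_apply]
    refine Finset.sum_congr rfl (fun n _ => ?_)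
    rw [hW]
    rfl
  choose f hf using hconv
  let D : H →L[ℂ] H := continuousLinearMapOfTendsto g (f := f) (tendsto_pi_nhds.2 hf)
  have hD : ∀ x, D x = f x := fun x => rfl
  refine ⟨D, ?_⟩
  ext x
  show D x = u (a (star u x)) + v (D (star v x))
  rw [hD, hD]
  have h7 : Filter.Tendsto (fun N => g (N + 1) x) Filter.atTop (nhds (f x)) :=
    (hf x).comp (Filter.tendsto_add_atTop_nat 1)
  have h8 : ∀ N, g (N + 1) x = u (a (star u x)) + v (g N (star v x)) := by
    intro N
    have h9 : g (N + 1) = u * a * star u + v * g N * star v := by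
      simp only [g]
      rw [Finset.sum_range_succ', pow_zero, pow_zero, one_mul, mul_one, add_comm,
        Finset.mul_sum, Finset.sum_mul]
      congr 1
      refine Finset.sum_congr rfl (fun n _ => ?_)
      rw [pow_succ' v, pow_succ (star v)]
      simp only [mul_assoc]
    rw [h9]
    rfl
  have h10 : Filter.Tendsto (fun N => g (N + 1) x) Filter.atTop
      (nhds (u (a (star u x)) + v (f (star v x)))) := by
    simp_rw [h8]
    exact tendsto_const_nhds.add ((v.continuous.tendsto _).comp (hf (star v x)))
  exact tendsto_nhds_unique h7 h10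

lemma span_idem_aux (hinf : ¬ FiniteDimensional ℂ H) :
    Submodule.span ℂ {e : H →L[ℂ] H | e * e = e} = ⊤ := by
  obtain ⟨u, v, hu, hv, huv, hvu, h1⟩ := exists_leavitt hinf
  have hu' : ∀ z, star u * (u * z) = z := fun z => by rw [← mul_assoc, hu, one_mul]
  have hv' : ∀ z, star v * (v * z) = z := fun z => by rw [← mul_assoc, hv, one_mul]
  have huv' : ∀ z, star u * (v * z) = 0 := fun z => by rw [← mul_assoc, huv, zero_mul]
  have hvu' : ∀ z, star v * (u * z) = 0 := fun z => by rw [← mul_assoc, hvu, zero_mul]
  set V := Submodule.span ℂ {e : H →L[ℂ] H | e * e = e} with hV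
  have hidem : ∀ e : H →L[ℂ] H, e * e = e → e ∈ V := fun e he => Submodule.subset_span he
  have huu : u * star u ∈ V := hidem _ (by
    simp only [mul_assoc, hu'])
  have hvv : v * star v ∈ V := hidem _ (by
    simp only [mul_assoc, hv'])
  have h12 : ∀ b : H →L[ℂ] H, u * b * star v ∈ V := by
    intro b
    have h2 : u * star u + u * b * star v ∈ V := hidem _ (by
      simp only [mul_add, add_mul, mul_assoc, hu', hvu', mul_zero, add_zero])
    have := V.sub_mem h2 huu
    simpa using this
  have h21 : ∀ b : H →L[ℂ] H, v * b * star u ∈ V := by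
    intro b
    have h2 : v * star v + v * b * star u ∈ V := hidem _ (by
      simp only [mul_add, add_mul, mul_assoc, hv', huv', mul_zero, add_zero])
    have := V.sub_mem h2 hvv
    simpa using this
  have hbc : ∀ b c : H →L[ℂ] H, v * (c * b) * star v - u * (b * c) * star u ∈ V := by
    intro b c
    have hYX : ((1 - b * c) * star u + b * star v) * (u + v * c) = 1 := by
      simp only [mul_add, add_mul, mul_assoc, hu, hv', huv', hvu, mul_zero, add_zero, mul_one,
        zero_add]
      abel
    have h2 : (u + v * c) * ((1 - b * c) * star u + b * star v) ∈ V := hidem _ (by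
      rw [mul_assoc (u + v * c), ← mul_assoc ((1 - b * c) * star u + b * star v), hYX, one_mul])
    have h3 : v * (c * b) * star v - u * (b * c) * star u =
        (u + v * c) * ((1 - b * c) * star u + b * star v) - u * star u - u * b * star v -
          v * (c * (1 - b * c)) * star u := by
      noncomm_ring
    rw [h3]
    exact V.sub_mem (V.sub_mem (V.sub_mem h2 huu) (h12 b)) (h21 _)
  have hvu2 : ∀ c : H →L[ℂ] H, v * c * star v - u * c * star u ∈ V := by
    intro c
    simpa using hbc 1 c
  have hcomm_u : ∀ b c : H →L[ℂ] H, u * (c * b - b * c) * star u ∈ V := by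
    intro b c
    have h3 : u * (c * b - b * c) * star u = (v * (c * b) * star v - u * (b * c) * star u) -
        (v * (c * b) * star v - u * (c * b) * star u) := by noncomm_ring
    rw [h3]
    exact V.sub_mem (hbc b c) (hvu2 _)
  have hcomm_v : ∀ b c : H →L[ℂ] H, v * (c * b - b * c) * star v ∈ V := by
    intro b c
    have h3 : v * (c * b - b * c) * star v = (v * (c * b - b * c) * star v -
        u * (c * b - b * c) * star u) + u * (c * b - b * c) * star u := by noncomm_ring
    rw [h3]
    exact V.add_mem (hvu2 _) (hcomm_u b c)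
  -- every operator is a sum of commutators
  set C := Submodule.span ℂ {z : H →L[ℂ] H | ∃ b c, z = c * b - b * c} with hC
  have hcm : ∀ b c : H →L[ℂ] H, c * b - b * c ∈ C := fun b c => Submodule.subset_span ⟨b, c, rfl⟩
  have c11 : ∀ a : H →L[ℂ] H, u * a * star u ∈ C := by
    intro a
    obtain ⟨D, hD⟩ := exists_swindle u v hu hv huv hvu h1 a
    have h3 : u * a * star u = star v * (v * D) - (v * D) * star v := by
      rw [hv']
      exact eq_sub_of_add_eq hD.symm
    rw [h3]
    exact hcm _ _
  have c22 : ∀ a : H →L[ℂ] H, v * a * star v ∈ C := by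
    intro a
    obtain ⟨D, hD⟩ := exists_swindle v u hv hu hvu huv (by rw [add_comm]; exact h1) a
    have h3 : v * a * star v = star u * (u * D) - (u * D) * star u := by
      rw [hu']
      exact eq_sub_of_add_eq hD.symm
    rw [h3]
    exact hcm _ _
  have c12 : ∀ a : H →L[ℂ] H, u * a * star v ∈ C := by
    intro a
    have h3 : u * a * star v = (u * a * star v) * (v * star v) - (v * star v) * (u * a * star v) := by
      simp only [mul_assoc, hv', hvu', mul_zero, sub_zero]
    rw [h3]
    exact hcm _ _
  have c21 : ∀ a : H →L[ℂ] H, v * a * star u ∈ C := by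
    intro a
    have h3 : v * a * star u = (v * a * star u) * (u * star u) - (u * star u) * (v * a * star u) := by
      simp only [mul_assoc, hu', huv', mul_zero, sub_zero]
    rw [h3]
    exact hcm _ _
  have hdec : ∀ x : H →L[ℂ] H, x = u * (star u * x * u) * star u + u * (star u * x * v) * star v +
      (v * (star v * x * u) * star u + v * (star v * x * v) * star v) := by
    intro x
    have h3 : x = (u * star u + v * star v) * x * (u * star u + v * star v) := by
      rw [h1, one_mul, mul_one]
    conv_lhs => rw [h3]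
    noncomm_ring
  have hCtop : ∀ x : H →L[ℂ] H, x ∈ C := by
    intro x
    rw [hdec x]
    exact C.add_mem (C.add_mem (c11 _) (c12 _)) (C.add_mem (c21 _) (c22 _))
  have hu_all : ∀ x : H →L[ℂ] H, u * x * star u ∈ V := by
    intro x
    have hx := hCtop x
    rw [hC] at hx
    induction hx using Submodule.span_induction with
    | mem z hz =>
      obtain ⟨b, c, rfl⟩ := hz
      exact hcomm_u b c
    | zero => simp
    | add y z _ _ hy hz =>
      rw [mul_add, add_mul]
      exact V.add_mem hy hz
    | smul r y _ hy =>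
      rw [mul_smul_comm, smul_mul_assoc]
      exact V.smul_mem r hy
  have hv_all : ∀ x : H →L[ℂ] H, v * x * star v ∈ V := by
    intro x
    have h3 : v * x * star v = (v * x * star v - u * x * star u) + u * x * star u := by abel
    rw [h3]
    exact V.add_mem (hvu2 x) (hu_all x)
  rw [eq_top_iff]
  intro x _
  rw [hdec x]
  exact V.add_mem (V.add_mem (hu_all _) (h12 _)) (V.add_mem (h21 _) (hv_all _))

theorem span_idem [TopologicalSpace.SeparableSpace H] (hinf : ¬ FiniteDimensional ℂ H) :
    Submodule.span ℂ {e : H →L[ℂ] H | e * e = e} = ⊤ := span_idem_aux hinf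



end JB

end Pool.Agent.Helper280.GI
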