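import Mathlib
import Pool.Agent.Helper280.GI.Basic
import Pool.Agent.Helper280.GI.Quot

set_option autoImplicit false

namespace Pool.Agent.Helper280.GI



section JB



variable {H : Type*} [NormedAddCommGroup H] [InnerProductSpace ℂ H] [CompleteSpace H]

/-- conjugation along a Hilbert basis -/
noncomputable def cj (b : HilbertBasis ℕ ℂ H) (x : H) : H := b.repr.symm (star (b.repr x))

omit [CompleteSpace H] in
theorem cj_add (b : HilbertBasis ℕ ℂ H) (x y : H) : cj b (x + y) = cj b x + cj b y := by
  simp [cj]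

omit [CompleteSpace H] in
theorem cj_smul (b : HilbertBasis ℕ ℂ H) (c : ℂ) (x : H) :
    cj b (c • x) = (starRingEnd ℂ c) • cj b x := by
  unfold cj
  rw [map_smul, star_smul, map_smul]
  rfl

omit [CompleteSpace H] in
theorem cj_norm (b : HilbertBasis ℕ ℂ H) (x : H) : ‖cj b x‖ = ‖x‖ := by
  unfold cj
  rw [LinearIsometryEquiv.norm_map, norm_star, LinearIsometryEquiv.norm_map]

omit [CompleteSpace H] in
theorem cj_cj (b : HilbertBasis ℕ ℂ H) (x : H) : cj b (cj b x) = x := by
  simp [cj]

omit [CompleteSpace H] in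
theorem cj_inner (b : HilbertBasis ℕ ℂ H) (x y : H) :
    inner ℂ (cj b x) (cj b y) = inner ℂ y x := by
  unfold cj
  rw [LinearIsometryEquiv.inner_map_map, ← b.repr.inner_map_map y x,
    lp.inner_eq_tsum, lp.inner_eq_tsum]
  congr 1
  funext i
  simp [mul_comm]

omit [CompleteSpace H] in
theorem cj_inner' (b : HilbertBasis ℕ ℂ H) (x y : H) :
    inner ℂ x (cj b y) = inner ℂ y (cj b x) := by
  conv_lhs => rw [← cj_cj b x]
  exact cj_inner b _ _

omit [CompleteSpace H] in
theorem cj_basis (b : HilbertBasis ℕ ℂ H) (i : ℕ) : cj b (b i) = b i := by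
  apply b.repr.injective
  unfold cj
  rw [LinearIsometryEquiv.apply_symm_apply, b.repr_self]
  ext j
  rw [lp.coeFn_star]
  simp only [Pi.star_apply, lp.single_apply]
  by_cases h : j = i
  · subst h; simp
  · simp [Pi.single_apply, h]

/-- the transpose of an operator -/
noncomputable def trp (b : HilbertBasis ℕ ℂ H) (T : H →L[ℂ] H) : H →L[ℂ] H :=
  LinearMap.mkContinuous
    { toFun := fun x => cj b ((ContinuousLinearMap.adjoint T) (cj b x))
      map_add' := fun x y => by rw [cj_add, map_add, cj_add]
      map_smul' := fun c x => by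
        rw [cj_smul, map_smul, cj_smul]
        simp }
    ‖ContinuousLinearMap.adjoint T‖
    (fun x => by
      show ‖cj b ((ContinuousLinearMap.adjoint T) (cj b x))‖ ≤ _
      rw [cj_norm]
      refine (ContinuousLinearMap.le_opNorm _ _).trans ?_
      rw [cj_norm])

theorem trp_apply (b : HilbertBasis ℕ ℂ H) (T : H →L[ℂ] H) (x : H) :
    trp b T x = cj b ((ContinuousLinearMap.adjoint T) (cj b x)) := rfl

theorem trp_adj (b : HilbertBasis ℕ ℂ H) (T : H →L[ℂ] H) (x : H) :
    ContinuousLinearMap.adjoint (trp b T) x = cj b (T (cj b x)) := by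
  refine ext_inner_right ℂ fun y => ?_
  rw [ContinuousLinearMap.adjoint_inner_left, trp_apply, cj_inner',
    ContinuousLinearMap.adjoint_inner_left]
  have h := cj_inner b (T (cj b x)) (cj b y)
  rw [cj_cj] at h
  exact h.symm

theorem fr_adjoint {T : H →L[ℂ] H} (hT : FR T) : FR (ContinuousLinearMap.adjoint T) := by
  unfold FR at *
  set R := LinearMap.range (T : H →ₗ[ℂ] H) with hR
  have hcomp : CompleteSpace R := FiniteDimensional.complete ℂ R
  have hle : LinearMap.range ((ContinuousLinearMap.adjoint T : H →L[ℂ] H) : H →ₗ[ℂ] H) ≤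
      R.map ((ContinuousLinearMap.adjoint T : H →L[ℂ] H) : H →ₗ[ℂ] H) := by
    rintro _ ⟨y, rfl⟩
    refine ⟨R.starProjection y, Submodule.starProjection_apply_mem R y, ?_⟩
    have hz : ContinuousLinearMap.adjoint T (y - R.starProjection y) = 0 := by
      refine ext_inner_right ℂ fun x => ?_
      rw [ContinuousLinearMap.adjoint_inner_left, inner_zero_left]
      have hmem := Submodule.sub_starProjection_mem_orthogonal (K := R) y
      exact Submodule.inner_left_of_mem_orthogonal (LinearMap.mem_range_self (T : H →ₗ[ℂ] H) x) hmem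
    rw [map_sub, sub_eq_zero] at hz
    exact hz.symm
  have hfd : FiniteDimensional ℂ (R.map ((ContinuousLinearMap.adjoint T : H →L[ℂ] H) : H →ₗ[ℂ] H)) :=
    Module.Finite.map _ _
  exact Submodule.finiteDimensional_of_le hle

theorem exists_transpose (b : HilbertBasis ℕ ℂ H) :
    ∃ tr : (H →L[ℂ] H) →ₗ[ℂ] (H →L[ℂ] H),
      (∀ T i j, inner ℂ (b j) (tr T (b i)) = inner ℂ (b i) (T (b j))) ∧
      (∀ S T, tr (S * T) = tr T * tr S) ∧ (∀ T, tr (tr T) = T) ∧ tr 1 = 1 ∧
      (∀ T, FR T → FR (tr T)) := by
  refine ⟨{ toFun := trp b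
            map_add' := ?_
            map_smul' := ?_ }, ?_, ?_, ?_, ?_, ?_⟩
  · intro S T
    ext x
    simp [trp_apply, cj_add]
  · intro c T
    ext x
    rw [trp_apply]
    have h1 : ContinuousLinearMap.adjoint (c • T) = (starRingEnd ℂ c) • ContinuousLinearMap.adjoint T :=
      map_smulₛₗ _ _ _
    rw [h1, ContinuousLinearMap.smul_apply, cj_smul]
    simp [trp_apply]
  · intro T i j
    show inner ℂ (b j) (trp b T (b i)) = _
    rw [trp_apply, cj_inner', cj_basis, cj_basis, ContinuousLinearMap.adjoint_inner_left]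
  · intro S T
    show trp b (S * T) = trp b T * trp b S
    ext x
    rw [ContinuousLinearMap.mul_apply, trp_apply, trp_apply, trp_apply, cj_cj]
    congr 1
    have : ContinuousLinearMap.adjoint (S * T) =
      ContinuousLinearMap.adjoint T * ContinuousLinearMap.adjoint S :=
      ContinuousLinearMap.adjoint_comp S T
    rw [this, ContinuousLinearMap.mul_apply]
  · intro T
    show trp b (trp b T) = T
    ext x
    rw [trp_apply, trp_adj, cj_cj, cj_cj]
  · show trp b 1 = 1
    ext x
    have : ContinuousLinearMap.adjoint (1 : H →L[ℂ] H) = 1 := ContinuousLinearMap.adjoint_id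
    rw [trp_apply, this, ContinuousLinearMap.one_apply, cj_cj, ContinuousLinearMap.one_apply]
  · intro T hT
    show FR (trp b T)
    have hA := fr_adjoint hT
    unfold FR at hA ⊢
    obtain ⟨s, hs⟩ := (Submodule.fg_iff_finiteDimensional _).2 hA
    have hle : LinearMap.range ((trp b T : H →L[ℂ] H) : H →ₗ[ℂ] H) ≤
        Submodule.span ℂ (cj b '' (s : Set H)) := by
      rintro _ ⟨x, rfl⟩
      show cj b ((ContinuousLinearMap.adjoint T) (cj b x)) ∈ _
      have hmem : (ContinuousLinearMap.adjoint T) (cj b x) ∈ Submodule.span ℂ (s : Set H) := by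
        rw [hs]
        exact LinearMap.mem_range_self _ _
      generalize (ContinuousLinearMap.adjoint T) (cj b x) = v at hmem
      induction hmem using Submodule.span_induction with
      | mem y hy => exact Submodule.subset_span ⟨y, hy, rfl⟩
      | zero =>
        have : cj b (0 : H) = 0 := by simp [cj]
        rw [this]; exact Submodule.zero_mem _
      | add y z _ _ h1 h2 => rw [cj_add]; exact Submodule.add_mem _ h1 h2
      | smul c y _ h1 => rw [cj_smul]; exact Submodule.smul_mem _ _ h1
    have hfin : FiniteDimensional ℂ (Submodule.span ℂ (cj b '' (s : Set H))) :=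
      FiniteDimensional.span_of_finite ℂ (s.finite_toSet.image _)
    exact Submodule.finiteDimensional_of_le hle


end JB

end Pool.Agent.Helper280.GI
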