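import Mathlib
import Pool.Agent.Helper280.GI.Basic
import Pool.Agent.Helper280.GI.Quot
import Pool.Agent.Helper280.GI.JGiiff
import Pool.Agent.Helper280.GI.JIdemequiv
import Pool.Agent.Helper280.GI.JCompactrg
import Pool.Agent.Helper280.GI.JAlg
import Pool.Agent.Helper280.GI.JSmallpert
import Pool.Agent.Helper280.GI.JAtkinson
import Pool.Agent.Helper280.GI.JCalkin
import Pool.Agent.Helper280.GI.JCompactnotfr

set_option autoImplicit false

namespace Pool.Agent.Helper280.GI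

section

variable {H : Type*} [NormedAddCommGroup H] [InnerProductSpace ℂ H] [CompleteSpace H]

lemma rg_iff {T : H →L[ℂ] H} : RG T ↔ ∃ s : QH H, qm H T * s * qm H T = qm H T := by
  constructor
  · rintro ⟨S, hS⟩
    refine ⟨qm H S, ?_⟩
    rw [← map_mul, ← map_mul]
    exact qm_eq.2 hS
  · rintro ⟨s, hs⟩
    obtain ⟨S, rfl⟩ := qm_surjective H s
    refine ⟨S, ?_⟩
    rw [← map_mul, ← map_mul] at hs
    exact qm_eq.1 hs

lemma li_iff {T : H →L[ℂ] H} : LI T ↔ ∃ s : QH H, s * qm H T = 1 := by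
  constructor
  · rintro ⟨S, hS⟩
    refine ⟨qm H S, ?_⟩
    rw [← map_mul, ← map_one (qm H)]
    exact qm_eq.2 hS
  · rintro ⟨s, hs⟩
    obtain ⟨S, rfl⟩ := qm_surjective H s
    refine ⟨S, ?_⟩
    rw [← map_mul, ← map_one (qm H)] at hs
    exact qm_eq.1 hs

lemma ri_iff {T : H →L[ℂ] H} : RI T ↔ ∃ s : QH H, qm H T * s = 1 := by
  constructor
  · rintro ⟨S, hS⟩
    refine ⟨qm H S, ?_⟩
    rw [← map_mul, ← map_one (qm H)]
    exact qm_eq.2 hS
  · rintro ⟨s, hs⟩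
    obtain ⟨S, rfl⟩ := qm_surjective H s
    refine ⟨S, ?_⟩
    rw [← map_mul, ← map_one (qm H)] at hs
    exact qm_eq.1 hs

lemma inv_iff_unit {T : H →L[ℂ] H} : (LI T ∧ RI T) ↔ IsUnit (qm H T) := by
  rw [li_iff, ri_iff]
  constructor
  · rintro ⟨⟨s, hs⟩, ⟨t, ht⟩⟩
    have hst : s = t := by
      calc s = s * (qm H T * t) := by rw [ht, mul_one]
        _ = t := by rw [← mul_assoc, hs, one_mul]
    exact ⟨⟨qm H T, s, by rw [hst, ht], hs⟩, rfl⟩
  · rintro ⟨u, hu⟩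
    rw [← hu]
    exact ⟨⟨_, u.inv_mul⟩, ⟨_, u.mul_inv⟩⟩

lemma rg_congr {S T : H →L[ℂ] H} (h : FR (S - T)) : RG S ↔ RG T := by
  rw [rg_iff, rg_iff, qm_eq.2 h]

lemma li_congr {S T : H →L[ℂ] H} (h : FR (S - T)) : LI S ↔ LI T := by
  rw [li_iff, li_iff, qm_eq.2 h]

lemma ri_congr {S T : H →L[ℂ] H} (h : FR (S - T)) : RI S ↔ RI T := by
  rw [ri_iff, ri_iff, qm_eq.2 h]

lemma FR.compact {T : H →L[ℂ] H} (hT : FR T) : IsCompactOperator T := by
  have : FiniteDimensional ℂ (LinearMap.range (T : H →ₗ[ℂ] H)) := hT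
  have h1 : IsCompactOperator ((LinearMap.range (T : H →ₗ[ℂ] H)).subtypeL) :=
    isCompactOperator_of_locallyCompactSpace_rng _
  have h2 := h1.comp_clm (T.codRestrict (LinearMap.range (T : H →ₗ[ℂ] H))
    (fun x => LinearMap.mem_range_self (T : H →ₗ[ℂ] H) x))
  exact h2

lemma gi' : ∀ T : H →L[ℂ] H, RG T → ∃ S : H →L[ℂ] H, T * S * T = T ∧ S * T * S = S :=
  fun T hT => (gi_iff T).2 hT

lemma hE [TopologicalSpace.SeparableSpace H] :
    ∀ p : QH H, p * p = p → p ≠ 0 → ∃ y z, z * y = 1 ∧ y * z = p :=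
  fun p hp h0 => idem_equiv gi' p hp h0

lemma li_of_norm_lt {d : H →L[ℂ] H} (hd : ‖d‖ < 1) : LI (1 - d) ∧ RI (1 - d) := by
  have h1 : IsUnit (1 - d) := by
    have := Units.oneSub d hd
    exact ⟨Units.oneSub d hd, rfl⟩
  obtain ⟨u, hu⟩ := h1
  rw [← hu]
  refine ⟨⟨((u⁻¹ : (H →L[ℂ] H)ˣ) : H →L[ℂ] H), ?_⟩, ⟨((u⁻¹ : (H →L[ℂ] H)ˣ) : H →L[ℂ] H), ?_⟩⟩
  · rw [Units.inv_mul, sub_self]; exact FR.zero
  · rw [Units.mul_inv, sub_self]; exact FR.zero

lemma exists_small_nonregular [TopologicalSpace.SeparableSpace H]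
    (hinf : ¬ FiniteDimensional ℂ H) :
    ∃ d : QH H, (¬ ∃ s, d * s * d = d) ∧ IsUnit (1 - d) := by
  obtain ⟨R, Rn, hR, hRn, hlim⟩ := exists_compact_not_fr (H := H) hinf
  have hRc : IsCompactOperator R :=
    isCompactOperator_of_tendsto hlim (Filter.Eventually.of_forall fun n => (hRn n).compact)
  set ε : ℝ := (‖R‖ + 1)⁻¹ with hε
  have hε0 : 0 < ε := by positivity
  have hεc : ((ε : ℝ) : ℂ) ≠ 0 := by exact_mod_cast hε0.ne'
  set d : H →L[ℂ] H := (ε : ℂ) • R with hd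
  have hdc : IsCompactOperator d := hRc.smul (ε : ℂ)
  have hdn : ‖d‖ < 1 := by
    rw [hd, norm_smul, Complex.norm_real, Real.norm_of_nonneg hε0.le, hε,
      inv_mul_lt_iff₀ (by positivity)]
    linarith
  refine ⟨qm H d, ?_, ?_⟩
  · rw [← rg_iff]
    intro h
    have h1 : FR d := compact_rg gi' hdc h
    apply hR
    have h2 := h1.smul (((ε : ℝ) : ℂ)⁻¹)
    rw [hd, smul_smul, inv_mul_cancel₀ hεc, one_smul] at h2
    exact h2
  · have := inv_iff_unit.1 (li_of_norm_lt hdn)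
    rwa [map_sub, map_one] at this

/-- `x ∉ F` gives a regular `y` with `y + x` not regular. -/
lemma exists_rg_not_rg [TopologicalSpace.SeparableSpace H] (hinf : ¬ FiniteDimensional ℂ H)
    {T : H →L[ℂ] H} (hT : ¬ FR T) : ∃ Y, RG Y ∧ ¬ RG (Y + T) := by
  obtain ⟨d, hd, hd1⟩ := exists_small_nonregular (H := H) hinf
  obtain ⟨y, hy1, hy2⟩ := alg1 hE d hd hd1 (qm H T) (fun h => hT (qm_eq_zero.1 h))
  obtain ⟨Y, rfl⟩ := qm_surjective H y
  refine ⟨Y, rg_iff.2 hy1, fun h => hy2 ?_⟩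
  rw [← map_add]
  exact rg_iff.1 h

lemma rg_of_li {T : H →L[ℂ] H} (h : LI T) : RG T := by
  obtain ⟨s, hs⟩ := li_iff.1 h
  exact rg_iff.2 ⟨s, by rw [mul_assoc, hs, mul_one]⟩

lemma rg_of_ri {T : H →L[ℂ] H} (h : RI T) : RG T := by
  obtain ⟨s, hs⟩ := ri_iff.1 h
  exact rg_iff.2 ⟨s, by rw [hs, one_mul]⟩

lemma sf_iff [TopologicalSpace.SeparableSpace H] (hinf : ¬ FiniteDimensional ℂ H)
    (T : H →L[ℂ] H) : (LI T ∨ RI T) ↔
      ∀ Y : H →L[ℂ] H, ∃ δ : ℝ, 0 < δ ∧ ∀ t : ℂ, ‖t‖ < δ → RG (T + t • Y) := by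
  constructor
  · rintro (h | h) Y
    · obtain ⟨δ, h1, h2⟩ := li_small h Y
      exact ⟨δ, h1, fun t ht => rg_of_li (h2 t ht)⟩
    · obtain ⟨δ, h1, h2⟩ := ri_small h Y
      exact ⟨δ, h1, fun t ht => rg_of_ri (h2 t ht)⟩
  · intro h
    by_contra hcon
    push Not at hcon
    obtain ⟨h1, h2⟩ := hcon
    have hrg : RG T := by
      obtain ⟨δ, hδ, h3⟩ := h 0
      have := h3 0 (by simpa using hδ)
      simpa using this
    obtain ⟨d, hd, hd1⟩ := exists_small_nonregular (H := H) hinf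
    obtain ⟨y, hy⟩ := alg2 hE d hd (qm H T) (rg_iff.1 hrg)
      (fun h => h1 (li_iff.2 h)) (fun h => h2 (ri_iff.2 h))
    obtain ⟨Y, rfl⟩ := qm_surjective H y
    obtain ⟨δ, hδ, h3⟩ := h Y
    have hδ2 : ‖(((δ / 2 : ℝ)) : ℂ)‖ < δ := by
      rw [Complex.norm_real, Real.norm_of_nonneg (by positivity)]
      linarith
    have h4 := h3 _ hδ2
    refine hy (((δ / 2 : ℝ)) : ℂ) ?_ ?_
    · have : (δ / 2 : ℝ) ≠ 0 := by positivity
      exact_mod_cast this
    · rw [← map_smul, ← map_add]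
      exact rg_iff.1 h4

/-- Fredholm operators are the operators invertible modulo compacts. -/
lemma unit_calk_iff {H : Type*} [NormedAddCommGroup H] [InnerProductSpace ℂ H] [CompleteSpace H]
    {T : H →L[ℂ] H} : IsUnit (cmkA T : Calk H) ↔ (LI T ∧ RI T) := by
  constructor
  · rintro ⟨u, hu⟩
    obtain ⟨S, hS⟩ := cmk_surjective (H := H) ((u⁻¹ : (Calk H)ˣ) : Calk H)
    have hS' : cmkA S = ((u⁻¹ : (Calk H)ˣ) : Calk H) := hS
    have h1 : IsCompactOperator (S * T - 1 : H →L[ℂ] H) := by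
      rw [← cmk_eq_zero]
      change (cmkA (S * T - 1 : H →L[ℂ] H) : Calk H) = 0
      rw [map_sub, map_mul, map_one, hS', ← hu, Units.inv_mul, sub_self]
    have h2 : IsCompactOperator (T * S - 1 : H →L[ℂ] H) := by
      rw [← cmk_eq_zero]
      change (cmkA (T * S - 1 : H →L[ℂ] H) : Calk H) = 0
      rw [map_sub, map_mul, map_one, hS', ← hu, Units.mul_inv, sub_self]
    have h3 := compact_fredholm h1
    have h4 := compact_fredholm h2
    rw [add_sub_cancel] at h3 h4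
    obtain ⟨⟨A, hA⟩, _⟩ := h3
    obtain ⟨_, ⟨B, hB⟩⟩ := h4
    exact ⟨⟨A * S, by rwa [mul_assoc]⟩, ⟨S * B, by rwa [← mul_assoc]⟩⟩
  · rintro ⟨⟨A, hA⟩, ⟨B, hB⟩⟩
    have h1 : cmkA A * cmkA T = (1 : Calk H) := by
      have := (cmk_eq_zero _).2 hA.compact
      change (cmkA (A * T - 1 : H →L[ℂ] H) : Calk H) = 0 at this
      rw [map_sub, map_mul, map_one, sub_eq_zero] at this
      exact this
    have h2 : cmkA T * cmkA B = (1 : Calk H) := by
      have := (cmk_eq_zero _).2 hB.compact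
      change (cmkA (T * B - 1 : H →L[ℂ] H) : Calk H) = 0 at this
      rw [map_sub, map_mul, map_one, sub_eq_zero] at this
      exact this
    have h3 : (cmkA A : Calk H) = cmkA B := by
      calc (cmkA A : Calk H) = cmkA A * (cmkA T * cmkA B) := by rw [h2, mul_one]
        _ = cmkA B := by rw [← mul_assoc, h1, one_mul]
    exact ⟨⟨cmkA T, cmkA A, by rw [h3, h2], h1⟩, rfl⟩

lemma calk_nontrivial (hinf : ¬ FiniteDimensional ℂ H) : Nontrivial (Calk H) := by
  refine ⟨⟨(1 : Calk H), 0, ?_⟩⟩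
  intro h
  have h1 : cmk (1 : H →L[ℂ] H) = 0 := h
  rw [cmk_eq_zero] at h1
  apply hinf
  have h2 : IsCompactOperator (id : H → H) := h1
  exact (isCompactOperator_id_iff_finiteDimensional (𝕜 := ℂ) (E := H)).1 h2

lemma unit_of_left_limit {A : Type*} [NormedRing A] [CompleteSpace A] {x s : A}
    (hs : s * x = 1 ∨ x * s = 1) (h : ∀ ε : ℝ, 0 < ε → ∃ y : A, IsUnit y ∧ ‖x - y‖ < ε) :
    IsUnit x := by
  obtain ⟨y, hy, hxy⟩ := h ((‖s‖ + 1)⁻¹) (by positivity)
  have h1 : ‖s‖ * ‖x - y‖ < 1 := by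
    calc ‖s‖ * ‖x - y‖ ≤ ‖s‖ * (‖s‖ + 1)⁻¹ := by gcongr
      _ < 1 := by
        rw [mul_inv_lt_iff₀ (by positivity)]
        linarith
  rcases hs with hs | hs
  · -- s y = 1 - s (x - y) is a unit
    have h2 : IsUnit (s * y) := by
      have h3 : s * y = 1 - s * (x - y) := by rw [mul_sub, hs]; abel
      rw [h3]
      exact ⟨Units.oneSub (s * (x - y)) ((norm_mul_le _ _).trans_lt h1), rfl⟩
    have h3 : IsUnit s := by
      have := h2.mul hy.unit⁻¹.isUnit
      rw [mul_assoc] at this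
      have e : y * ((hy.unit⁻¹ : Aˣ) : A) = 1 := hy.mul_val_inv
      rw [e, mul_one] at this
      exact this
    have h4 : x = ((h3.unit⁻¹ : Aˣ) : A) := by
      have e : ((h3.unit⁻¹ : Aˣ) : A) * s = 1 := h3.val_inv_mul
      calc x = (((h3.unit⁻¹ : Aˣ) : A) * s) * x := by rw [e, one_mul]
        _ = _ := by rw [mul_assoc, hs, mul_one]
    rw [h4]
    exact Units.isUnit _
  · have h2 : IsUnit (y * s) := by
      have h3 : y * s = 1 - (x - y) * s := by rw [sub_mul, hs]; abel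
      rw [h3]
      refine ⟨Units.oneSub ((x - y) * s) ((norm_mul_le _ _).trans_lt ?_), rfl⟩
      rw [mul_comm]; exact h1
    have h3 : IsUnit s := by
      have := hy.unit⁻¹.isUnit.mul h2
      rw [← mul_assoc] at this
      have e : ((hy.unit⁻¹ : Aˣ) : A) * y = 1 := hy.val_inv_mul
      rw [e, one_mul] at this
      exact this
    have h4 : x = ((h3.unit⁻¹ : Aˣ) : A) := by
      have e : s * ((h3.unit⁻¹ : Aˣ) : A) = 1 := h3.mul_val_inv
      calc x = x * (s * ((h3.unit⁻¹ : Aˣ) : A)) := by rw [e, mul_one]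
        _ = _ := by rw [← mul_assoc, hs, one_mul]
    rw [h4]
    exact Units.isUnit _

/-- Every operator has a point in its semi-Fredholm spectrum. -/
lemma exists_not_sf (hinf : ¬ FiniteDimensional ℂ H) (Y : H →L[ℂ] H) :
    ∃ t : ℂ, ¬ (LI (Y - t • 1) ∨ RI (Y - t • 1)) := by
  have := calk_nontrivial hinf
  set y : Calk H := cmkA Y with hy
  have hne := spectrum.nonempty y
  have hcpt := spectrum.isCompact (𝕜 := ℂ) y
  have hnu : spectrum ℂ y ≠ Set.univ := by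
    intro h
    rw [h] at hcpt
    exact noncompact_univ ℂ hcpt
  have hfr : (frontier (spectrum ℂ y)).Nonempty := nonempty_frontier_iff.2 ⟨hne, hnu⟩
  obtain ⟨t, ht⟩ := hfr
  have ht1 : t ∈ spectrum ℂ y := by
    have := frontier_subset_closure ht
    rwa [(spectrum.isClosed (𝕜 := ℂ) y).closure_eq] at this
  have ht2 : t ∈ closure (spectrum ℂ y)ᶜ := by
    rw [frontier_eq_closure_inter_closure] at ht
    exact ht.2
  refine ⟨t, fun hsf => ?_⟩
  have hlim : ∀ ε : ℝ, 0 < ε → ∃ z : Calk H, IsUnit z ∧ ‖(y - algebraMap ℂ (Calk H) t) - z‖ < ε := by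
    intro ε hε
    obtain ⟨s, hs1, hs2⟩ := Metric.mem_closure_iff.1 ht2 (ε / (‖(1 : Calk H)‖ + 1)) (by positivity)
    refine ⟨y - algebraMap ℂ (Calk H) s, ?_, ?_⟩
    · have h1 : s ∉ spectrum ℂ y := hs1
      rw [spectrum.mem_iff, not_not] at h1
      have := h1.neg
      rwa [neg_sub] at this
    · have e1 : (y - algebraMap ℂ (Calk H) t) - (y - algebraMap ℂ (Calk H) s) =
          (s - t) • (1 : Calk H) := by
        rw [Algebra.algebraMap_eq_smul_one, Algebra.algebraMap_eq_smul_one, sub_smul]; abel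
      rw [e1, norm_smul]
      have h2 : ‖s - t‖ < ε / (‖(1 : Calk H)‖ + 1) := by
        rw [← dist_eq_norm, dist_comm]; exact hs2
      calc ‖s - t‖ * ‖(1 : Calk H)‖ ≤ ‖s - t‖ * (‖(1 : Calk H)‖ + 1) := by gcongr; linarith
        _ < ε / (‖(1 : Calk H)‖ + 1) * (‖(1 : Calk H)‖ + 1) := by
          apply mul_lt_mul_of_pos_right h2; positivity
        _ = ε := by field_simp
  have hunit : IsUnit (y - algebraMap ℂ (Calk H) t) := by
    have e2 : (cmkA (Y - t • 1) : Calk H) = y - algebraMap ℂ (Calk H) t := by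
      rw [map_sub, map_smul, map_one, Algebra.algebraMap_eq_smul_one]
    rcases hsf with ⟨S, hS⟩ | ⟨S, hS⟩
    · refine unit_of_left_limit (s := cmkA S) (Or.inl ?_) hlim
      have := (cmk_eq_zero _).2 hS.compact
      change (cmkA (S * (Y - t • 1) - 1 : H →L[ℂ] H) : Calk H) = 0 at this
      rw [map_sub, map_mul, map_one, sub_eq_zero, e2] at this
      exact this
    · refine unit_of_left_limit (s := cmkA S) (Or.inr ?_) hlim
      have := (cmk_eq_zero _).2 hS.compact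
      change (cmkA ((Y - t • 1) * S - 1 : H →L[ℂ] H) : Calk H) = 0 at this
      rw [map_sub, map_mul, map_one, sub_eq_zero, e2] at this
      exact this
  rw [spectrum.mem_iff] at ht1
  apply ht1
  have := hunit.neg
  rwa [neg_sub] at this

lemma inv_char [TopologicalSpace.SeparableSpace H] (hinf : ¬ FiniteDimensional ℂ H)
    (T : H →L[ℂ] H) : (LI T ∧ RI T) ↔
      (LI T ∨ RI T) ∧ ∀ Y : H →L[ℂ] H, ∃ t : ℂ, ¬ (LI (Y - t • T) ∨ RI (Y - t • T)) := by
  constructor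
  · rintro ⟨hl, hr⟩
    refine ⟨Or.inl hl, fun Y => ?_⟩
    obtain ⟨u, hu⟩ := inv_iff_unit.1 ⟨hl, hr⟩
    obtain ⟨T', hT'⟩ := qm_surjective H ((u⁻¹ : (QH H)ˣ) : QH H)
    obtain ⟨t, ht⟩ := exists_not_sf hinf (T' * Y)
    refine ⟨t, fun h => ht ?_⟩
    have e1 : qm H (Y - t • T) = (u : QH H) * qm H (T' * Y - t • 1) := by
      rw [map_sub, map_sub, map_mul, map_smul, map_smul, map_one, hT', mul_sub, ← mul_assoc,
        Units.mul_inv, one_mul, mul_smul_comm, mul_one, hu]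
    rcases h with h | h
    · left
      obtain ⟨s, hs⟩ := li_iff.1 h
      rw [e1] at hs
      exact li_iff.2 ⟨s * u, by rw [mul_assoc, hs]⟩
    · right
      obtain ⟨s, hs⟩ := ri_iff.1 h
      rw [e1] at hs
      refine ri_iff.2 ⟨s * u, ?_⟩
      have h2 : qm H (T' * Y - t • 1) * s = ((u⁻¹ : (QH H)ˣ) : QH H) := by
        calc qm H (T' * Y - t • 1) * s
            = (((u⁻¹ : (QH H)ˣ) : QH H) * u) * (qm H (T' * Y - t • 1) * s) := by
              rw [Units.inv_mul, one_mul]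
          _ = ((u⁻¹ : (QH H)ˣ) : QH H) * (u * qm H (T' * Y - t • 1) * s) := by
              simp only [mul_assoc]
          _ = _ := by rw [hs, mul_one]
      rw [← mul_assoc, h2, Units.inv_mul]
  · rintro ⟨h1, h2⟩
    by_contra hcon
    rcases h1 with h1 | h1
    · have h3 : ¬ RI T := fun h => hcon ⟨h1, h⟩
      obtain ⟨y, hy⟩ := alg3 hE (qm H T) (li_iff.1 h1) (fun h => h3 (ri_iff.2 h))
      obtain ⟨Y, rfl⟩ := qm_surjective H y
      obtain ⟨t, ht⟩ := h2 Y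
      apply ht
      left
      rw [li_iff, map_sub, map_smul]
      exact hy t
    · have h3 : ¬ LI T := fun h => hcon ⟨h, h1⟩
      obtain ⟨y, hy⟩ := alg4 hE (qm H T) (ri_iff.1 h1) (fun h => h3 (li_iff.2 h))
      obtain ⟨Y, rfl⟩ := qm_surjective H y
      obtain ⟨t, ht⟩ := h2 Y
      apply ht
      right
      rw [ri_iff, map_sub, map_smul]
      exact hy t

end

end Pool.Agent.Helper280.GI
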