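import Mathlib
import Pool.Agent.Helper280.GI.PA1
import Pool.Agent.Helper280.GI.JHerstein
import Pool.Agent.Helper280.GI.JIdemjordan
import Pool.Agent.Helper280.GI.JSpanidem
import Pool.Agent.Helper280.GI.JPrime
import Pool.Agent.Helper280.GI.JLeavitt
import Pool.Agent.Helper280.SI.Final

set_option autoImplicit false

namespace Pool.Agent.Helper280.GI

lemma exists_descend {V W X : Type*} [AddCommGroup V] [Module ℂ V] [AddCommGroup W] [Module ℂ W]
    [AddCommGroup X] [Module ℂ X] (p : V →ₗ[ℂ] W) (hp : Function.Surjective p) (f : V →ₗ[ℂ] X)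
    (h : ∀ v, p v = 0 → f v = 0) : ∃ g : W →ₗ[ℂ] X, ∀ v, g (p v) = f v := by
  have hk : LinearMap.ker p ≤ LinearMap.ker f := fun v hv => h v hv
  refine ⟨((LinearMap.ker p).liftQ f hk) ∘ₗ (p.quotKerEquivOfSurjective hp).symm.toLinearMap,
    fun v => ?_⟩
  have : (p.quotKerEquivOfSurjective hp).symm (p v) = Submodule.Quotient.mk v := by
    rw [LinearEquiv.symm_apply_eq]
    rfl
  rw [LinearMap.comp_apply, LinearEquiv.coe_coe, this]
  exact (LinearMap.ker p).liftQ_apply f v

section

variable {H : Type*} [NormedAddCommGroup H] [InnerProductSpace ℂ H] [CompleteSpace H]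

lemma zero_of_pert {A : Type*} [CStarAlgebra A] (c : A) (hc : ∀ u : A, IsUnit u → IsUnit (u + c)) :
    c = 0 := by
  -- the set of such elements is stable under left multiplication
  have h1 : ∀ w z : A, IsUnit w → (∀ u : A, IsUnit u → IsUnit (u + z)) →
      ∀ u : A, IsUnit u → IsUnit (u + w * z) := by
    intro w z hw hz u hu
    obtain ⟨w, rfl⟩ := hw
    have e : u + (w : A) * z = (w : A) * (((w⁻¹ : Aˣ) : A) * u + z) := by
      rw [mul_add, ← mul_assoc, Units.mul_inv, one_mul]
    rw [e]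
    exact w.isUnit.mul (hz _ ((Units.isUnit _).mul hu))
  have h2 : ∀ a : A, ∀ u : A, IsUnit u → IsUnit (u + a * c) := by
    intro a u hu
    set l : ℂ := ((‖a‖ * ‖(1 : A)‖ + 1 : ℝ) : ℂ) with hl
    have hln : ‖l‖ = ‖a‖ * ‖(1 : A)‖ + 1 := by
      rw [hl, Complex.norm_real, Real.norm_of_nonneg (by positivity)]
    have hl0 : l ≠ 0 := by
      rw [← norm_ne_zero_iff, hln]; positivity
    have hu1 : IsUnit (algebraMap ℂ A l) := (IsUnit.mk0 l hl0).map (algebraMap ℂ A)
    have hu2 : IsUnit (a - algebraMap ℂ A l) := by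
      have : l ∉ spectrum ℂ a := by
        intro hmem
        have := spectrum.norm_le_norm_mul_of_mem hmem
        rw [hln] at this
        linarith
      rw [spectrum.mem_iff, not_not] at this
      have := this.neg
      rwa [neg_sub] at this
    have e : u + a * c = (u + (a - algebraMap ℂ A l) * c) + algebraMap ℂ A l * c := by
      rw [sub_mul]; abel
    rw [e]
    exact h1 _ c hu1 hc _ (h1 _ c hu2 hc u hu)
  rcases subsingleton_or_nontrivial A with hs | hn
  · exact Subsingleton.elim _ _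
  have h3 : spectrum ℂ (star c * c) ⊆ {0} := by
    intro μ hμ
    by_contra hμ0
    have hμ0' : μ ≠ 0 := hμ0
    rw [spectrum.mem_iff] at hμ
    apply hμ
    have h4 := h2 (-(μ⁻¹ • star c)) 1 isUnit_one
    have e : algebraMap ℂ A μ - star c * c = algebraMap ℂ A μ * (1 + -(μ⁻¹ • star c) * c) := by
      rw [mul_add, mul_one, neg_mul, mul_neg, smul_mul_assoc, Algebra.algebraMap_eq_smul_one,
        smul_mul_smul_comm, one_mul, mul_inv_cancel₀ hμ0', one_smul, sub_eq_add_neg]
    rw [e]
    exact ((IsUnit.mk0 μ hμ0').map (algebraMap ℂ A)).mul h4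
  have h5 : spectralRadius ℂ (star c * c) = 0 := by
    unfold spectralRadius
    refine le_antisymm (iSup₂_le fun k hk => ?_) (zero_le)
    have := h3 hk
    simp only [Set.mem_singleton_iff] at this
    rw [this]; simp
  have h6 : ‖star c * c‖₊ = 0 := by
    have := (IsSelfAdjoint.star_mul_self c).spectralRadius_eq_nnnorm
    rw [h5] at this
    exact_mod_cast this.symm
  have h7 : star c * c = 0 := by simpa using h6
  exact (CStarRing.star_mul_self_eq_zero_iff c).1 h7

lemma compact_char (T : H →L[ℂ] H) :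
    IsCompactOperator T ↔ ∀ X, (LI X ∧ RI X) → (LI (X + T) ∧ RI (X + T)) := by
  constructor
  · intro hT X hX
    rw [← unit_calk_iff] at hX ⊢
    have h1 : (cmkA T : Calk H) = 0 := (cmk_eq_zero T).2 hT
    rw [map_add, h1, add_zero]
    exact hX
  · intro h
    rw [← cmk_eq_zero]
    refine zero_of_pert (cmk T) (fun u hu => ?_)
    obtain ⟨X, rfl⟩ := cmk_surjective u
    have h1 := h X (unit_calk_iff.1 hu)
    have h2 := unit_calk_iff.2 h1
    rw [map_add] at h2
    exact h2

/-- The properties of a normalised preserver. -/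
structure Pres (θ : (H →L[ℂ] H) →ₗ[ℂ] (H →L[ℂ] H)) : Prop where
  one : FR (θ 1 - 1)
  inv : ∀ T, (LI T ∧ RI T) ↔ (LI (θ T) ∧ RI (θ T))
  fin : ∀ T, FR T ↔ FR (θ T)
  surj : ∀ A, ∃ B, FR (A - θ B)
  rg : ∀ T, RG T → RG (θ T)

variable {θ : (H →L[ℂ] H) →ₗ[ℂ] (H →L[ℂ] H)}

lemma Pres.compact (hθ : Pres θ) {T : H →L[ℂ] H} (hT : IsCompactOperator T) :
    IsCompactOperator (θ T) := by
  rw [compact_char] at hT ⊢
  intro X' hX'
  obtain ⟨X, hX⟩ := hθ.surj X'
  have h1 : LI (θ X) ∧ RI (θ X) := ⟨(li_congr hX).1 hX'.1, (ri_congr hX).1 hX'.2⟩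
  have h2 := hT X ((hθ.inv X).2 h1)
  have h3 := (hθ.inv _).1 h2
  rw [map_add] at h3
  have h4 : FR ((X' + θ T) - (θ X + θ T)) := by simpa using hX
  exact ⟨(li_congr h4).2 h3.1, (ri_congr h4).2 h3.2⟩

lemma Pres.jordan_compact (hθ : Pres θ) (T : H →L[ℂ] H) :
    IsCompactOperator (θ (T * T) - θ T * θ T : H →L[ℂ] H) := by
  obtain ⟨g, hg⟩ := exists_descend ((cmkA (H := H)).toLinearMap) cmk_surjective
    ((cmkA (H := H)).toLinearMap ∘ₗ θ) (fun v hv => by
      have h1 : IsCompactOperator v := (cmk_eq_zero v).1 hv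
      exact (cmk_eq_zero _).2 (hθ.compact h1))
  have hg' : ∀ T, g (cmkA T) = cmkA (θ T) := hg
  have hFR : ∀ {S T : H →L[ℂ] H}, FR (S - T) → (cmkA S : Calk H) = cmkA T := by
    intro S T h
    rw [← sub_eq_zero, ← map_sub]
    exact (cmk_eq_zero _).2 h.compact
  have h1 : g 1 = 1 := by
    have := hg' 1
    rw [hFR hθ.one, map_one (cmkA (H := H))] at this
    exact this
  have hs : Function.Surjective g := by
    intro c
    obtain ⟨A, rfl⟩ := cmk_surjective c
    obtain ⟨B, hB⟩ := hθ.surj A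
    exact ⟨cmkA B, by rw [hg', ← hFR hB]; rfl⟩
  have hspec : ∀ c : Calk H, spectrum ℂ (g c) = spectrum ℂ c := by
    intro c
    obtain ⟨T, rfl⟩ := cmk_surjective c
    ext l
    rw [spectrum.mem_iff, spectrum.mem_iff, not_iff_not]
    have e1 : algebraMap ℂ (Calk H) l - cmk T = cmkA (l • 1 - T) := by
      rw [map_sub, map_smul, map_one, Algebra.algebraMap_eq_smul_one]; rfl
    have e2 : algebraMap ℂ (Calk H) l - g (cmk T) = cmkA (θ (l • 1 - T)) := by
      have h3 : g (cmk T) = cmkA (θ T) := hg' T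
      rw [h3, map_sub, map_smul, map_sub, map_smul, hFR hθ.one, map_one,
        Algebra.algebraMap_eq_smul_one]
    rw [e1, e2, unit_calk_iff, unit_calk_iff]
    exact (hθ.inv _).symm
  have hrad : ∀ c : Calk H, spectralRadius ℂ (g c) = spectralRadius ℂ c := by
    intro c
    unfold spectralRadius
    rw [hspec c]
  have hJ := (Pool.Agent.Helper280.SI.main g hs h1 hrad).2 (cmkA T)
  rw [← cmk_eq_zero]
  change (cmkA (θ (T * T) - θ T * θ T : H →L[ℂ] H) : Calk H) = 0
  have e3 : (cmkA (θ (T * T)) : Calk H) = g (cmkA (T * T)) := (hg' _).symm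
  have e4 : (cmkA (θ T * θ T : H →L[ℂ] H) : Calk H) = cmkA (θ T) * cmkA (θ T) :=
    map_mul (cmkA (H := H)) _ _
  rw [map_sub, e3, map_mul (cmkA (H := H)) T T, hJ, hg', e4, sub_self]

/-- A normalised preserver is an automorphism or an anti-automorphism modulo finite rank. -/
theorem Pres.hom_or_anti [TopologicalSpace.SeparableSpace H] (hinf : ¬ FiniteDimensional ℂ H)
    (hθ : Pres θ) :
    (∀ S T, FR (θ (S * T) - θ S * θ T)) ∨ (∀ S T, FR (θ (S * T) - θ T * θ S)) := by
  obtain ⟨g, hg⟩ := exists_descend ((qm H).toLinearMap) (qm_surjective H)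
    ((qm H).toLinearMap ∘ₗ θ) (fun v hv => by
      have h1 : FR v := qm_eq_zero.1 hv
      exact qm_eq_zero.2 ((hθ.fin v).1 h1))
  have hg' : ∀ T, g (qm H T) = qm H (θ T) := hg
  have h1 : g 1 = 1 := by
    have := hg' 1
    rw [qm_eq.2 hθ.one, map_one (qm H)] at this
    exact this
  have hs : Function.Surjective g := by
    intro c
    obtain ⟨A, rfl⟩ := qm_surjective H c
    obtain ⟨B, hB⟩ := hθ.surj A
    exact ⟨qm H B, by rw [hg', ← qm_eq.2 hB]⟩
  have hid : ∀ e : QH H, e * e = e → g e * g e = g e := by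
    intro e he
    obtain ⟨T, rfl⟩ := qm_surjective H e
    have hTT : FR (T * T - T) := by
      rw [← map_mul] at he
      exact qm_eq.1 he
    have hT2 : FR ((1 - T) * (1 - T) - (1 - T)) := by
      have : (1 - T) * (1 - T) - (1 - T) = T * T - T := by noncomm_ring
      rw [this]; exact hTT
    have hrT : RG T := ⟨1, by rwa [mul_one]⟩
    have hrT2 : RG (1 - T) := ⟨1, by rwa [mul_one]⟩
    have h2 := rg_iff.1 (hθ.rg T hrT)
    have h3 := rg_iff.1 (hθ.rg _ hrT2)
    rw [← hg'] at h2 h3
    rw [map_sub, map_sub, map_one, h1] at h3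
    obtain ⟨s, hs⟩ := h2
    obtain ⟨u, hu⟩ := h3
    have hc : IsCompactOperator (θ T - θ T * θ T : H →L[ℂ] H) := by
      have h4 := hθ.jordan_compact T
      have h5 : IsCompactOperator (θ T - θ (T * T) : H →L[ℂ] H) := by
        have h6 : FR (T - T * T) := FR.sub_comm hTT
        have h7 := (hθ.fin _).1 h6
        rw [map_sub] at h7
        exact h7.compact
      have h8 := h5.add h4
      have e1 : (θ T - θ T * θ T : H →L[ℂ] H) = (θ T - θ (T * T)) + (θ (T * T) - θ T * θ T) := by
        abel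
      rw [e1]
      exact h8
    have hk : IsUnit (1 - (s + u) * (g (qm H T) - g (qm H T) * g (qm H T))) := by
      obtain ⟨Z, hZ⟩ := qm_surjective H (s + u)
      have h9 : IsCompactOperator (-(Z * (θ T - θ T * θ T)) : H →L[ℂ] H) := by
        have := (hc.clm_comp Z).neg
        exact this
      have h10 := inv_iff_unit.1 (compact_fredholm h9)
      rw [map_add, map_neg, map_mul, map_sub, map_mul, map_one, hZ, ← hg', ← sub_eq_add_neg] at h10
      exact h10
    exact idem_of_regular _ s u hs hu hk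
  obtain ⟨v, v', hv, hv1⟩ := leavitt (H := H) hinf
  have hspan : Submodule.span ℂ {e : QH H | e * e = e} = ⊤ := by
    rw [eq_top_iff]
    rintro q -
    obtain ⟨T, rfl⟩ := qm_surjective H q
    have h2 : T ∈ Submodule.span ℂ {e : H →L[ℂ] H | e * e = e} := by
      rw [span_idem hinf]; trivial
    have h3 : (Submodule.span ℂ {e : H →L[ℂ] H | e * e = e}).map (qm H).toLinearMap ≤
        Submodule.span ℂ {e : QH H | e * e = e} := by
      rw [Submodule.map_span]
      refine Submodule.span_mono ?_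
      rintro _ ⟨e, he, rfl⟩
      have he' : e * e = e := he
      change qm H e * qm H e = qm H e
      rw [← map_mul, he']
    exact h3 ⟨T, h2, rfl⟩
  have hJ : ∀ x, g (x * x) = g x * g x := by
    refine idem_to_jordan (qm H (v 0)) (qm H (v 1)) (qm H (v' 0)) (qm H (v' 1)) ?_ ?_ ?_ ?_ ?_
      hspan g h1 hid
    · rw [← map_mul, hv 0 0, if_pos rfl, map_one]
    · rw [← map_mul, hv 1 1, if_pos rfl, map_one]
    · rw [← map_mul, hv 0 1, if_neg (by decide), map_zero]
    · rw [← map_mul, hv 1 0, if_neg (by decide), map_zero]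
    · rw [← map_mul, ← map_mul, ← map_add, hv1, map_one]
  rcases herstein (fun a b h => qh_prime a b h) g hs hJ with h | h
  · left
    intro S T
    rw [← qm_eq, ← hg', map_mul, h, map_mul, hg', hg']
  · right
    intro S T
    rw [← qm_eq, ← hg', map_mul, h, map_mul, hg', hg']

end

end Pool.Agent.Helper280.GI
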